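import Mathlib

/-!
# SMQ: the second moment of the 3-torsion of class groups of imaginary quadratic fields

Goal: `∑ |Cl(K)[3]| ^ 2 ≪ X ^ (1 + ε)`, the sum over imaginary quadratic `K` with `|D_K| ≤ X`.

Three classes `A₁ + A₂ + A₃ = 0` spanning a subgroup of order 9 give (with ideals of minimal norms
`Nᵢ`, a generator `π` of their product and generators `αᵢ` of their cubes) the integers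
`p = im π`, `yᵢ = im αᵢ`, `gᵢ = im (αᵢ π̄ / Nᵢ)`, all divided by their content `G`, with
`D = G² |D_K|`, `Δ = y₁ y₂ y₃ - p³` and `Nᵢ Δ = yᵢ gⱼ gₖ - p gᵢ²`.
The fourth class `A₁ - A₂` (norm `N₄`) gives `u, v ∈ ℤ³` with `G g = u × v`.
-/

set_option autoImplicit false

namespace Pool.Agent.SMQ

/-- vectors -/
abbrev V3 := ℤ × ℤ × ℤ

/-- the cross product -/
def cr (a b : V3) : V3 :=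
  (a.2.1 * b.2.2 - a.2.2 * b.2.1, a.2.2 * b.1 - a.1 * b.2.2, a.1 * b.2.1 - a.2.1 * b.1)

/-- the scalar product -/
def dt (a b : V3) : ℤ := a.1 * b.1 + a.2.1 * b.2.1 + a.2.2 * b.2.2

/-- `Δ = y₁ y₂ y₃ - p³` -/
def De (p : ℤ) (y : V3) : ℤ := y.1 * y.2.1 * y.2.2 - p ^ 3

/-- the cyclic rotation -/
def rt (a : V3) : V3 := (a.2.1, a.2.2, a.1)

/-- the conditions on the index `1`; the conditions on `2` and `3` are obtained by rotation -/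
structure T1 (D G : ℕ) (p y1 y2 y3 g1 g2 g3 : ℤ) (N1 N2 N3 N4 : ℕ) (u1 u2 u3 v1 v2 v3 : ℤ) :
    Prop where
  hN : 1 ≤ N1
  hy : y1 ≠ 0
  /-- the identity `N₁ Δ = y₁ g₂ g₃ - p g₁²` -/
  hi : (N1 : ℤ) * (y1 * y2 * y3 - p ^ 3) = y1 * g2 * g3 - p * g1 ^ 2
  sy : (D : ℤ) * y1 ^ 2 ≤ 4 * (N1 : ℤ) ^ 3
  sg : (D : ℤ) * g1 ^ 2 ≤ 4 * (N1 : ℤ) ^ 2 * N2 * N3
  sN : (G * N1) ^ 2 ≤ D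
  /-- two of the three numbers `|gᵢ| / √Nᵢ` are comparable -/
  st : |(g1 : ℝ)| / √(N1 : ℝ) ≤ |(g2 : ℝ)| / √(N2 : ℝ) + |(g3 : ℝ)| / √(N3 : ℝ)
  gc : ∀ n : ℤ, n ∣ p → n ∣ y1 → n ∣ g1
  /-- the vector `G g` is the cross product of `u` and `v` -/
  cr : (G : ℤ) * g1 = u2 * v3 - u3 * v2
  /-- the lower bound for the vectors of the lattice spanned by `u` and `v` -/
  lb : ∀ s t : ℤ, (s ≠ 0 ∨ t ≠ 0) → √(N4 : ℝ) * ((G : ℝ) * |(g1 : ℝ)|) ≤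
    √(N1 : ℝ) * (|((s * u2 + t * v2 : ℤ) : ℝ)| * √(N2 : ℝ) +
      |((s * u3 + t * v3 : ℤ) : ℝ)| * √(N3 : ℝ))

/-- the integer data of a good pair of classes of order 3; `D = G² |D_K|` -/
structure Tri (D G : ℕ) (p : ℤ) (y g : V3) (N : ℕ × ℕ × ℕ) (N4 : ℕ) (u v : V3) : Prop where
  hG : 1 ≤ G
  hp : p ≠ 0
  hD : De p y ≠ 0
  sp : (D : ℤ) * p ^ 2 ≤ 4 * (N.1 : ℤ) * N.2.1 * N.2.2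
  s4 : N.1 ≤ N4 ∨ N.2.1 ≤ N4 ∨ N.2.2 ≤ N4
  t1 : T1 D G p y.1 y.2.1 y.2.2 g.1 g.2.1 g.2.2 N.1 N.2.1 N.2.2 N4
    u.1 u.2.1 u.2.2 v.1 v.2.1 v.2.2
  t2 : T1 D G p y.2.1 y.2.2 y.1 g.2.1 g.2.2 g.1 N.2.1 N.2.2 N.1 N4
    u.2.1 u.2.2 u.1 v.2.1 v.2.2 v.1
  t3 : T1 D G p y.2.2 y.1 y.2.1 g.2.2 g.1 g.2.1 N.2.2 N.1 N.2.1 N4
    u.2.2 u.1 u.2.1 v.2.2 v.1 v.2.1
  /-- a common prime of `p` and `Δ` divides exactly one of the `yᵢ`, or all `gᵢ` and then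
  its cube does not divide `Δ` -/
  lo : ∀ l : ℕ, l.Prime → (l : ℤ) ∣ p → (l : ℤ) ∣ De p y →
    ((l : ℤ) ∣ y.1 ∧ ¬ (l : ℤ) ∣ y.2.1 ∧ ¬ (l : ℤ) ∣ y.2.2) ∨
    ((l : ℤ) ∣ y.2.1 ∧ ¬ (l : ℤ) ∣ y.1 ∧ ¬ (l : ℤ) ∣ y.2.2) ∨
    ((l : ℤ) ∣ y.2.2 ∧ ¬ (l : ℤ) ∣ y.1 ∧ ¬ (l : ℤ) ∣ y.2.1) ∨
    ((l : ℤ) ∣ g.1 ∧ (l : ℤ) ∣ g.2.1 ∧ (l : ℤ) ∣ g.2.2 ∧ ¬ (l : ℤ) ^ 3 ∣ De p y)
  ka : ∀ n : ℤ, n ∣ g.1 → n ∣ g.2.1 → n ∣ g.2.2 → n ∣ p ^ 2 * De p y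

/-- the set that has to be counted -/
def Cn (X G : ℕ) (p : ℤ) (y g : V3) : Prop :=
  ∃ (D : ℕ) (N : ℕ × ℕ × ℕ) (N4 : ℕ) (u v : V3), D ≤ G ^ 2 * X ∧ Tri D G p y g N N4 u v

/-- primitive vectors -/
def Pr (w : V3) : Prop := ∃ a : V3, dt a w = 1

/-- primitive solutions of the three congruences modulo `Q` -/
def Ok (p' : ℤ) (m : ℕ × ℕ × ℕ) (y' : V3) (Q : ℕ) (w : V3) : Prop :=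
  Pr w ∧ (Q : ℤ) ∣ y'.1 * w.2.1 * w.2.2 - p' * (m.1 : ℤ) ^ 2 * w.1 ^ 2 ∧
    (Q : ℤ) ∣ y'.2.1 * w.2.2 * w.1 - p' * (m.2.1 : ℤ) ^ 2 * w.2.1 ^ 2 ∧
    (Q : ℤ) ∣ y'.2.2 * w.1 * w.2.1 - p' * (m.2.2 : ℤ) ^ 2 * w.2.2 ^ 2

/-- the prime `l` divides neither `y` nor `m` -/
def Nd (l : ℕ) (y : ℤ) (m : ℕ) : Prop := ¬ (l : ℤ) ∣ y ∧ ¬ l ∣ m

/-- two of the three indices are good for every prime divisor of `Q` -/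
def Go (p' : ℤ) (m : ℕ × ℕ × ℕ) (y' : V3) (Q : ℕ) : Prop :=
  ∀ l : ℕ, l.Prime → l ∣ Q → ¬ (l : ℤ) ∣ p' ∧
    ((Nd l y'.2.1 m.2.1 ∧ Nd l y'.2.2 m.2.2) ∨ (Nd l y'.2.2 m.2.2 ∧ Nd l y'.1 m.1) ∨
      (Nd l y'.1 m.1 ∧ Nd l y'.2.1 m.2.1))

/-- the reduced data of `(p, y)`: `M = m_1 m_2 m_3`, `p = M p'`, `y_i = m_i y'_i`, `Δ = M E` -/
structure Rd (p : ℤ) (y : V3) (m : ℕ × ℕ × ℕ) (p' : ℤ) (y' : V3) (E : ℤ) : Prop where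
  m1 : 1 ≤ m.1
  m2 : 1 ≤ m.2.1
  m3 : 1 ≤ m.2.2
  hp : p = (m.1 : ℤ) * m.2.1 * m.2.2 * p'
  hy1 : y.1 = (m.1 : ℤ) * y'.1
  hy2 : y.2.1 = (m.2.1 : ℤ) * y'.2.1
  hy3 : y.2.2 = (m.2.2 : ℤ) * y'.2.2
  hE : De p y = (m.1 : ℤ) * m.2.1 * m.2.2 * E
  co1 : IsCoprime (m.1 : ℤ) (y.2.1 * y.2.2)
  co2 : IsCoprime (m.2.1 : ℤ) (y.2.2 * y.1)
  co3 : IsCoprime (m.2.2 : ℤ) (y.1 * y.2.1)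
  mx1 : ∀ l : ℕ, l.Prime → ¬ (l : ℤ) ∣ y.2.1 → ¬ (l : ℤ) ∣ y.2.2 → ¬ ((l : ℤ) ∣ p' ∧ (l : ℤ) ∣ y'.1)
  mx2 : ∀ l : ℕ, l.Prime → ¬ (l : ℤ) ∣ y.2.2 → ¬ (l : ℤ) ∣ y.1 → ¬ ((l : ℤ) ∣ p' ∧ (l : ℤ) ∣ y'.2.1)
  mx3 : ∀ l : ℕ, l.Prime → ¬ (l : ℤ) ∣ y.1 → ¬ (l : ℤ) ∣ y.2.1 → ¬ ((l : ℤ) ∣ p' ∧ (l : ℤ) ∣ y'.2.2)

/-- the vector `(m_i h w_i)` -/
def gv (m : ℕ × ℕ × ℕ) (h : ℕ) (w : V3) : V3 :=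
  ((m.1 : ℤ) * h * w.1, (m.2.1 : ℤ) * h * w.2.1, (m.2.2 : ℤ) * h * w.2.2)

/-- `c = gcd (|E|, h ^ 2)` -/
def cc (E : ℤ) (h : ℕ) : ℕ := Nat.gcd E.natAbs (h ^ 2)

/-- `Q = |E| / c` -/
def QQ (E : ℤ) (h : ℕ) : ℕ := E.natAbs / cc E h

/-- the dyadic box with the parameters `d, n1, n2, n3, a2, a3` -/
structure Bo (d n1 n2 n3 a2 a3 : ℕ) (D : ℕ) (N : ℕ × ℕ × ℕ) (g : V3) : Prop where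
  d0 : 1 ≤ d
  n10 : 1 ≤ n1
  n20 : 1 ≤ n2
  n30 : 1 ≤ n3
  a20 : 1 ≤ a2
  a30 : 1 ≤ a3
  d1 : d ≤ D
  d2 : D < 2 * d
  n11 : n1 ≤ N.1
  n12 : N.1 < 2 * n1
  n21 : n2 ≤ N.2.1
  n22 : N.2.1 < 2 * n2
  n31 : n3 ≤ N.2.2
  n32 : N.2.2 < 2 * n3
  a21 : (a2 : ℤ) ≤ |g.2.1|
  a22 : |g.2.1| < 2 * (a2 : ℤ)
  a31 : (a3 : ℤ) ≤ |g.2.2|
  a32 : |g.2.2| < 2 * (a3 : ℤ)
  /-- the index `1` is the smallest one -/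
  t2 : |(g.1 : ℝ)| / √(N.1 : ℝ) ≤ |(g.2.1 : ℝ)| / √(N.2.1 : ℝ)
  t3 : |(g.1 : ℝ)| / √(N.1 : ℝ) ≤ |(g.2.2 : ℝ)| / √(N.2.2 : ℝ)

/-- `n1 n2 n3 / √d` -/
noncomputable def B0 (d n1 n2 n3 : ℕ) : ℝ := (n1 : ℝ) * n2 * n3 / √(d : ℝ)

/-- the tuple `(p, y, g)` belongs to the box -/
def InB (d n1 n2 n3 a2 a3 G : ℕ) (p : ℤ) (y g : V3) : Prop :=
  ∃ (D : ℕ) (N : ℕ × ℕ × ℕ) (N4 : ℕ) (u v : V3), Tri D G p y g N N4 u v ∧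
    Bo d n1 n2 n3 a2 a3 D N g

/-- the bound for a class with the weight `W` -/
noncomputable def Bd (d n1 n2 n3 : ℕ) (p : ℤ) (y : V3) (W : ℝ) : ℝ :=
  2000000 * (1 + B0 d n1 n2 n3 * W / (√((min n1 (min n2 n3) : ℕ) : ℝ) * |(De p y : ℝ)|) +
    B0 d n1 n2 n3 * W / (|(p : ℝ)| * |(De p y : ℝ)|))

/-- the sum of the weights -/
noncomputable def W2 (p n : ℤ) : ℝ :=
  ∑ M ∈ p.natAbs.divisors, ∑ f ∈ n.natAbs.divisors,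
    if M * f ^ 2 ∣ n.natAbs then (M : ℝ) * f else 0

/-- `2 P0 ^ 4 + B0 P0 / √nm + B0` -/
noncomputable def Tt (d n1 n2 n3 : ℕ) : ℝ :=
  2 * √(32 * (n1 : ℝ) * n2 * n3 / d) ^ 4 +
    B0 d n1 n2 n3 * √(32 * (n1 : ℝ) * n2 * n3 / d) / √((min n1 (min n2 n3) : ℕ) : ℝ) +
    B0 d n1 n2 n3

/-- `q` has a witness for which the index `1` is the smallest one -/
def C1 (X G : ℕ) (q : ℤ × V3 × V3) : Prop :=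
  ∃ (D : ℕ) (N : ℕ × ℕ × ℕ) (N4 : ℕ) (u v : V3), D ≤ G ^ 2 * X ∧
    Tri D G q.1 q.2.1 q.2.2 N N4 u v ∧
    |(q.2.2.1 : ℝ)| / √(N.1 : ℝ) ≤ |(q.2.2.2.1 : ℝ)| / √(N.2.1 : ℝ) ∧
    |(q.2.2.1 : ℝ)| / √(N.1 : ℝ) ≤ |(q.2.2.2.2 : ℝ)| / √(N.2.2 : ℝ)

end Pool.Agent.SMQ
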