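import Mathlib

/-!
# SMQ/Cub: at most three cube roots modulo a prime power

PROOF.  If `x0` is one solution then `x ↦ x / x0` maps the solutions injectively to the solutions of
`z ^ 3 = 1`.  If `l` is odd the group is cyclic (`ZMod.isCyclic_units_of_prime_pow`) and
`IsCyclic.card_pow_eq_one_le` applies.  If `l = 2` the order of the group `(ZMod (2 ^ f))ˣ` is a power of 2
(`ZMod.card_units_eq_totient`, `Nat.totient_prime_pow`), prime to 3, so `z ^ 3 = 1` implies `z = 1`
(`orderOf z` divides 3 and `2 ^ k`).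
-/

set_option autoImplicit false

namespace Pool.Agent.SMQ

open Classical in
private theorem cub_units (l f : ℕ) (hl : l.Prime) (hf : 1 ≤ f) :
    haveI : NeZero (l ^ f) := ⟨pow_ne_zero f hl.ne_zero⟩
    (Finset.univ.filter fun u : (ZMod (l ^ f))ˣ => u ^ 3 = 1).card ≤ 3 := by
  have : NeZero (l ^ f) := ⟨pow_ne_zero f hl.ne_zero⟩
  by_cases h2 : l = 2
  · subst h2
    have h1 : (Finset.univ.filter fun u : (ZMod (2 ^ f))ˣ => u ^ 3 = 1) ⊆ {1} := by
      intro u hu
      rw [Finset.mem_filter] at hu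
      rw [Finset.mem_singleton]
      have ha : orderOf u ∣ 3 := orderOf_dvd_of_pow_eq_one hu.2
      have hb : orderOf u ∣ 2 ^ (f - 1) := by
        have h3 := orderOf_dvd_card (x := u)
        rw [ZMod.card_units_eq_totient, Nat.totient_prime_pow Nat.prime_two hf] at h3
        simpa using h3
      have hc : orderOf u ∣ 1 := by
        have h4 : Nat.Coprime 3 (2 ^ (f - 1)) := Nat.Coprime.pow_right _ (by decide)
        rw [← h4]
        exact Nat.dvd_gcd ha hb
      exact orderOf_eq_one_iff.1 (Nat.dvd_one.1 hc)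
    refine (Finset.card_le_card h1).trans ?_
    simp
  · have : IsCyclic (ZMod (l ^ f))ˣ := ZMod.isCyclic_units_of_prime_pow l hl h2 f
    convert IsCyclic.card_pow_eq_one_le (α := (ZMod (l ^ f))ˣ) (n := 3) (by norm_num)

open Classical in
theorem cub (l f : ℕ) (hl : l.Prime) (hf : 1 ≤ f) (a : ZMod (l ^ f)) :
    haveI : NeZero (l ^ f) := ⟨pow_ne_zero f hl.ne_zero⟩
    (Finset.univ.filter fun x : ZMod (l ^ f) => IsUnit x ∧ x ^ 3 = a).card ≤ 3 := by
  have : NeZero (l ^ f) := ⟨pow_ne_zero f hl.ne_zero⟩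
  rcases Finset.eq_empty_or_nonempty
    (Finset.univ.filter fun x : ZMod (l ^ f) => IsUnit x ∧ x ^ 3 = a) with he | ⟨x0, hx0⟩
  · rw [he]
    simp
  · rw [Finset.mem_filter] at hx0
    obtain ⟨-, ⟨u0, rfl⟩, h0⟩ := hx0
    refine le_trans ?_ (cub_units l f hl hf)
    refine Finset.card_le_card_of_injOn
      (fun x => if h : IsUnit x then h.unit * u0⁻¹ else 1) ?_ ?_
    · intro x hx
      rw [Finset.mem_coe, Finset.mem_filter] at hx
      obtain ⟨-, ⟨u, rfl⟩, h1⟩ := hx
      rw [Finset.mem_coe, Finset.mem_filter]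
      refine ⟨Finset.mem_univ _, ?_⟩
      have hu : IsUnit (u : ZMod (l ^ f)) := u.isUnit
      simp only [hu, dite_true]
      have h3 : u ^ 3 = u0 ^ 3 := by
        apply Units.ext
        push_cast
        rw [h1, h0]
      have h4 : hu.unit = u := by
        apply Units.ext
        rfl
      rw [h4, mul_pow, h3, ← mul_pow, mul_inv_cancel, one_pow]
    · intro x hx y hy hxy
      rw [Finset.mem_coe, Finset.mem_filter] at hx hy
      have h1 := hx.2.1
      have h2 := hy.2.1
      simp only [h1, h2, dite_true] at hxy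
      have h3 := mul_right_cancel hxy
      have h4 := congrArg (fun u : (ZMod (l ^ f))ˣ => (u : ZMod (l ^ f))) h3
      simpa using h4

end Pool.Agent.SMQ
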