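import Pool.Agent.SMQ.Defs

/-!
# SMQ/Crs: the cross product and primitive vectors

PROOF of `pr_of`: Bezout for three integers: `d = gcd (gcd w1 w2) w3` divides all coordinates, so it
is a unit, and `d` is an integral combination (`Int.gcd_eq_gcd_ab` twice).
PROOF of `perp_eq`: `e = cr k a` with `dt a w = 1`: `cr w (cr k a) = k (w.a) - a (w.k) = k`.
PROOF of `par`: `x = w' - w` satisfies `cr w0 x = 0`; `x (a.w0) - w0 (a.x) = - cr a (cr w0 x)..= 0`, so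
`x = (a.x) w0`: coordinatewise `x_i (a.w0) - w0_i (a.x)` is a combination of the coordinates of
`cr w0 x`.
PROOF of `crp`: `cr k k'` is parallel to `w`: `t = a . (cr k k')`; `cr w (cr k k') = k (w.k') - k' (w.k) = 0`,
so (as in `par`) `cr k k' = (a . cr k k') w`.
-/

set_option autoImplicit false

namespace Pool.Agent.SMQ

theorem pr_dvd (w : V3) (h : Pr w) (n : ℤ) (h1 : n ∣ w.1) (h2 : n ∣ w.2.1) (h3 : n ∣ w.2.2) :
    n ∣ 1 := by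
  obtain ⟨a, ha⟩ := h
  rw [← ha]
  unfold dt
  exact dvd_add (dvd_add (Dvd.dvd.mul_left h1 _) (Dvd.dvd.mul_left h2 _)) (Dvd.dvd.mul_left h3 _)

theorem pr_of (w : V3) (h : ∀ n : ℤ, n ∣ w.1 → n ∣ w.2.1 → n ∣ w.2.2 → n ∣ 1) : Pr w := by
  have e1 := Int.gcd_eq_gcd_ab w.1 w.2.1
  have e2 := Int.gcd_eq_gcd_ab (Int.gcd w.1 w.2.1 : ℤ) w.2.2
  have d0 : ((Int.gcd (Int.gcd w.1 w.2.1 : ℤ) w.2.2 : ℕ) : ℤ) ∣ (Int.gcd w.1 w.2.1 : ℤ) :=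
    Int.gcd_dvd_left ..
  have d3 : ((Int.gcd (Int.gcd w.1 w.2.1 : ℤ) w.2.2 : ℕ) : ℤ) ∣ w.2.2 := Int.gcd_dvd_right ..
  have d1 := d0.trans (Int.gcd_dvd_left w.1 w.2.1)
  have d2 := d0.trans (Int.gcd_dvd_right w.1 w.2.1)
  have h1 := h _ d1 d2 d3
  have h2 : ((Int.gcd (Int.gcd w.1 w.2.1 : ℤ) w.2.2 : ℕ) : ℤ) = 1 :=
    Int.eq_one_of_dvd_one (Int.natCast_nonneg _) h1
  rw [h2] at e2
  refine ⟨(Int.gcdA w.1 w.2.1 * Int.gcdA (Int.gcd w.1 w.2.1 : ℤ) w.2.2,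
    Int.gcdB w.1 w.2.1 * Int.gcdA (Int.gcd w.1 w.2.1 : ℤ) w.2.2,
    Int.gcdB (Int.gcd w.1 w.2.1 : ℤ) w.2.2), ?_⟩
  unfold dt
  simp only
  linear_combination (-1) * e2 - Int.gcdA (Int.gcd w.1 w.2.1 : ℤ) w.2.2 * e1

theorem perp_eq (w k : V3) (h : Pr w) (hk : dt k w = 0) : ∃ e : V3, k = cr w e := by
  obtain ⟨a, ha⟩ := h
  refine ⟨cr k a, ?_⟩
  obtain ⟨k1, k2, k3⟩ := k
  obtain ⟨w1, w2, w3⟩ := w
  obtain ⟨a1, a2, a3⟩ := a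
  simp only [dt] at ha hk
  simp only [cr, Prod.mk.injEq]
  refine ⟨?_, ?_, ?_⟩
  · linear_combination (-k1) * ha + a1 * hk
  · linear_combination (-k2) * ha + a2 * hk
  · linear_combination (-k3) * ha + a3 * hk

theorem par (w0 w w' : V3) (h : Pr w0) (he : cr w0 w = cr w0 w') :
    ∃ t : ℤ, w'.1 = w.1 + t * w0.1 ∧ w'.2.1 = w.2.1 + t * w0.2.1 ∧ w'.2.2 = w.2.2 + t * w0.2.2 := by
  obtain ⟨a, ha⟩ := h
  obtain ⟨k1, k2, k3⟩ := w'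
  obtain ⟨l1, l2, l3⟩ := w
  obtain ⟨w1, w2, w3⟩ := w0
  obtain ⟨a1, a2, a3⟩ := a
  simp only [dt] at ha
  simp only [cr, Prod.mk.injEq] at he
  obtain ⟨c1, c2, c3⟩ := he
  refine ⟨a1 * (k1 - l1) + a2 * (k2 - l2) + a3 * (k3 - l3), ?_, ?_, ?_⟩
  · show k1 = l1 + (a1 * (k1 - l1) + a2 * (k2 - l2) + a3 * (k3 - l3)) * w1
    linear_combination (-(k1 - l1)) * ha + a2 * c3 - a3 * c2
  · show k2 = l2 + (a1 * (k1 - l1) + a2 * (k2 - l2) + a3 * (k3 - l3)) * w2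
    linear_combination (-(k2 - l2)) * ha - a1 * c3 + a3 * c1
  · show k3 = l3 + (a1 * (k1 - l1) + a2 * (k2 - l2) + a3 * (k3 - l3)) * w3
    linear_combination (-(k3 - l3)) * ha + a1 * c2 - a2 * c1

theorem crp (w k k' : V3) (h : Pr w) (hk : dt k w = 0) (hk' : dt k' w = 0) :
    ∃ t : ℤ, cr k k' = (t * w.1, t * w.2.1, t * w.2.2) := by
  obtain ⟨a, ha⟩ := h
  refine ⟨dt a (cr k k'), ?_⟩
  obtain ⟨k1, k2, k3⟩ := k
  obtain ⟨l1, l2, l3⟩ := k'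
  obtain ⟨w1, w2, w3⟩ := w
  obtain ⟨a1, a2, a3⟩ := a
  simp only [dt] at ha hk hk'
  simp only [dt, cr, Prod.mk.injEq]
  refine ⟨?_, ?_, ?_⟩
  · linear_combination (-(k2 * l3 - k3 * l2)) * ha - a2 * (k3 * hk' - l3 * hk) +
      a3 * (k2 * hk' - l2 * hk)
  · linear_combination (-(k3 * l1 - k1 * l3)) * ha + a1 * (k3 * hk' - l3 * hk) -
      a3 * (k1 * hk' - l1 * hk)
  · linear_combination (-(k1 * l2 - k2 * l1)) * ha - a1 * (k2 * hk' - l2 * hk) +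
      a2 * (k1 * hk' - l1 * hk)

theorem dt_cr (a b : V3) : dt (cr a b) a = 0 ∧ dt (cr a b) b = 0 := by
  constructor <;> (unfold dt cr; ring)

end Pool.Agent.SMQ
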