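import Mathlib

/-!
# SMQ/Lat: points of a plane lattice in a box

PROOF.  If all points of `S` are `0` the bound is clear (`card ≤ 1`).  Otherwise let `n k = max (|k.1| / a) (|k.2| / b)`
and let `u` be a point of `S`, `u ≠ 0`, with `μ = n u` minimal; `lam ≤ μ ≤ 1` by `hmin`.
The map `k ↦ D k = u.1 * k.2 - u.2 * k.1` on `S` has values of absolute value at most `2 μ a b`; the
differences `D k - D k' = D (k - k')` are `0` or at least `V` in absolute value, so there are at most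
`1 + 4 μ a b / V` values.  If `D k = D k'`, then `k - k'` is parallel to `u`, and if
`k ≠ k'` then `n (k - k') ≥ μ`: otherwise `k - k'` is in the box, but it is not known to be in `S`: so
take `u` minimal in the set of ALL nonzero points of `Λ` in the box (this set is finite: it is a
subset of a finite box of integers; it is nonempty as `S` has a nonzero point).  On the line
`k0 + ℝ u` the points are `k0 + τ u` with real `τ`, two different values of `τ` differ by at least
`1` (`n (k - k') = |τ - τ'| μ`), and `|τ - τ'| μ = n (k - k') ≤ 2`, so there are at most `1 + 2 / μ` points.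
Total: `(1 + 4 μ a b / V) (1 + 2 / μ) = 1 + 2 / μ + 4 μ a b / V + 8 a b / V ≤ 1 + 2 / lam + 12 a b / V`.
(Finite sets of reals with gaps `≥ s` in an interval of length `l` have at most `1 + l / s` elements:
map `x ↦ ⌊(x - min) / s⌋`, injective, or use the integers `Nat.floor`.)
-/

set_option autoImplicit false

namespace Pool.Agent.SMQ

theorem gap_card (S : Finset ℝ) (s l : ℝ) (hs : 0 < s) (hl : 0 ≤ l)
    (hg : ∀ x ∈ S, ∀ y ∈ S, x ≠ y → s ≤ |x - y|) (hd : ∀ x ∈ S, ∀ y ∈ S, |x - y| ≤ l) :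
    (S.card : ℝ) ≤ 1 + l / s := by
  classical
  rcases S.eq_empty_or_nonempty with he | hne
  · rw [he]
    have : 0 ≤ l / s := div_nonneg hl hs.le
    simp only [Finset.card_empty, Nat.cast_zero]
    linarith
  · have hm := S.min'_mem hne
    have hmle : ∀ x ∈ S, S.min' hne ≤ x := fun x hx => S.min'_le x hx
    obtain ⟨m, hmdef⟩ : ∃ m, m = S.min' hne := ⟨_, rfl⟩
    rw [← hmdef] at hm hmle
    have hcard : S.card ≤ (Finset.range (⌊l / s⌋₊ + 1)).card := by
      apply Finset.card_le_card_of_injOn (fun x => ⌊(x - m) / s⌋₊)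
      · intro x hx
        have hx' : x ∈ S := hx
        have h1 := hmle x hx'
        have h2 := hd x hx' m hm
        rw [abs_of_nonneg (by linarith)] at h2
        have h3 : (x - m) / s ≤ l / s := div_le_div_of_nonneg_right h2 hs.le
        have h4 : ⌊(x - m) / s⌋₊ ≤ ⌊l / s⌋₊ := Nat.floor_le_floor h3
        simp only [Finset.coe_range, Set.mem_Iio]
        omega
      · intro x hx y hy hxy
        have hx' : x ∈ S := hx
        have hy' : y ∈ S := hy
        by_contra hne'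
        have h1 := hg x hx' y hy' hne'
        have hx0 : 0 ≤ (x - m) / s := div_nonneg (by linarith [hmle x hx']) hs.le
        have hy0 : 0 ≤ (y - m) / s := div_nonneg (by linarith [hmle y hy']) hs.le
        have a1 := Nat.floor_le hx0
        have a2 := Nat.lt_floor_add_one ((x - m) / s)
        have b1 := Nat.floor_le hy0
        have b2 := Nat.lt_floor_add_one ((y - m) / s)
        have hxy' : ⌊(x - m) / s⌋₊ = ⌊(y - m) / s⌋₊ := hxy
        rw [hxy'] at a1 a2
        have h2 : |(x - m) / s - (y - m) / s| < 1 := by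
          rw [abs_lt]
          constructor <;> linarith
        have h3 : (x - m) / s - (y - m) / s = (x - y) / s := by ring
        rw [h3, abs_div, abs_of_pos hs, div_lt_one hs] at h2
        linarith
    rw [Finset.card_range] at hcard
    have h1 : (S.card : ℝ) ≤ (⌊l / s⌋₊ : ℝ) + 1 := by exact_mod_cast hcard
    have h2 := Nat.floor_le (div_nonneg hl hs.le)
    linarith

/-- the points on one line, counted by a coordinate -/
private theorem Lat_fib (c mu : ℝ) (hc : 0 < c) (hmu : 0 < mu) (F : Finset (ℤ × ℤ))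
    (f : ℤ × ℤ → ℤ) (h1 : ∀ k ∈ F, ∀ k' ∈ F, k ≠ k' → mu * c ≤ |((f k - f k' : ℤ) : ℝ)|)
    (h2 : ∀ k ∈ F, |(f k : ℝ)| ≤ c) : (F.card : ℝ) ≤ 1 + 2 / mu := by
  classical
  have hinj : Set.InjOn (fun k => (f k : ℝ)) (F : Set (ℤ × ℤ)) := by
    intro k hk k' hk' he
    by_contra hne
    have h3 := h1 k hk k' hk' hne
    have he' : (f k : ℝ) = f k' := he
    rw [Int.cast_sub, he', sub_self, abs_zero] at h3
    have := mul_pos hmu hc
    linarith
  rw [← Finset.card_image_of_injOn hinj]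
  have h4 := gap_card (F.image (fun k => (f k : ℝ))) (mu * c) (2 * c) (mul_pos hmu hc)
    (by linarith)
    (by
      intro x hx y hy hxy
      rw [Finset.mem_image] at hx hy
      obtain ⟨k, hk, rfl⟩ := hx
      obtain ⟨k', hk', rfl⟩ := hy
      have hne : k ≠ k' := by
        intro h
        exact hxy (by rw [h])
      have := h1 k hk k' hk' hne
      rwa [Int.cast_sub] at this)
    (by
      intro x hx y hy
      rw [Finset.mem_image] at hx hy
      obtain ⟨k, hk, rfl⟩ := hx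
      obtain ⟨k', hk', rfl⟩ := hy
      have e1 := h2 k hk
      have e2 := h2 k' hk'
      have e3 : |(f k : ℝ) - f k'| ≤ |(f k : ℝ)| + |(f k' : ℝ)| := abs_sub _ _
      linarith)
  have h5 : 2 * c / (mu * c) = 2 / mu := by field_simp
  rw [h5] at h4
  exact h4

theorem lat (Λ : AddSubgroup (ℤ × ℤ)) (a b lam V : ℝ) (ha : 0 < a) (hb : 0 < b) (hlam : 0 < lam)
    (hV : 0 < V) (hmin : ∀ k ∈ Λ, k ≠ 0 → lam * a ≤ |(k.1 : ℝ)| ∨ lam * b ≤ |(k.2 : ℝ)|)
    (hdet : ∀ k ∈ Λ, ∀ k' ∈ Λ, k.1 * k'.2 - k.2 * k'.1 ≠ 0 →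
      V ≤ |((k.1 * k'.2 - k.2 * k'.1 : ℤ) : ℝ)|)
    (S : Finset (ℤ × ℤ)) (hS : ∀ k ∈ S, k ∈ Λ ∧ |(k.1 : ℝ)| ≤ a ∧ |(k.2 : ℝ)| ≤ b) :
    (S.card : ℝ) ≤ 1 + 2 / lam + 12 * (a * b / V) := by
  classical
  have hlam2 : 0 ≤ 2 / lam := by positivity
  have habV : 0 ≤ 12 * (a * b / V) := by positivity
  by_cases hz : ∀ k ∈ S, k = 0
  · have : S.card ≤ 1 := by
      rw [Finset.card_le_one]
      intro x hx y hy
      rw [hz x hx, hz y hy]
    have : (S.card : ℝ) ≤ 1 := by exact_mod_cast this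
    linarith
  push Not at hz
  obtain ⟨k0, hk0, hk00⟩ := hz
  -- all nonzero points of the lattice in the box
  obtain ⟨A, hA⟩ : ∃ A : ℤ, A = ⌈a⌉ := ⟨_, rfl⟩
  obtain ⟨B, hB⟩ : ∃ B : ℤ, B = ⌈b⌉ := ⟨_, rfl⟩
  have haA : a ≤ A := by rw [hA]; exact Int.le_ceil a
  have hbB : b ≤ B := by rw [hB]; exact Int.le_ceil b
  obtain ⟨Bx, hBx⟩ : ∃ Bx : Finset (ℤ × ℤ), Bx = ((Finset.Icc (-A) A) ×ˢ (Finset.Icc (-B) B)).filter
    (fun k => k ∈ Λ ∧ k ≠ 0 ∧ |(k.1 : ℝ)| ≤ a ∧ |(k.2 : ℝ)| ≤ b) := ⟨_, rfl⟩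
  have hmem : ∀ k : ℤ × ℤ, k ∈ Bx ↔ (k ∈ Λ ∧ k ≠ 0 ∧ |(k.1 : ℝ)| ≤ a ∧ |(k.2 : ℝ)| ≤ b) := by
    intro k
    rw [hBx, Finset.mem_filter]
    constructor
    · exact fun h => h.2
    · intro h
      refine ⟨?_, h⟩
      obtain ⟨_, _, h3, h4⟩ := h
      rw [abs_le] at h3 h4
      rw [Finset.mem_product, Finset.mem_Icc, Finset.mem_Icc]
      refine ⟨⟨?_, ?_⟩, ⟨?_, ?_⟩⟩
      · have : ((-A : ℤ) : ℝ) ≤ k.1 := by push_cast; linarith
        exact_mod_cast this
      · have : (k.1 : ℝ) ≤ (A : ℤ) := by linarith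
        exact_mod_cast this
      · have : ((-B : ℤ) : ℝ) ≤ k.2 := by push_cast; linarith
        exact_mod_cast this
      · have : (k.2 : ℝ) ≤ (B : ℤ) := by linarith
        exact_mod_cast this
  have hBne : Bx.Nonempty := ⟨k0, (hmem k0).2 ⟨(hS k0 hk0).1, hk00, (hS k0 hk0).2.1, (hS k0 hk0).2.2⟩⟩
  obtain ⟨u, hu, humin⟩ := Bx.exists_min_image
    (fun k => max (|(k.1 : ℝ)| / a) (|(k.2 : ℝ)| / b)) hBne
  obtain ⟨hu1, hu2, hu3, hu4⟩ := (hmem u).1 hu
  obtain ⟨mu, hmu⟩ : ∃ mu, mu = max (|(u.1 : ℝ)| / a) (|(u.2 : ℝ)| / b) := ⟨_, rfl⟩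
  have hmu1 : mu ≤ 1 := by
    rw [hmu]
    exact max_le ((div_le_one ha).2 hu3) ((div_le_one hb).2 hu4)
  have hmul : lam ≤ mu := by
    rw [hmu]
    rcases hmin u hu1 hu2 with h | h
    · exact le_max_of_le_left ((le_div_iff₀ ha).2 h)
    · exact le_max_of_le_right ((le_div_iff₀ hb).2 h)
  have hmu0 : 0 < mu := lt_of_lt_of_le hlam hmul
  have hall : ∀ k ∈ Λ, k ≠ 0 → mu ≤ max (|(k.1 : ℝ)| / a) (|(k.2 : ℝ)| / b) := by
    intro k hk hk0
    by_cases hin : |(k.1 : ℝ)| ≤ a ∧ |(k.2 : ℝ)| ≤ b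
    · have := humin k ((hmem k).2 ⟨hk, hk0, hin.1, hin.2⟩)
      rw [hmu]
      exact this
    · rw [not_and_or, not_le, not_le] at hin
      rcases hin with h | h
      · exact le_trans hmu1 (le_max_of_le_left ((one_le_div ha).2 h.le))
      · exact le_trans hmu1 (le_max_of_le_right ((one_le_div hb).2 h.le))
  have hua : |(u.1 : ℝ)| ≤ mu * a := by
    rw [hmu, ← div_le_iff₀ ha]
    exact le_max_left _ _
  have hub : |(u.2 : ℝ)| ≤ mu * b := by
    rw [hmu, ← div_le_iff₀ hb]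
    exact le_max_right _ _
  -- the values of the determinant
  obtain ⟨T, hT⟩ : ∃ T : Finset ℝ, T = S.image (fun k => ((u.1 * k.2 - u.2 * k.1 : ℤ) : ℝ)) :=
    ⟨_, rfl⟩
  have hDb : ∀ k ∈ S, |((u.1 * k.2 - u.2 * k.1 : ℤ) : ℝ)| ≤ 2 * mu * (a * b) := by
    intro k hk
    obtain ⟨_, h2, h3⟩ := hS k hk
    push_cast
    have e1 : |(u.1 : ℝ) * k.2 - u.2 * k.1| ≤ |(u.1 : ℝ) * k.2| + |(u.2 : ℝ) * k.1| := abs_sub _ _
    rw [abs_mul, abs_mul] at e1
    have e2 : |(u.1 : ℝ)| * |(k.2 : ℝ)| ≤ (mu * a) * b :=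
      mul_le_mul hua h3 (abs_nonneg _) (by positivity)
    have e3 : |(u.2 : ℝ)| * |(k.1 : ℝ)| ≤ (mu * b) * a :=
      mul_le_mul hub h2 (abs_nonneg _) (by positivity)
    nlinarith
  have hTc : (T.card : ℝ) ≤ 1 + 4 * mu * (a * b) / V := by
    apply gap_card T V (4 * mu * (a * b)) hV (by positivity)
    · intro x hx y hy hxy
      rw [hT, Finset.mem_image] at hx hy
      obtain ⟨k, hk, rfl⟩ := hx
      obtain ⟨k', hk', rfl⟩ := hy
      have e : ((u.1 * k.2 - u.2 * k.1 : ℤ) : ℝ) - ((u.1 * k'.2 - u.2 * k'.1 : ℤ) : ℝ) =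
          ((u.1 * (k - k').2 - u.2 * (k - k').1 : ℤ) : ℝ) := by
        simp only [Prod.fst_sub, Prod.snd_sub]
        push_cast
        ring
      rw [e]
      apply hdet u hu1 (k - k') (Λ.sub_mem (hS k hk).1 (hS k' hk').1)
      intro h0
      apply hxy
      rw [h0, Int.cast_zero] at e
      linarith
    · intro x hx y hy
      rw [hT, Finset.mem_image] at hx hy
      obtain ⟨k, hk, rfl⟩ := hx
      obtain ⟨k', hk', rfl⟩ := hy
      have e1 := hDb k hk
      have e2 := hDb k' hk'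
      refine le_trans (abs_sub _ _) ?_
      linarith
  have hFc : ∀ x ∈ T, (((S.filter (fun k => ((u.1 * k.2 - u.2 * k.1 : ℤ) : ℝ) = x)).card : ℕ) : ℝ) ≤
      1 + 2 / mu := by
    intro x _
    -- two points of the fibre
    have hpar : ∀ k ∈ S.filter (fun k => ((u.1 * k.2 - u.2 * k.1 : ℤ) : ℝ) = x),
        ∀ k' ∈ S.filter (fun k => ((u.1 * k.2 - u.2 * k.1 : ℤ) : ℝ) = x),
        (u.1 : ℝ) * ((k.2 : ℝ) - k'.2) = u.2 * ((k.1 : ℝ) - k'.1) := by
      intro k hk k' hk'
      have h1 := (Finset.mem_filter.1 hk).2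
      have h2 := (Finset.mem_filter.1 hk').2
      push_cast at h1 h2
      linarith
    rcases le_total (|(u.2 : ℝ)| / b) (|(u.1 : ℝ)| / a) with hle | hle
    · have hmu' : mu * a = |(u.1 : ℝ)| := by
        rw [hmu, max_eq_left hle]
        field_simp
      have hu1p : 0 < |(u.1 : ℝ)| := by rw [← hmu']; positivity
      apply Lat_fib a mu ha hmu0 _ (fun k => k.1)
      · intro k hk k' hk' hne
        have hΛ : k - k' ∈ Λ :=
          Λ.sub_mem (hS k (Finset.mem_filter.1 hk).1).1 (hS k' (Finset.mem_filter.1 hk').1).1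
        have h1 := hall (k - k') hΛ (sub_ne_zero.2 hne)
        have h2 : |((k - k').2 : ℝ)| / b ≤ |((k - k').1 : ℝ)| / a := by
          have e := hpar k hk k' hk'
          have e' : |(u.1 : ℝ)| * |((k - k').2 : ℝ)| = |(u.2 : ℝ)| * |((k - k').1 : ℝ)| := by
            rw [← abs_mul, ← abs_mul]
            congr 1
            simp only [Prod.fst_sub, Prod.snd_sub]
            push_cast
            exact e
          rw [div_le_div_iff₀ hb ha] at hle ⊢
          have hnn := abs_nonneg ((k - k').1 : ℝ)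
          have h3 := mul_le_mul_of_nonneg_left hle hnn
          have h4 : |(u.1 : ℝ)| * (|((k - k').2 : ℝ)| * a) ≤
              |(u.1 : ℝ)| * (|((k - k').1 : ℝ)| * b) := by
            calc |(u.1 : ℝ)| * (|((k - k').2 : ℝ)| * a)
                = (|(u.1 : ℝ)| * |((k - k').2 : ℝ)|) * a := by ring
              _ = |((k - k').1 : ℝ)| * (|(u.2 : ℝ)| * a) := by rw [e']; ring
              _ ≤ |((k - k').1 : ℝ)| * (|(u.1 : ℝ)| * b) := h3
              _ = |(u.1 : ℝ)| * (|((k - k').1 : ℝ)| * b) := by ring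
          exact le_of_mul_le_mul_left h4 hu1p
        rw [max_eq_left h2, le_div_iff₀ ha] at h1
        exact h1
      · intro k hk
        exact (hS k (Finset.mem_filter.1 hk).1).2.1
    · have hmu' : mu * b = |(u.2 : ℝ)| := by
        rw [hmu, max_eq_right hle]
        field_simp
      have hu2p : 0 < |(u.2 : ℝ)| := by rw [← hmu']; positivity
      apply Lat_fib b mu hb hmu0 _ (fun k => k.2)
      · intro k hk k' hk' hne
        have hΛ : k - k' ∈ Λ :=
          Λ.sub_mem (hS k (Finset.mem_filter.1 hk).1).1 (hS k' (Finset.mem_filter.1 hk').1).1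
        have h1 := hall (k - k') hΛ (sub_ne_zero.2 hne)
        have h2 : |((k - k').1 : ℝ)| / a ≤ |((k - k').2 : ℝ)| / b := by
          have e := hpar k hk k' hk'
          have e' : |(u.1 : ℝ)| * |((k - k').2 : ℝ)| = |(u.2 : ℝ)| * |((k - k').1 : ℝ)| := by
            rw [← abs_mul, ← abs_mul]
            congr 1
            simp only [Prod.fst_sub, Prod.snd_sub]
            push_cast
            exact e
          rw [div_le_div_iff₀ ha hb] at hle ⊢
          have hnn := abs_nonneg ((k - k').2 : ℝ)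
          have h3 := mul_le_mul_of_nonneg_left hle hnn
          have h4 : |(u.2 : ℝ)| * (|((k - k').1 : ℝ)| * b) ≤
              |(u.2 : ℝ)| * (|((k - k').2 : ℝ)| * a) := by
            calc |(u.2 : ℝ)| * (|((k - k').1 : ℝ)| * b)
                = (|(u.2 : ℝ)| * |((k - k').1 : ℝ)|) * b := by ring
              _ = |((k - k').2 : ℝ)| * (|(u.1 : ℝ)| * b) := by rw [← e']; ring
              _ ≤ |((k - k').2 : ℝ)| * (|(u.2 : ℝ)| * a) := h3
              _ = |(u.2 : ℝ)| * (|((k - k').2 : ℝ)| * a) := by ring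
          exact le_of_mul_le_mul_left h4 hu2p
        rw [max_eq_right h2, le_div_iff₀ hb] at h1
        exact h1
      · intro k hk
        exact (hS k (Finset.mem_filter.1 hk).1).2.2
  -- the total
  have hsum : (S.card : ℝ) ≤ (T.card : ℝ) * (1 + 2 / mu) := by
    have h1 : S.card = ∑ x ∈ T, (S.filter (fun k => ((u.1 * k.2 - u.2 * k.1 : ℤ) : ℝ) = x)).card := by
      apply Finset.card_eq_sum_card_fiberwise
      intro k hk
      rw [hT]
      exact Finset.mem_coe.2 (Finset.mem_image_of_mem _ hk)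
    rw [h1, Nat.cast_sum]
    calc ∑ x ∈ T, (((S.filter (fun k => ((u.1 * k.2 - u.2 * k.1 : ℤ) : ℝ) = x)).card : ℕ) : ℝ)
        ≤ ∑ x ∈ T, (1 + 2 / mu) := Finset.sum_le_sum hFc
      _ = (T.card : ℝ) * (1 + 2 / mu) := by rw [Finset.sum_const, nsmul_eq_mul]
  have h2mu : 0 ≤ 2 / mu := by positivity
  have e1 : (T.card : ℝ) * (1 + 2 / mu) ≤ (1 + 4 * mu * (a * b) / V) * (1 + 2 / mu) :=
    mul_le_mul_of_nonneg_right hTc (by linarith)
  have e2 : (1 + 4 * mu * (a * b) / V) * (1 + 2 / mu) =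
      1 + 2 / mu + 4 * mu * (a * b / V) + 8 * (a * b / V) := by
    field_simp
    ring
  have e3 : 2 / mu ≤ 2 / lam := div_le_div_of_nonneg_left (by norm_num) hlam hmul
  have e4 : mu * (a * b / V) ≤ a * b / V := by
    have : 0 ≤ a * b / V := by positivity
    nlinarith
  linarith

end Pool.Agent.SMQ
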