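import Pool.Agent.SMQ.Defs

/-!
# SMQ/Rot: rotation

PROOF of `tri_rot`.  The fields are symmetric under the rotation (`De p (rt y) = De p y`).
PROOF of `alla`.  For `q = (p, y, g) ∈ S` take the witness of `Cn` and the index `i` with `|g_i| / √N_i` minimal;
rotate `q` 0, 1 or 2 times so that this index becomes the first one (`tri_rot`): the rotated tuple satisfies `C1`.
So `S` is the union of three sets which are mapped injectively (`rt` is injective) to sets with `C1`.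
-/

set_option autoImplicit false

namespace Pool.Agent.SMQ

private theorem rot_De (p : ℤ) (y : V3) : De p (rt y) = De p y := by
  unfold De rt
  ring

theorem tri_rot (D G : ℕ) (p : ℤ) (y g : V3) (N : ℕ × ℕ × ℕ) (N4 : ℕ) (u v : V3)
    (h : Tri D G p y g N N4 u v) :
    Tri D G p (rt y) (rt g) (N.2.1, N.2.2, N.1) N4 (rt u) (rt v) where
  hG := h.hG
  hp := h.hp
  hD := by rw [rot_De]; exact h.hD
  sp := by
    have := h.sp
    show (D : ℤ) * p ^ 2 ≤ 4 * (N.2.1 : ℤ) * N.2.2 * N.1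
    linarith [this, mul_comm (N.1 : ℤ) (N.2.1 * N.2.2),
      (by ring : 4 * (N.1 : ℤ) * N.2.1 * N.2.2 = 4 * (N.2.1 : ℤ) * N.2.2 * N.1)]
  s4 := by
    rcases h.s4 with h1 | h1 | h1
    · exact Or.inr (Or.inr h1)
    · exact Or.inl h1
    · exact Or.inr (Or.inl h1)
  t1 := h.t2
  t2 := h.t3
  t3 := h.t1
  lo := by
    intro l hl hlp hld
    rw [rot_De] at hld ⊢
    rcases h.lo l hl hlp hld with h1 | h1 | h1 | h1
    · exact Or.inr (Or.inr (Or.inl ⟨h1.1, h1.2.1, h1.2.2⟩))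
    · exact Or.inl ⟨h1.1, h1.2.2, h1.2.1⟩
    · exact Or.inr (Or.inl ⟨h1.1, h1.2.2, h1.2.1⟩)
    · exact Or.inr (Or.inr (Or.inr ⟨h1.2.1, h1.2.2.1, h1.1, h1.2.2.2⟩))
  ka := by
    intro n h1 h2 h3
    rw [rot_De]
    exact h.ka n h3 h1 h2

private def rot_q (q : ℤ × V3 × V3) : ℤ × V3 × V3 := (q.1, rt q.2.1, rt q.2.2)

private theorem rot_q_inj : Function.Injective rot_q := by
  rintro ⟨p, ⟨a, b, c⟩, ⟨d, e, f⟩⟩ ⟨p', ⟨a', b', c'⟩, ⟨d', e', f'⟩⟩ h
  simp only [rot_q, rt, Prod.mk.injEq] at h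
  obtain ⟨h1, ⟨h2, h3, h4⟩, h5, h6, h7⟩ := h
  subst h1 h2 h3 h4 h5 h6 h7
  rfl

private theorem rot_cases (X G : ℕ) (q : ℤ × V3 × V3) (h : Cn X G q.1 q.2.1 q.2.2) :
    C1 X G q ∨ C1 X G (rot_q q) ∨ C1 X G (rot_q (rot_q q)) := by
  obtain ⟨D, N, N4, u, v, hD, hT⟩ := h
  have hT1 := tri_rot D G q.1 q.2.1 q.2.2 N N4 u v hT
  have hT2 := tri_rot _ _ _ _ _ _ _ _ _ hT1
  set a := |(q.2.2.1 : ℝ)| / √(N.1 : ℝ) with ha
  set b := |(q.2.2.2.1 : ℝ)| / √(N.2.1 : ℝ) with hb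
  set c := |(q.2.2.2.2 : ℝ)| / √(N.2.2 : ℝ) with hc
  rcases le_total a b with h1 | h1
  · rcases le_total a c with h2 | h2
    · left
      exact ⟨D, N, N4, u, v, hD, hT, h1, h2⟩
    · right; right
      exact ⟨D, _, N4, _, _, hD, hT2, h2, h2.trans h1⟩
  · rcases le_total b c with h2 | h2
    · right; left
      exact ⟨D, _, N4, _, _, hD, hT1, h2, h1⟩
    · right; right
      exact ⟨D, _, N4, _, _, hD, hT2, h2.trans h1, h2⟩

theorem alla (X G : ℕ) (hX : 1 ≤ X) (hG : 1 ≤ G) (B : ℝ)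
    (hB : ∀ S : Finset (ℤ × V3 × V3), (∀ q ∈ S, C1 X G q) → (S.card : ℝ) ≤ B)
    (S : Finset (ℤ × V3 × V3)) (hS : ∀ q ∈ S, Cn X G q.1 q.2.1 q.2.2) :
    (S.card : ℝ) ≤ 3 * B := by
  classical
  set S1 := S.filter (fun q => C1 X G q) with hS1
  set S2 := S.filter (fun q => C1 X G (rot_q q)) with hS2
  set S3 := S.filter (fun q => C1 X G (rot_q (rot_q q))) with hS3
  have h1 : (S1.card : ℝ) ≤ B := hB S1 (fun q hq => (Finset.mem_filter.mp hq).2)
  have h2 : (S2.card : ℝ) ≤ B := by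
    have h := hB (S2.image rot_q) (by
      intro q hq
      obtain ⟨r, hr, rfl⟩ := Finset.mem_image.mp hq
      exact (Finset.mem_filter.mp hr).2)
    rwa [Finset.card_image_of_injective _ rot_q_inj] at h
  have h3 : (S3.card : ℝ) ≤ B := by
    have h := hB (S3.image (fun q => rot_q (rot_q q))) (by
      intro q hq
      obtain ⟨r, hr, rfl⟩ := Finset.mem_image.mp hq
      exact (Finset.mem_filter.mp hr).2)
    rwa [Finset.card_image_of_injective _
      (fun x y hxy => rot_q_inj (rot_q_inj hxy))] at h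
  have hu : S ⊆ S1 ∪ (S2 ∪ S3) := by
    intro q hq
    rw [Finset.mem_union, Finset.mem_union]
    rcases rot_cases X G q (hS q hq) with h | h | h
    · exact Or.inl (Finset.mem_filter.mpr ⟨hq, h⟩)
    · exact Or.inr (Or.inl (Finset.mem_filter.mpr ⟨hq, h⟩))
    · exact Or.inr (Or.inr (Finset.mem_filter.mpr ⟨hq, h⟩))
  have hc : S.card ≤ S1.card + (S2.card + S3.card) :=
    (Finset.card_le_card hu).trans ((Finset.card_union_le _ _).trans
      (Nat.add_le_add_left (Finset.card_union_le _ _) _))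
  have hc' : (S.card : ℝ) ≤ S1.card + (S2.card + S3.card) := by exact_mod_cast hc
  linarith

end Pool.Agent.SMQ
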