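import Pool.Agent.SMQ.Sml
import Pool.Agent.SMQ.Rot
import Pool.Agent.FTA.DivB

/-!
# SMQ/Cnt: the counting theorem

PROOF.  Let `δ = ε / 100`.  The divisor bound (`Pool.Agent.FTA.divisor_bound`, copy it or import
`Pool.Agent.FTA.DivB`) gives `c` with `τ(n) ≤ c n ^ δ` for `n ≥ 1`; so `T = max 1 (c (10 ^ 4 X ^ 5) ^ δ) ≤ C X ^ (5 δ)`.
`L = 1 + log (10 ^ 4 X ^ 5) ≤ C X ^ δ`, `K = log2 (10 ^ 4 X ^ 5) + 1 ≤ C X ^ δ`.  By `smal` and `alla`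
`card S ≤ 3 K ^ 6 * 32000000 T ^ 6 L ^ 3 * 17000 X / G ≤ C X ^ (1 + 39 δ) / G`.
-/

set_option autoImplicit false

namespace Pool.Agent.SMQ

theorem cnt (ε : ℝ) (hε : 0 < ε) : ∃ C : ℝ, 0 < C ∧ ∀ X G : ℕ, 1 ≤ X → 1 ≤ G →
    ∀ S : Finset (ℤ × V3 × V3), (∀ q ∈ S, Cn X G q.1 q.2.1 q.2.2) →
      (S.card : ℝ) ≤ C * (X : ℝ) ^ (1 + ε) / G := by
  obtain ⟨δ, hδ⟩ : ∃ δ : ℝ, δ = ε / 100 := ⟨_, rfl⟩
  have hδ0 : 0 < δ := by rw [hδ]; positivity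
  obtain ⟨c, hc, hdiv⟩ := Pool.Agent.FTA.divisor_bound hδ0
  obtain ⟨c1, hc1⟩ : ∃ c1 : ℝ, c1 = 1 + c := ⟨_, rfl⟩
  obtain ⟨c2, hc2⟩ : ∃ c2 : ℝ, c2 = 1 + 1 / δ := ⟨_, rfl⟩
  obtain ⟨c3, hc3⟩ : ∃ c3 : ℝ, c3 = 1 + 2 / δ := ⟨_, rfl⟩
  obtain ⟨c4, hc4⟩ : ∃ c4 : ℝ, c4 = (10000 : ℝ) ^ (15 * δ) := ⟨_, rfl⟩
  have hc1p : 0 < c1 := by rw [hc1]; positivity
  have hc2p : 0 < c2 := by rw [hc2]; positivity
  have hc3p : 0 < c3 := by rw [hc3]; positivity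
  have hc4p : 0 < c4 := by rw [hc4]; positivity
  refine ⟨3 * (c3 ^ 6 * (32000000 * c1 ^ 6 * c2 ^ 3 * 17000)) * c4, by positivity, ?_⟩
  intro X G hX hG S hS
  have hX1 : (1 : ℝ) ≤ X := by exact_mod_cast hX
  have hX0 : (0 : ℝ) < X := by linarith
  have hG1 : (1 : ℝ) ≤ G := by exact_mod_cast hG
  have hG0 : (0 : ℝ) < G := by linarith
  obtain ⟨n0, hn0⟩ : ∃ n0 : ℕ, n0 = 10 ^ 4 * X ^ 5 := ⟨_, rfl⟩
  obtain ⟨Z, hZ⟩ : ∃ Z : ℝ, Z = (n0 : ℝ) := ⟨_, rfl⟩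
  have hn01 : 1 ≤ n0 := by
    rw [hn0]
    have : 1 ≤ X ^ 5 := Nat.one_le_pow _ _ (by omega)
    omega
  have hZ1 : 1 ≤ Z := by rw [hZ]; exact_mod_cast hn01
  have hZ0 : 0 < Z := by linarith
  have hZX : Z = 10000 * (X : ℝ) ^ 5 := by
    rw [hZ, hn0]
    push_cast
    norm_num
  obtain ⟨w, hw⟩ : ∃ w : ℝ, w = Z ^ δ := ⟨_, rfl⟩
  have hw1 : 1 ≤ w := by rw [hw]; exact Real.one_le_rpow hZ1 hδ0.le
  have hw0 : 0 < w := by linarith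
  have hlogZ : Real.log Z ≤ w / δ := by
    rw [hw]
    exact Real.log_le_rpow_div hZ0.le hδ0
  have hlogZ0 : 0 ≤ Real.log Z := Real.log_nonneg hZ1
  have hlog2 : (1 : ℝ) / 2 ≤ Real.log 2 := by
    have := Real.log_two_gt_d9
    linarith
  -- the three bounds
  have hT : ∀ n : ℕ, 1 ≤ n → n ≤ 10 ^ 4 * X ^ 5 → (n.divisors.card : ℝ) ≤ c1 * w := by
    intro n hn1 hn2
    have h1 := hdiv n (by omega)
    have h2 : (n : ℝ) ^ δ ≤ w := by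
      rw [hw]
      apply Real.rpow_le_rpow (by positivity) _ hδ0.le
      rw [hZ]
      exact_mod_cast (hn0 ▸ hn2)
    calc (n.divisors.card : ℝ) ≤ c * (n : ℝ) ^ δ := h1
      _ ≤ c * w := mul_le_mul_of_nonneg_left h2 hc.le
      _ ≤ c1 * w := by
        rw [hc1]
        nlinarith
  have hT1 : 1 ≤ c1 * w := by
    have : 1 ≤ c1 := by rw [hc1]; linarith
    nlinarith
  have hL : 1 + Real.log ((10 ^ 4 * X ^ 5 : ℕ) : ℝ) ≤ c2 * w := by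
    rw [← hn0, ← hZ, hc2, add_mul, one_mul, one_div, inv_mul_eq_div]
    linarith
  have hK : ((Nat.log 2 (10 ^ 4 * X ^ 5) + 1 : ℕ) : ℝ) ≤ c3 * w := by
    rw [← hn0]
    push_cast
    have h1 : ((Nat.log 2 n0 : ℕ) : ℝ) ≤ Real.logb 2 n0 := by
      have := Real.natLog_le_logb n0 2
      exact_mod_cast this
    have h2 : Real.logb 2 (n0 : ℝ) ≤ 2 * Real.log Z := by
      rw [Real.logb, ← hZ, div_le_iff₀ (by linarith)]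
      nlinarith
    have h3 : 2 / δ * w = 2 * (w / δ) := by ring
    rw [hc3, add_mul, one_mul, h3]
    linarith
  have hK0 : (0 : ℝ) ≤ ((Nat.log 2 (10 ^ 4 * X ^ 5) + 1 : ℕ) : ℝ) := by positivity
  have hall := alla X G hX hG _ (fun S' hS' => smal X G hX hG (c1 * w) (c2 * w) hT hT1 hL S' hS')
    S hS
  have hK6 : ((Nat.log 2 (10 ^ 4 * X ^ 5) + 1 : ℕ) : ℝ) ^ 6 ≤ (c3 * w) ^ 6 :=
    pow_le_pow_left₀ hK0 hK 6
  have hrest0 : (0 : ℝ) ≤ 32000000 * (c1 * w) ^ 6 * (c2 * w) ^ 3 * (17000 * ((X : ℝ) / G)) := by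
    positivity
  have h5 : (S.card : ℝ) ≤ 3 * ((c3 * w) ^ 6 *
      (32000000 * (c1 * w) ^ 6 * (c2 * w) ^ 3 * (17000 * ((X : ℝ) / G)))) := by
    refine hall.trans ?_
    have := mul_le_mul_of_nonneg_right hK6 hrest0
    linarith
  have h6 : w ^ 15 ≤ c4 * (X : ℝ) ^ ε := by
    have e1 : w ^ 15 = Z ^ (15 * δ) := by
      rw [hw, ← Real.rpow_natCast, ← Real.rpow_mul hZ0.le]
      congr 1
      push_cast
      ring
    have e2 : Z ^ (15 * δ) = c4 * (X : ℝ) ^ (5 * (15 * δ)) := by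
      rw [hZX, Real.mul_rpow (by norm_num) (by positivity), hc4, Real.rpow_mul hX0.le]
      norm_num
    rw [e1, e2]
    apply mul_le_mul_of_nonneg_left _ hc4p.le
    apply Real.rpow_le_rpow_of_exponent_le hX1
    rw [hδ]
    linarith
  have h7 : (X : ℝ) ^ (1 + ε) = X * (X : ℝ) ^ ε := by
    rw [Real.rpow_add hX0, Real.rpow_one]
  calc (S.card : ℝ) ≤ 3 * ((c3 * w) ^ 6 *
      (32000000 * (c1 * w) ^ 6 * (c2 * w) ^ 3 * (17000 * ((X : ℝ) / G)))) := h5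
    _ = 3 * (c3 ^ 6 * (32000000 * c1 ^ 6 * c2 ^ 3 * 17000)) * (w ^ 15) * ((X : ℝ) / G) := by ring
    _ ≤ 3 * (c3 ^ 6 * (32000000 * c1 ^ 6 * c2 ^ 3 * 17000)) * (c4 * (X : ℝ) ^ ε) *
        ((X : ℝ) / G) := by
        apply mul_le_mul_of_nonneg_right _ (by positivity)
        exact mul_le_mul_of_nonneg_left h6 (by positivity)
    _ = 3 * (c3 ^ 6 * (32000000 * c1 ^ 6 * c2 ^ 3 * 17000)) * c4 * (X : ℝ) ^ (1 + ε) / G := by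
        rw [h7]
        ring

end Pool.Agent.SMQ
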