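import Pool.Agent.SMQ.Defs

/-!
# SMQ/BxA: sizes in a box

PROOFS: elementary inequalities.  With `D < 2 d`, `d ≤ D`, `n_i ≤ N_i < 2 n_i`:
`bg1`: `d g1 ^ 2 ≤ D g1 ^ 2 ≤ 4 N1 ^ 2 N2 N3 ≤ 64 n1 ^ 2 n2 n3`.
`bg3`: `d a3 ^ 2 ≤ 64 n3 ^ 2 n1 n2` (field `sg` of `t3`).
`bp`: `d p ^ 2 ≤ 32 n1 n2 n3`.
`by1`: `d y_i ^ 2 ≤ 32 n_i ^ 3`.
`bDe`: `|Δ| ≤ |y1 y2 y3| + |p| ^ 3`, and both terms are at most `s ^ 3` where `s = √(32 n1 n2 n3 / d)`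
(`(y1 y2 y3) ^ 2 ≤ 32 ^ 3 (n1 n2 n3) ^ 3 / d ^ 3 = s ^ 6`).
`bnG`: `(G n_i) ^ 2 ≤ (G N_i) ^ 2 ≤ D < 2 d`.
-/

set_option autoImplicit false

namespace Pool.Agent.SMQ

private theorem BxA_key {d D x A B : ℝ} (hd : 1 ≤ d) (hD : d ≤ D) (h : D * x ^ 2 ≤ A) (hAB : A ≤ B) :
    x ^ 2 ≤ B / d := by
  rw [le_div_iff₀ (by linarith)]
  have h1 : d * x ^ 2 ≤ D * x ^ 2 := mul_le_mul_of_nonneg_right hD (sq_nonneg x)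
  linarith

private theorem BxA_sqrt {c X : ℝ} (hc : 0 ≤ c) : c * √X = √(c ^ 2 * X) := by
  rw [Real.sqrt_mul (by positivity), Real.sqrt_sq hc]

private theorem BxA_gs {d D n1 n2 n3 N1 N2 N3 : ℕ} {x : ℤ} (d0 : 1 ≤ d) (d1 : d ≤ D)
    (h1 : N1 < 2 * n1) (h2 : N2 < 2 * n2) (h3 : N3 < 2 * n3)
    (h : (D : ℤ) * x ^ 2 ≤ 4 * (N1 : ℤ) ^ 2 * N2 * N3) :
    |(x : ℝ)| ≤ 8 * n1 * √((n2 : ℝ) * n3 / d) := by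
  have hd : (1 : ℝ) ≤ d := by exact_mod_cast d0
  have hD : (d : ℝ) ≤ D := by exact_mod_cast d1
  have e1 : (N1 : ℝ) ≤ 2 * n1 := by exact_mod_cast h1.le
  have e2 : (N2 : ℝ) ≤ 2 * n2 := by exact_mod_cast h2.le
  have e3 : (N3 : ℝ) ≤ 2 * n3 := by exact_mod_cast h3.le
  have h' : (D : ℝ) * (x : ℝ) ^ 2 ≤ 4 * (N1 : ℝ) ^ 2 * N2 * N3 := by exact_mod_cast h
  have hAB : 4 * (N1 : ℝ) ^ 2 * N2 * N3 ≤ 4 * (2 * n1 : ℝ) ^ 2 * (2 * n2) * (2 * n3) := by gcongr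
  have k := BxA_key hd hD h' hAB
  rw [BxA_sqrt (by positivity)]
  apply Real.abs_le_sqrt
  refine k.trans (le_of_eq ?_)
  ring

private theorem BxA_ys {d D n N : ℕ} {x : ℤ} (d0 : 1 ≤ d) (d1 : d ≤ D)
    (h1 : N < 2 * n) (h : (D : ℤ) * x ^ 2 ≤ 4 * (N : ℤ) ^ 3) :
    (x : ℝ) ^ 2 ≤ 32 * (n : ℝ) ^ 3 / d := by
  have hd : (1 : ℝ) ≤ d := by exact_mod_cast d0
  have hD : (d : ℝ) ≤ D := by exact_mod_cast d1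
  have e1 : (N : ℝ) ≤ 2 * n := by exact_mod_cast h1.le
  have h' : (D : ℝ) * (x : ℝ) ^ 2 ≤ 4 * (N : ℝ) ^ 3 := by exact_mod_cast h
  have hAB : 4 * (N : ℝ) ^ 3 ≤ 32 * (n : ℝ) ^ 3 := by
    calc 4 * (N : ℝ) ^ 3 ≤ 4 * (2 * n : ℝ) ^ 3 := by gcongr
      _ = 32 * (n : ℝ) ^ 3 := by ring
  exact BxA_key hd hD h' hAB

variable (d n1 n2 n3 a2 a3 D G : ℕ) (p : ℤ) (y g : V3) (N : ℕ × ℕ × ℕ) (N4 : ℕ) (u v : V3)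

theorem bg1 (h : Tri D G p y g N N4 u v) (hb : Bo d n1 n2 n3 a2 a3 D N g) :
    |(g.1 : ℝ)| ≤ 8 * n1 * √((n2 : ℝ) * n3 / d) :=
  BxA_gs hb.d0 hb.d1 hb.n12 hb.n22 hb.n32 h.t1.sg

theorem bg3 (h : Tri D G p y g N N4 u v) (hb : Bo d n1 n2 n3 a2 a3 D N g) :
    (a3 : ℝ) ≤ 8 * n3 * √((n1 : ℝ) * n2 / d) := by
  have h1 : (a3 : ℝ) ≤ |(g.2.2 : ℝ)| := by exact_mod_cast hb.a31
  exact h1.trans (BxA_gs hb.d0 hb.d1 hb.n32 hb.n12 hb.n22 h.t3.sg)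

theorem bp (h : Tri D G p y g N N4 u v) (hb : Bo d n1 n2 n3 a2 a3 D N g) :
    |(p : ℝ)| ≤ √(32 * (n1 : ℝ) * n2 * n3 / d) := by
  have hd : (1 : ℝ) ≤ d := by exact_mod_cast hb.d0
  have hD : (d : ℝ) ≤ D := by exact_mod_cast hb.d1
  have e1 : (N.1 : ℝ) ≤ 2 * n1 := by exact_mod_cast hb.n12.le
  have e2 : (N.2.1 : ℝ) ≤ 2 * n2 := by exact_mod_cast hb.n22.le
  have e3 : (N.2.2 : ℝ) ≤ 2 * n3 := by exact_mod_cast hb.n32.le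
  have h' : (D : ℝ) * (p : ℝ) ^ 2 ≤ 4 * (N.1 : ℝ) * N.2.1 * N.2.2 := by exact_mod_cast h.sp
  have hAB : 4 * (N.1 : ℝ) * N.2.1 * N.2.2 ≤ 4 * (2 * n1 : ℝ) * (2 * n2) * (2 * n3) := by gcongr
  have k := BxA_key hd hD h' hAB
  apply Real.abs_le_sqrt
  refine k.trans (le_of_eq ?_)
  ring

theorem bDe (h : Tri D G p y g N N4 u v) (hb : Bo d n1 n2 n3 a2 a3 D N g) :
    |(De p y : ℝ)| ≤ 2 * √(32 * (n1 : ℝ) * n2 * n3 / d) ^ 3 := by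
  have hd : (1 : ℝ) ≤ d := by exact_mod_cast hb.d0
  have k1 := BxA_ys hb.d0 hb.d1 hb.n12 h.t1.sy
  have k2 := BxA_ys hb.d0 hb.d1 hb.n22 h.t2.sy
  have k3 := BxA_ys hb.d0 hb.d1 hb.n32 h.t3.sy
  have k4 := bp d n1 n2 n3 a2 a3 D G p y g N N4 u v h hb
  set s : ℝ := √(32 * (n1 : ℝ) * n2 * n3 / d) with hs
  have hs0 : 0 ≤ s := Real.sqrt_nonneg _
  have hs2 : s ^ 2 = 32 * (n1 : ℝ) * n2 * n3 / d := Real.sq_sqrt (by positivity)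
  have hy : ((y.1 : ℝ) * y.2.1 * y.2.2) ^ 2 ≤ (s ^ 3) ^ 2 := by
    have e1 : ((y.1 : ℝ) * y.2.1 * y.2.2) ^ 2 =
        (y.1 : ℝ) ^ 2 * (y.2.1 : ℝ) ^ 2 * (y.2.2 : ℝ) ^ 2 := by ring
    have e2 : (s ^ 3) ^ 2 = (32 * (n1 : ℝ) ^ 3 / d) * (32 * (n2 : ℝ) ^ 3 / d) *
        (32 * (n3 : ℝ) ^ 3 / d) := by
      have e3 : (s ^ 3) ^ 2 = (s ^ 2) ^ 3 := by ring
      rw [e3, hs2]
      ring
    rw [e1, e2]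
    gcongr
  have hy1 : |(y.1 : ℝ) * y.2.1 * y.2.2| ≤ s ^ 3 := abs_le_of_sq_le_sq hy (by positivity)
  have hp : |(p : ℝ) ^ 3| ≤ s ^ 3 := by
    rw [abs_pow]
    gcongr
  have e : (De p y : ℝ) = (y.1 : ℝ) * y.2.1 * y.2.2 - (p : ℝ) ^ 3 := by
    unfold De
    push_cast
    ring
  rw [e]
  have h4 := abs_sub ((y.1 : ℝ) * y.2.1 * y.2.2) ((p : ℝ) ^ 3)
  linarith

theorem bnG (h : Tri D G p y g N N4 u v) (hb : Bo d n1 n2 n3 a2 a3 D N g) :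
    (G * n1) ^ 2 < 2 * d ∧ (G * n2) ^ 2 < 2 * d ∧ (G * n3) ^ 2 < 2 * d := by
  have k : ∀ n M : ℕ, n ≤ M → (G * M) ^ 2 ≤ D → (G * n) ^ 2 < 2 * d := by
    intro n M h1 h2
    exact ((Nat.pow_le_pow_left (Nat.mul_le_mul_left G h1) 2).trans h2).trans_lt hb.d2
  exact ⟨k _ _ hb.n11 h.t1.sN, k _ _ hb.n21 h.t2.sN, k _ _ hb.n31 h.t3.sN⟩

end Pool.Agent.SMQ
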