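import Pool.Agent.SMQ.Defs

/-!
# SMQ/Wsu: sums of the weights

PROOF of `ws`.  `W2 p (± n) = ∑_{M ∣ p} ∑_{f ∣ n, M f ^ 2 ∣ n} M f ≤ ∑_{M ∣ p} ∑_{1 ≤ f ≤ Z} [M f ^ 2 ∣ n] M f` for
`1 ≤ n ≤ Z`.  Exchange the sums: for fixed `M, f ≥ 1`, `∑_{n ≤ Z, M f ^ 2 ∣ n} M f / n = (1 / f) ∑_{j ≤ Z / (M f ^ 2)} 1 / j
≤ (1 / f) (1 + log Z)`, and `∑_{f ≤ Z} 1 / f ≤ 1 + log Z` (`harmonic_le_one_add_log` or the like).  There are
`card p.natAbs.divisors` values of `M`.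
-/

set_option autoImplicit false

namespace Pool.Agent.SMQ

private theorem Wsu_harm (Z : ℕ) :
    ∑ j ∈ Finset.Icc 1 Z, 1 / (j : ℝ) ≤ 1 + Real.log Z := by
  have h := harmonic_le_one_add_log Z
  rw [harmonic_eq_sum_Icc] at h
  push_cast at h
  simpa [one_div] using h

private theorem Wsu_inner (Z a : ℕ) (ha : 1 ≤ a) :
    ∑ n ∈ (Finset.Icc 1 Z).filter (fun n => a ∣ n), 1 / (n : ℝ) ≤
      1 / (a : ℝ) * (1 + Real.log Z) := by
  have ha0 : (0 : ℝ) < a := by exact_mod_cast ha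
  have h1 : ∑ n ∈ (Finset.Icc 1 Z).filter (fun n => a ∣ n), 1 / (n : ℝ) =
      1 / (a : ℝ) * ∑ n ∈ (Finset.Icc 1 Z).filter (fun n => a ∣ n), 1 / ((n / a : ℕ) : ℝ) := by
    rw [Finset.mul_sum]
    refine Finset.sum_congr rfl fun n hn => ?_
    obtain ⟨h2, k, hk⟩ := Finset.mem_filter.1 hn
    rw [hk, Nat.mul_div_cancel_left k (by omega)]
    push_cast
    rw [one_div_mul_one_div]
  have hinj : Set.InjOn (fun n : ℕ => n / a)
      (((Finset.Icc 1 Z).filter (fun n => a ∣ n) : Finset ℕ) : Set ℕ) := by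
    intro n hn m hm hnm
    obtain ⟨-, h2⟩ := Finset.mem_filter.1 (Finset.mem_coe.1 hn)
    obtain ⟨-, h3⟩ := Finset.mem_filter.1 (Finset.mem_coe.1 hm)
    have h4 : n / a = m / a := hnm
    rw [← Nat.div_mul_cancel h2, ← Nat.div_mul_cancel h3, h4]
  have h2 : ∑ n ∈ (Finset.Icc 1 Z).filter (fun n => a ∣ n), 1 / ((n / a : ℕ) : ℝ) =
      ∑ j ∈ ((Finset.Icc 1 Z).filter (fun n => a ∣ n)).image (fun n => n / a), 1 / (j : ℝ) := by
    rw [Finset.sum_image hinj]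
  have h3 : ∑ j ∈ ((Finset.Icc 1 Z).filter (fun n => a ∣ n)).image (fun n => n / a),
      1 / (j : ℝ) ≤ ∑ j ∈ Finset.Icc 1 Z, 1 / (j : ℝ) := by
    refine Finset.sum_le_sum_of_subset_of_nonneg ?_ (fun _ _ _ => by positivity)
    intro j hj
    obtain ⟨n, hn, rfl⟩ := Finset.mem_image.1 hj
    obtain ⟨h4, k, hk⟩ := Finset.mem_filter.1 hn
    rw [Finset.mem_Icc] at h4 ⊢
    rw [hk, Nat.mul_div_cancel_left k (by omega)]
    constructor
    · rcases Nat.eq_zero_or_pos k with h5 | h5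
      · rw [h5, mul_zero] at hk
        omega
      · exact h5
    · calc k ≤ a * k := Nat.le_mul_of_pos_left k ha
        _ = n := hk.symm
        _ ≤ Z := h4.2
  rw [h1, h2]
  exact mul_le_mul_of_nonneg_left (h3.trans (Wsu_harm Z)) (by positivity)

private theorem Wsu_le (p : ℤ) (Z n : ℕ) (h1 : 1 ≤ n) (hn : n ≤ Z) :
    W2 p (n : ℤ) ≤ ∑ M ∈ p.natAbs.divisors, ∑ f ∈ Finset.Icc 1 Z,
      if M * f ^ 2 ∣ n then (M : ℝ) * f else 0 := by
  unfold W2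
  rw [Int.natAbs_natCast]
  refine Finset.sum_le_sum fun M _ => ?_
  refine Finset.sum_le_sum_of_subset_of_nonneg ?_ (fun f _ _ => by split_ifs <;> positivity)
  intro f hf
  have h2 := Nat.dvd_of_mem_divisors hf
  rw [Finset.mem_Icc]
  exact ⟨Nat.pos_of_mem_divisors hf, (Nat.le_of_dvd (by omega) h2).trans hn⟩

theorem ws (p : ℤ) (hp : p ≠ 0) (Z : ℕ) (hZ : 1 ≤ Z) :
    ∑ n ∈ Finset.Icc 1 Z, (W2 p (n : ℤ) / n + W2 p (-(n : ℤ)) / n) ≤
      2 * (p.natAbs.divisors.card : ℝ) * (1 + Real.log Z) ^ 2 := by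
  have hL : 0 ≤ 1 + Real.log Z := by
    have := Real.log_nonneg (show (1 : ℝ) ≤ Z by exact_mod_cast hZ)
    linarith
  have hneg : ∀ n : ℤ, W2 p (-n) = W2 p n := by
    intro n
    unfold W2
    rw [Int.natAbs_neg]
  have h1 : ∑ n ∈ Finset.Icc 1 Z, (W2 p (n : ℤ) / n + W2 p (-(n : ℤ)) / n) =
      2 * ∑ n ∈ Finset.Icc 1 Z, W2 p (n : ℤ) / n := by
    rw [Finset.mul_sum]
    refine Finset.sum_congr rfl fun n _ => ?_
    rw [hneg]
    ring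
  have h2 : ∑ n ∈ Finset.Icc 1 Z, W2 p (n : ℤ) / n ≤
      ∑ n ∈ Finset.Icc 1 Z, ∑ M ∈ p.natAbs.divisors, ∑ f ∈ Finset.Icc 1 Z,
        (if M * f ^ 2 ∣ n then (M : ℝ) * f / n else 0) := by
    refine Finset.sum_le_sum fun n hn => ?_
    rw [Finset.mem_Icc] at hn
    have h3 := Wsu_le p Z n hn.1 hn.2
    have hn0 : (0 : ℝ) < n := by exact_mod_cast hn.1
    rw [div_le_iff₀ hn0, Finset.sum_mul]
    refine h3.trans (Finset.sum_le_sum fun M _ => ?_)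
    rw [Finset.sum_mul]
    refine Finset.sum_le_sum fun f _ => ?_
    split_ifs
    · rw [div_mul_cancel₀ _ hn0.ne']
    · rw [zero_mul]
  have h4 : ∑ n ∈ Finset.Icc 1 Z, ∑ M ∈ p.natAbs.divisors, ∑ f ∈ Finset.Icc 1 Z,
        (if M * f ^ 2 ∣ n then (M : ℝ) * f / n else 0) =
      ∑ M ∈ p.natAbs.divisors, ∑ f ∈ Finset.Icc 1 Z, ∑ n ∈ Finset.Icc 1 Z,
        (if M * f ^ 2 ∣ n then (M : ℝ) * f / n else 0) := by
    rw [Finset.sum_comm]
    refine Finset.sum_congr rfl fun M _ => ?_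
    rw [Finset.sum_comm]
  have h5 : ∀ M ∈ p.natAbs.divisors, ∀ f ∈ Finset.Icc 1 Z, ∑ n ∈ Finset.Icc 1 Z,
        (if M * f ^ 2 ∣ n then (M : ℝ) * f / n else 0) ≤ 1 / (f : ℝ) * (1 + Real.log Z) := by
    intro M hM f hf
    rw [Finset.mem_Icc] at hf
    have hM1 : 1 ≤ M := Nat.pos_of_mem_divisors hM
    have hM0 : (0 : ℝ) < M := by exact_mod_cast hM1
    have hf0 : (0 : ℝ) < f := by exact_mod_cast hf.1
    have ha : 1 ≤ M * f ^ 2 := Nat.one_le_iff_ne_zero.2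
      (Nat.mul_ne_zero (by omega) (pow_ne_zero 2 (by omega)))
    have h6 := Wsu_inner Z (M * f ^ 2) ha
    rw [← Finset.sum_filter]
    have h7 : ∑ n ∈ (Finset.Icc 1 Z).filter (fun n => M * f ^ 2 ∣ n), (M : ℝ) * f / n =
        (M : ℝ) * f * ∑ n ∈ (Finset.Icc 1 Z).filter (fun n => M * f ^ 2 ∣ n), 1 / (n : ℝ) := by
      rw [Finset.mul_sum]
      refine Finset.sum_congr rfl fun n _ => ?_
      rw [mul_one_div]
    rw [h7]
    calc (M : ℝ) * f * ∑ n ∈ (Finset.Icc 1 Z).filter (fun n => M * f ^ 2 ∣ n), 1 / (n : ℝ)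
        ≤ (M : ℝ) * f * (1 / ((M * f ^ 2 : ℕ) : ℝ) * (1 + Real.log Z)) :=
          mul_le_mul_of_nonneg_left h6 (by positivity)
      _ = 1 / (f : ℝ) * (1 + Real.log Z) := by
          push_cast
          field_simp
  have h6 : ∑ M ∈ p.natAbs.divisors, ∑ f ∈ Finset.Icc 1 Z, ∑ n ∈ Finset.Icc 1 Z,
        (if M * f ^ 2 ∣ n then (M : ℝ) * f / n else 0) ≤
      ∑ M ∈ p.natAbs.divisors, (1 + Real.log Z) ^ 2 := by
    refine Finset.sum_le_sum fun M hM => ?_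
    calc _ ≤ ∑ f ∈ Finset.Icc 1 Z, 1 / (f : ℝ) * (1 + Real.log Z) :=
          Finset.sum_le_sum fun f hf => h5 M hM f hf
      _ = (∑ f ∈ Finset.Icc 1 Z, 1 / (f : ℝ)) * (1 + Real.log Z) := by rw [Finset.sum_mul]
      _ ≤ (1 + Real.log Z) * (1 + Real.log Z) := mul_le_mul_of_nonneg_right (Wsu_harm Z) hL
      _ = (1 + Real.log Z) ^ 2 := by ring
  rw [Finset.sum_const, nsmul_eq_mul] at h6
  rw [h1]
  rw [h4] at h2
  linarith [h2.trans h6]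

end Pool.Agent.SMQ
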