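import Pool.Agent.SMQ.Defs

/-!
# SMQ/Ycd: the number of `y` with given product

PROOF of `ycard`.  `y.1` is a divisor of `n`: at most `2 τ` values (`± d`), `y.2.1` too, and `y.2.2` is determined
(`y.1 * y.2.1 ≠ 0`).  The map `y ↦ (y.1, y.2.1)` is injective into `A ×ˢ A`, `A = ` the set of the
integers `± d`, `d ∈ n.natAbs.divisors`.
-/

set_option autoImplicit false

namespace Pool.Agent.SMQ

private theorem ycard_mem (n a : ℤ) (hn : n ≠ 0) (h : a ∣ n) :
    a ∈ n.natAbs.divisors.image (fun d : ℕ => (d : ℤ)) ∪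
      n.natAbs.divisors.image (fun d : ℕ => -(d : ℤ)) := by
  have hd : a.natAbs ∈ n.natAbs.divisors := by
    rw [Nat.mem_divisors]
    exact ⟨Int.natAbs_dvd_natAbs.mpr h, by simpa using hn⟩
  rw [Finset.mem_union, Finset.mem_image, Finset.mem_image]
  rcases Int.natAbs_eq a with h1 | h1
  · left
    exact ⟨a.natAbs, hd, h1.symm⟩
  · right
    exact ⟨a.natAbs, hd, h1.symm⟩

theorem ycard (n : ℤ) (hn : n ≠ 0) (S : Finset V3) (hS : ∀ y ∈ S, y.1 * y.2.1 * y.2.2 = n) :
    S.card ≤ 4 * n.natAbs.divisors.card ^ 2 := by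
  classical
  set A : Finset ℤ := n.natAbs.divisors.image (fun d : ℕ => (d : ℤ)) ∪
      n.natAbs.divisors.image (fun d : ℕ => -(d : ℤ)) with hA
  have hAc : A.card ≤ 2 * n.natAbs.divisors.card := by
    refine (Finset.card_union_le _ _).trans ?_
    have h1 := Finset.card_image_le (s := n.natAbs.divisors) (f := fun d : ℕ => (d : ℤ))
    have h2 := Finset.card_image_le (s := n.natAbs.divisors) (f := fun d : ℕ => -(d : ℤ))
    omega
  have h1 : S.card ≤ (A ×ˢ A).card := by
    apply Finset.card_le_card_of_injOn (fun y : V3 => (y.1, y.2.1))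
    · intro y hy
      have h := hS y (Finset.mem_coe.mp hy)
      have ha : y.1 ∣ n := ⟨y.2.1 * y.2.2, by rw [← h]; ring⟩
      have hb : y.2.1 ∣ n := ⟨y.1 * y.2.2, by rw [← h]; ring⟩
      exact Finset.mem_coe.mpr (Finset.mem_product.mpr
        ⟨ycard_mem n y.1 hn ha, ycard_mem n y.2.1 hn hb⟩)
    · intro y hy z hz hyz
      have h := hS y (Finset.mem_coe.mp hy)
      have h' := hS z (Finset.mem_coe.mp hz)
      obtain ⟨e1, e2⟩ := Prod.mk.inj hyz
      have h0 : y.1 * y.2.1 ≠ 0 := by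
        intro h0
        apply hn
        rw [← h, h0, zero_mul]
      have e3 : y.2.2 = z.2.2 := by
        apply mul_left_cancel₀ h0
        rw [h, e1, e2, h']
      exact Prod.ext e1 (Prod.ext e2 e3)
  rw [Finset.card_product] at h1
  calc S.card ≤ A.card * A.card := h1
    _ ≤ (2 * n.natAbs.divisors.card) * (2 * n.natAbs.divisors.card) := Nat.mul_le_mul hAc hAc
    _ = 4 * n.natAbs.divisors.card ^ 2 := by ring

end Pool.Agent.SMQ
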