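import Pool.Agent.SMQ.Gct
import Pool.Agent.SMQ.Wsu
import Pool.Agent.SMQ.Ycd
import Pool.Agent.SMQ.BxA

/-!
# SMQ/BoA: the number of tuples in a box

Notation: `U = n1 n2 n3`, `P0 = √(32 U / d)`, `nm = min n1 (min n2 n3)`.

PROOF of `boxa`.  Let `P = ⌊P0⌋₊`, `Z = ⌊2 P0 ^ 3⌋₊`.  For every `q = (p, y, g) ∈ S`: `1 ≤ |p| ≤ P` (`bp`),
`1 ≤ |Δ| ≤ Z` (`bDe`).  If `S` is empty the bound is clear, so let `P, Z ≥ 1`.  For fixed `(p, y)` the number of `g` is at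
most `T ^ 3 Bd (W2 p Δ)` by `gct`, which depends only on `(p, Δ)`; for fixed `(p, Δ)` the number of `y` is at most
`4 T ^ 2` by `ycard` (`y1 y2 y3 = p ^ 3 + Δ ≠ 0`, its absolute value is at most `Z0`).  So
`card S ≤ ∑_{1 ≤ |p| ≤ P} ∑_{1 ≤ |n| ≤ Z} 4 T ^ 5 Bd'(p, n)`, where `Bd'` is `Bd` with `Δ` replaced by `n`.
(a) `∑ ∑ 1 = 4 P Z`.
(b) `∑_p ∑_n W2 p n / |n| ≤ ∑_p 2 T L ^ 2 ≤ 4 P T L ^ 2` (`ws`; `1 + log Z ≤ L`).
(c) `∑_p ∑_n W2 p n / (|p| |n|) ≤ 2 T L ^ 2 ∑_{1 ≤ |p| ≤ P} 1 / |p| ≤ 4 T L ^ 3`.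
So `card S ≤ 4 T ^ 5 * 2000000 * (4 P Z + 4 P T L ^ 2 B0 / √nm + 4 T L ^ 3 B0)`
`≤ 32000000 T ^ 6 L ^ 3 (P Z + P B0 / √nm + B0)` and `P ≤ P0`, `Z ≤ 2 P0 ^ 3`.
-/

set_option autoImplicit false

namespace Pool.Agent.SMQ

private def BoA_I (P : ℕ) : Finset ℤ :=
  (Finset.Icc 1 P).image (fun k : ℕ => (k : ℤ)) ∪ (Finset.Icc 1 P).image (fun k : ℕ => -(k : ℤ))

private lemma BoA_mem {P : ℕ} {x : ℤ} : x ∈ BoA_I P ↔ 1 ≤ x.natAbs ∧ x.natAbs ≤ P := by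
  unfold BoA_I
  simp only [Finset.mem_union, Finset.mem_image, Finset.mem_Icc]
  constructor
  · rintro (⟨k, hk, rfl⟩ | ⟨k, hk, rfl⟩) <;> omega
  · intro h
    rcases le_total 0 x with g | g
    · exact Or.inl ⟨x.natAbs, h, by omega⟩
    · exact Or.inr ⟨x.natAbs, h, by omega⟩

private lemma BoA_sum (P : ℕ) (F : ℤ → ℝ) :
    ∑ x ∈ BoA_I P, F x = ∑ k ∈ Finset.Icc 1 P, (F k + F (-(k : ℤ))) := by
  unfold BoA_I
  rw [Finset.sum_union, Finset.sum_image, Finset.sum_image, Finset.sum_add_distrib]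
  · intro a _ b _ h
    simpa using h
  · intro a _ b _ h
    simpa using h
  · rw [Finset.disjoint_left]
    intro x h1 h2
    simp only [Finset.mem_image, Finset.mem_Icc] at h1 h2
    obtain ⟨k, hk, rfl⟩ := h1
    obtain ⟨l, hl, e⟩ := h2
    omega

private lemma BoA_card (P : ℕ) : ∑ _x ∈ BoA_I P, (1 : ℝ) = 2 * P := by
  rw [BoA_sum P (fun _ => 1)]
  simp
  ring

private lemma BoA_W (p : ℤ) (Z : ℕ) : ∑ n ∈ BoA_I Z, W2 p n / |(n : ℝ)| =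
    ∑ n ∈ Finset.Icc 1 Z, (W2 p (n : ℤ) / n + W2 p (-(n : ℤ)) / n) := by
  rw [BoA_sum]
  apply Finset.sum_congr rfl
  intro k hk
  push_cast
  rw [abs_neg, Nat.abs_cast]

private lemma BoA_W0 (p n : ℤ) : 0 ≤ W2 p n := by
  unfold W2
  apply Finset.sum_nonneg
  intro M _
  apply Finset.sum_nonneg
  intro f _
  split_ifs <;> positivity

private lemma BoA_H (P : ℕ) : ∑ p ∈ BoA_I P, (1 : ℝ) / |(p : ℝ)| ≤ 2 * (1 + Real.log P) := by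
  have h := harmonic_le_one_add_log P
  rw [harmonic_eq_sum_Icc] at h
  push_cast at h
  rw [BoA_sum P (fun x => (1 : ℝ) / |(x : ℝ)|)]
  have e : ∑ k ∈ Finset.Icc 1 P, ((1 : ℝ) / |((k : ℤ) : ℝ)| + (1 : ℝ) / |((-(k : ℤ) : ℤ) : ℝ)|) =
      2 * ∑ k ∈ Finset.Icc 1 P, ((k : ℝ))⁻¹ := by
    rw [Finset.mul_sum]
    apply Finset.sum_congr rfl
    intro k hk
    push_cast
    rw [abs_neg, Nat.abs_cast]
    ring
  rw [e]
  linarith

/-- the bound for a class of tuples -/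
private noncomputable def BoA_B (d n1 n2 n3 : ℕ) (p n : ℤ) : ℝ :=
  2000000 * (1 + B0 d n1 n2 n3 * W2 p n / (√((min n1 (min n2 n3) : ℕ) : ℝ) * |(n : ℝ)|) +
    B0 d n1 n2 n3 * W2 p n / (|(p : ℝ)| * |(n : ℝ)|))

private lemma BoA_B0 (d n1 n2 n3 : ℕ) : 0 ≤ B0 d n1 n2 n3 := by unfold B0; positivity

private lemma BoA_Bn (d n1 n2 n3 : ℕ) (p n : ℤ) : 0 ≤ BoA_B d n1 n2 n3 p n := by
  have h1 := BoA_B0 d n1 n2 n3
  have h2 := BoA_W0 p n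
  unfold BoA_B
  positivity

private lemma BoA_pn (d n1 n2 n3 a2 a3 G : ℕ) (Z0 : ℕ) (T : ℝ)
    (hT : ∀ n : ℕ, 1 ≤ n → n ≤ Z0 → (n.divisors.card : ℝ) ≤ T) (hT1 : 1 ≤ T)
    (S : Finset (ℤ × V3 × V3))
    (hS : ∀ q ∈ S, InB d n1 n2 n3 a2 a3 G q.1 q.2.1 q.2.2)
    (hZ : ∀ q ∈ S, (q.1 ^ 2 * De q.1 q.2.1).natAbs ≤ Z0 ∧
      (q.2.1.1 * q.2.1.2.1 * q.2.1.2.2).natAbs ≤ Z0) (p n : ℤ) :
    (((S.filter fun q => (q.1, De q.1 q.2.1) = (p, n)).card : ℕ) : ℝ) ≤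
      4 * T ^ 5 * BoA_B d n1 n2 n3 p n := by
  classical
  set F := S.filter fun q => (q.1, De q.1 q.2.1) = (p, n) with hF
  have hFm : ∀ q ∈ F, q ∈ S ∧ q.1 = p ∧ De q.1 q.2.1 = n := by
    intro q hq
    obtain ⟨h1, h2⟩ := Finset.mem_filter.mp hq
    exact ⟨h1, (Prod.mk.inj h2).1, (Prod.mk.inj h2).2⟩
  have hB : 0 ≤ BoA_B d n1 n2 n3 p n := BoA_Bn d n1 n2 n3 p n
  set Y := F.image (fun q => q.2.1) with hYd
  have hprod : ∀ q ∈ F, q.2.1.1 * q.2.1.2.1 * q.2.1.2.2 = p ^ 3 + n := by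
    intro q hq
    obtain ⟨-, h1, h2⟩ := hFm q hq
    rw [← h2, ← h1]
    unfold De
    ring
  have hY : (Y.card : ℝ) ≤ 4 * T ^ 2 := by
    rcases F.eq_empty_or_nonempty with h0 | ⟨q0, hq0⟩
    · rw [hYd, h0]
      simp only [Finset.image_empty, Finset.card_empty, Nat.cast_zero]
      positivity
    · obtain ⟨hq0S, -, -⟩ := hFm q0 hq0
      obtain ⟨D, N, N4, u, v, ht, hb⟩ := hS q0 hq0S
      have hne : p ^ 3 + n ≠ 0 := by
        rw [← hprod q0 hq0]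
        exact mul_ne_zero (mul_ne_zero ht.t1.hy ht.t2.hy) ht.t3.hy
      have hc := ycard (p ^ 3 + n) hne Y (by
        intro y hy
        obtain ⟨q, hq, rfl⟩ := Finset.mem_image.mp hy
        exact hprod q hq)
      have hle : (p ^ 3 + n).natAbs ≤ Z0 := by
        rw [← hprod q0 hq0]
        exact (hZ q0 hq0S).2
      have hτ := hT (p ^ 3 + n).natAbs (Int.natAbs_pos.mpr hne) hle
      calc (Y.card : ℝ) ≤ ((4 * (p ^ 3 + n).natAbs.divisors.card ^ 2 : ℕ) : ℝ) := by exact_mod_cast hc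
        _ = 4 * ((p ^ 3 + n).natAbs.divisors.card : ℝ) ^ 2 := by push_cast; ring
        _ ≤ 4 * T ^ 2 := by
            apply mul_le_mul_of_nonneg_left _ (by norm_num)
            exact pow_le_pow_left₀ (by positivity) hτ 2
  have hfib : ∀ y ∈ Y, (((F.filter fun q => q.2.1 = y).card : ℕ) : ℝ) ≤
      T ^ 3 * BoA_B d n1 n2 n3 p n := by
    intro y hy
    obtain ⟨q0, hq0, hq0y⟩ := Finset.mem_image.mp hy
    obtain ⟨hq0S, hq0p, hq0n⟩ := hFm q0 hq0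
    obtain ⟨D, N, N4, u, v, ht, hb⟩ := hS q0 hq0S
    have hDe : De p y = n := by rw [← hq0n, ← hq0p, ← hq0y]
    have hpD : p ^ 2 * De p y ≠ 0 := by
      rw [← hq0p, ← hq0y]
      exact mul_ne_zero (pow_ne_zero _ ht.hp) ht.hD
    have hle : (p ^ 2 * De p y).natAbs ≤ Z0 := by
      rw [← hq0p, ← hq0y]
      exact (hZ q0 hq0S).1
    have hτ := hT (p ^ 2 * De p y).natAbs (Int.natAbs_pos.mpr hpD) hle
    have hinj : Set.InjOn (fun q : ℤ × V3 × V3 => q.2.2)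
        (F.filter fun q => q.2.1 = y : Finset (ℤ × V3 × V3)) := by
      intro q hq q' hq' he
      obtain ⟨g1, g2⟩ := Finset.mem_filter.mp (Finset.mem_coe.mp hq)
      obtain ⟨g1', g2'⟩ := Finset.mem_filter.mp (Finset.mem_coe.mp hq')
      obtain ⟨-, g3, -⟩ := hFm q g1
      obtain ⟨-, g3', -⟩ := hFm q' g1'
      exact Prod.ext (g3.trans g3'.symm) (Prod.ext (g2.trans g2'.symm) he)
    rw [← Finset.card_image_of_injOn hinj]
    have hg := gct d n1 n2 n3 a2 a3 G p y T hτ ((F.filter fun q => q.2.1 = y).image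
      (fun q : ℤ × V3 × V3 => q.2.2)) (by
        intro g hg
        obtain ⟨q, hq, rfl⟩ := Finset.mem_image.mp hg
        obtain ⟨g1, g2⟩ := Finset.mem_filter.mp hq
        obtain ⟨g3, g4, -⟩ := hFm q g1
        have := hS q g3
        rw [g4, g2] at this
        exact this)
    refine hg.trans (le_of_eq ?_)
    unfold Bd BoA_B
    rw [hDe]
  have hsum : ((F.card : ℕ) : ℝ) = ∑ y ∈ Y, (((F.filter fun q => q.2.1 = y).card : ℕ) : ℝ) := by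
    rw [Finset.card_eq_sum_card_image (fun q : ℤ × V3 × V3 => q.2.1) F]
    push_cast
    rfl
  rw [hsum]
  calc ∑ y ∈ Y, (((F.filter fun q => q.2.1 = y).card : ℕ) : ℝ) ≤
      ∑ y ∈ Y, T ^ 3 * BoA_B d n1 n2 n3 p n := Finset.sum_le_sum hfib
    _ = (Y.card : ℝ) * (T ^ 3 * BoA_B d n1 n2 n3 p n) := by
        rw [Finset.sum_const, nsmul_eq_mul]
    _ ≤ 4 * T ^ 2 * (T ^ 3 * BoA_B d n1 n2 n3 p n) :=
        mul_le_mul_of_nonneg_right hY (by positivity)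
    _ = 4 * T ^ 5 * BoA_B d n1 n2 n3 p n := by ring

/-- the sum of the bounds -/
private lemma BoA_tot (d n1 n2 n3 P Z : ℕ) (T L : ℝ) (hZ : 1 ≤ Z) (hT1 : 0 ≤ T)
    (hTp : ∀ p ∈ BoA_I P, (p.natAbs.divisors.card : ℝ) ≤ T)
    (hLP : 1 + Real.log P ≤ L) (hLZ : 1 + Real.log Z ≤ L) :
    ∑ p ∈ BoA_I P, ∑ n ∈ BoA_I Z, BoA_B d n1 n2 n3 p n ≤
      2000000 * (4 * P * Z + 4 * P * T * L ^ 2 * (B0 d n1 n2 n3 / √((min n1 (min n2 n3) : ℕ) : ℝ)) +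
        4 * T * L ^ 3 * B0 d n1 n2 n3) := by
  have hB := BoA_B0 d n1 n2 n3
  have hlog : 0 ≤ Real.log Z := Real.log_nonneg (by exact_mod_cast hZ)
  have hL0 : 0 ≤ L := by linarith
  have hW : ∀ p ∈ BoA_I P, ∑ n ∈ BoA_I Z, W2 p n / |(n : ℝ)| ≤ 2 * T * L ^ 2 := by
    intro p hp
    rw [BoA_W]
    have hp0 : p ≠ 0 := by
      have := (BoA_mem.mp hp).1
      omega
    refine (ws p hp0 Z hZ).trans ?_
    have i1 : (1 + Real.log Z) ^ 2 ≤ L ^ 2 := pow_le_pow_left₀ (by linarith) hLZ 2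
    have i2 := hTp p hp
    exact mul_le_mul (by linarith) i1 (by positivity) (by positivity)
  have hrow : ∀ p ∈ BoA_I P, ∑ n ∈ BoA_I Z, BoA_B d n1 n2 n3 p n ≤
      2000000 * (2 * Z + (B0 d n1 n2 n3 / √((min n1 (min n2 n3) : ℕ) : ℝ)) * (2 * T * L ^ 2) +
        B0 d n1 n2 n3 * (2 * T * L ^ 2) * (1 / |(p : ℝ)|)) := by
    intro p hp
    have e : ∑ n ∈ BoA_I Z, BoA_B d n1 n2 n3 p n =
        2000000 * (∑ _n ∈ BoA_I Z, (1 : ℝ) +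
          (B0 d n1 n2 n3 / √((min n1 (min n2 n3) : ℕ) : ℝ)) * ∑ n ∈ BoA_I Z, W2 p n / |(n : ℝ)| +
          B0 d n1 n2 n3 * (∑ n ∈ BoA_I Z, W2 p n / |(n : ℝ)|) * (1 / |(p : ℝ)|)) := by
      rw [Finset.mul_sum, Finset.mul_sum, Finset.sum_mul, ← Finset.sum_add_distrib,
        ← Finset.sum_add_distrib, Finset.mul_sum]
      apply Finset.sum_congr rfl
      intro n hn
      unfold BoA_B
      congr 1
      congr 1
      · congr 1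
        rw [div_mul_div_comm]
      · rw [mul_one_div, mul_div_assoc', div_div, mul_comm |(n : ℝ)| |(p : ℝ)|]
    rw [e, BoA_card]
    apply mul_le_mul_of_nonneg_left _ (by norm_num)
    have i1 := hW p hp
    have i2 := mul_le_mul_of_nonneg_left i1
      (show 0 ≤ B0 d n1 n2 n3 / √((min n1 (min n2 n3) : ℕ) : ℝ) by positivity)
    have i3 := mul_le_mul_of_nonneg_right (mul_le_mul_of_nonneg_left i1 hB)
      (show 0 ≤ 1 / |(p : ℝ)| by positivity)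
    linarith
  refine (Finset.sum_le_sum hrow).trans ?_
  rw [← Finset.mul_sum, Finset.sum_add_distrib, ← Finset.mul_sum]
  apply mul_le_mul_of_nonneg_left _ (by norm_num)
  have e2 : ∑ _p ∈ BoA_I P, (2 * (Z : ℝ) +
      (B0 d n1 n2 n3 / √((min n1 (min n2 n3) : ℕ) : ℝ)) * (2 * T * L ^ 2)) =
      2 * P * (2 * (Z : ℝ) + (B0 d n1 n2 n3 / √((min n1 (min n2 n3) : ℕ) : ℝ)) * (2 * T * L ^ 2)) := by
    rw [← BoA_card P, Finset.sum_mul]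
    apply Finset.sum_congr rfl
    intro p _
    rw [one_mul]
  rw [e2]
  have i4 : ∑ p ∈ BoA_I P, (1 : ℝ) / |(p : ℝ)| ≤ 2 * L := (BoA_H P).trans (by linarith)
  have i5 := mul_le_mul_of_nonneg_left i4 (show 0 ≤ B0 d n1 n2 n3 * (2 * T * L ^ 2) by positivity)
  refine (add_le_add_right i5 _).trans (le_of_eq ?_)
  ring

theorem boxa (d n1 n2 n3 a2 a3 G : ℕ) (Z0 : ℕ) (T L : ℝ)
    (hT : ∀ n : ℕ, 1 ≤ n → n ≤ Z0 → (n.divisors.card : ℝ) ≤ T) (hT1 : 1 ≤ T)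
    (hL : 1 + Real.log Z0 ≤ L) (S : Finset (ℤ × V3 × V3))
    (hS : ∀ q ∈ S, InB d n1 n2 n3 a2 a3 G q.1 q.2.1 q.2.2)
    (hZ : ∀ q ∈ S, (q.1 ^ 2 * De q.1 q.2.1).natAbs ≤ Z0 ∧ (q.2.1.1 * q.2.1.2.1 * q.2.1.2.2).natAbs ≤ Z0)
    (hZ0 : √(32 * (n1 : ℝ) * n2 * n3 / d) ≤ Z0 ∧ 2 * √(32 * (n1 : ℝ) * n2 * n3 / d) ^ 3 ≤ Z0)
    (hZ1 : 1 ≤ Z0) :
    (S.card : ℝ) ≤ 32000000 * T ^ 6 * L ^ 3 * Tt d n1 n2 n3 := by
  classical
  have hlog0 : 0 ≤ Real.log Z0 := Real.log_nonneg (by exact_mod_cast hZ1)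
  have hL1 : 1 ≤ L := by linarith
  have hT0 : 0 < T := by linarith
  have hB := BoA_B0 d n1 n2 n3
  set P0 := √(32 * (n1 : ℝ) * n2 * n3 / d) with hP0
  have hP00 : 0 ≤ P0 := Real.sqrt_nonneg _
  have hTt : Tt d n1 n2 n3 = 2 * P0 ^ 4 + B0 d n1 n2 n3 * P0 / √((min n1 (min n2 n3) : ℕ) : ℝ) +
      B0 d n1 n2 n3 := by rw [hP0]; rfl
  have hTt0 : 0 ≤ Tt d n1 n2 n3 := by rw [hTt]; positivity
  rcases S.eq_empty_or_nonempty with rfl | ⟨q0, hq0⟩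
  · simp only [Finset.card_empty, Nat.cast_zero]
    positivity
  set P := ⌊P0⌋₊ with hP
  set Z := ⌊2 * P0 ^ 3⌋₊ with hZd
  have hPle : (P : ℝ) ≤ P0 := Nat.floor_le hP00
  have hZle : (Z : ℝ) ≤ 2 * P0 ^ 3 := Nat.floor_le (by positivity)
  have hmaps : ∀ q ∈ S, (q.1, De q.1 q.2.1) ∈ BoA_I P ×ˢ BoA_I Z := by
    intro q hq
    obtain ⟨D, N, N4, u, v, ht, hb⟩ := hS q hq
    rw [Finset.mem_product, BoA_mem, BoA_mem]
    refine ⟨⟨Int.natAbs_pos.mpr ht.hp, ?_⟩, ⟨Int.natAbs_pos.mpr ht.hD, ?_⟩⟩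
    · apply Nat.le_floor
      rw [Nat.cast_natAbs, Int.cast_abs]
      exact bp d n1 n2 n3 a2 a3 D G q.1 q.2.1 q.2.2 N N4 u v ht hb
    · apply Nat.le_floor
      rw [Nat.cast_natAbs, Int.cast_abs]
      exact bDe d n1 n2 n3 a2 a3 D G q.1 q.2.1 q.2.2 N N4 u v ht hb
  have hq0' := hmaps q0 hq0
  rw [Finset.mem_product, BoA_mem, BoA_mem] at hq0'
  have hP1 : 1 ≤ P := by omega
  have hZ1' : 1 ≤ Z := by omega
  have hPZ0 : (P : ℝ) ≤ Z0 := hPle.trans hZ0.1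
  have hZZ0 : (Z : ℝ) ≤ Z0 := hZle.trans hZ0.2
  have hPZ0' : P ≤ Z0 := by exact_mod_cast hPZ0
  have hLP : 1 + Real.log P ≤ L := by
    have : Real.log P ≤ Real.log Z0 := Real.log_le_log (by exact_mod_cast hP1) hPZ0
    linarith
  have hLZ : 1 + Real.log Z ≤ L := by
    have : Real.log Z ≤ Real.log Z0 := Real.log_le_log (by exact_mod_cast hZ1') hZZ0
    linarith
  have hcard : (S.card : ℝ) = ∑ b ∈ BoA_I P ×ˢ BoA_I Z,
      (((S.filter fun q => (q.1, De q.1 q.2.1) = b).card : ℕ) : ℝ) := by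
    rw [Finset.card_eq_sum_card_fiberwise (f := fun q : ℤ × V3 × V3 => (q.1, De q.1 q.2.1))
      (t := BoA_I P ×ˢ BoA_I Z) hmaps]
    push_cast
    rfl
  have htot := BoA_tot d n1 n2 n3 P Z T L hZ1' hT0.le (by
    intro p hp
    obtain ⟨h1, h2⟩ := BoA_mem.mp hp
    exact hT _ h1 (h2.trans hPZ0')) hLP hLZ
  have h1 : (S.card : ℝ) ≤ 4 * T ^ 5 * ∑ p ∈ BoA_I P, ∑ n ∈ BoA_I Z, BoA_B d n1 n2 n3 p n := by
    rw [hcard, Finset.sum_product, Finset.mul_sum]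
    apply Finset.sum_le_sum
    intro p _
    rw [Finset.mul_sum]
    apply Finset.sum_le_sum
    intro n _
    exact BoA_pn d n1 n2 n3 a2 a3 G Z0 T hT hT1 S hS hZ p n
  have h2 := h1.trans (mul_le_mul_of_nonneg_left htot (show 0 ≤ 4 * T ^ 5 by positivity))
  refine h2.trans ?_
  set R := B0 d n1 n2 n3 / √((min n1 (min n2 n3) : ℕ) : ℝ) with hR
  have hR0 : 0 ≤ R := by positivity
  have hTt' : Tt d n1 n2 n3 = 2 * P0 ^ 4 + R * P0 + B0 d n1 n2 n3 := by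
    rw [hTt, hR]; ring
  rw [hTt']
  have hL3 : 1 ≤ L ^ 3 := one_le_pow₀ hL1
  have hTL : 1 ≤ T * L ^ 3 := one_le_mul_of_one_le_of_one_le hT1 hL3
  have hL23 : L ^ 2 ≤ L ^ 3 := pow_le_pow_right₀ hL1 (by norm_num)
  have j1 : (P : ℝ) * Z ≤ T * L ^ 3 * (2 * P0 ^ 4) := by
    calc (P : ℝ) * Z ≤ P0 * (2 * P0 ^ 3) := mul_le_mul hPle hZle (by positivity) hP00
      _ = 1 * (2 * P0 ^ 4) := by ring
      _ ≤ T * L ^ 3 * (2 * P0 ^ 4) := mul_le_mul_of_nonneg_right hTL (by positivity)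
  have j2 : (P : ℝ) * T * L ^ 2 * R ≤ T * L ^ 3 * (R * P0) := by
    calc (P : ℝ) * T * L ^ 2 * R ≤ P0 * T * L ^ 3 * R := by
          apply mul_le_mul_of_nonneg_right _ hR0
          exact mul_le_mul (mul_le_mul_of_nonneg_right hPle hT0.le) hL23 (by positivity)
            (by positivity)
      _ = _ := by ring
  have j3 : (P : ℝ) * Z + P * T * L ^ 2 * R + T * L ^ 3 * B0 d n1 n2 n3 ≤
      T * L ^ 3 * (2 * P0 ^ 4 + R * P0 + B0 d n1 n2 n3) := by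
    linarith
  calc 4 * T ^ 5 * (2000000 * (4 * P * Z + 4 * P * T * L ^ 2 * R + 4 * T * L ^ 3 * B0 d n1 n2 n3)) =
      32000000 * T ^ 5 * ((P : ℝ) * Z + P * T * L ^ 2 * R + T * L ^ 3 * B0 d n1 n2 n3) := by ring
    _ ≤ 32000000 * T ^ 5 * (T * L ^ 3 * (2 * P0 ^ 4 + R * P0 + B0 d n1 n2 n3)) :=
        mul_le_mul_of_nonneg_left j3 (by positivity)
    _ = _ := by ring

end Pool.Agent.SMQ
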