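import Pool.Agent.SMQ.Defs

/-!
# SMQ/BoB: the bound for a box is at most `X / G`

Notation: `U = n1 n2 n3`, `P0 = √(32 U / d)`, `nm = min n1 (min n2 n3)`.

PROOF of `boxb`.  If `S` is empty the bound is clear.  Otherwise `bnG`: `G n_i ≤ √(2 d)`, and `d ≤ D ≤ G ^ 2 X`.
`G ^ 3 U ≤ (2 d) ^ (3/2)`.  `2 P0 ^ 4 = 2048 U ^ 2 / d ^ 2 ≤ 2048 * 8 d / G ^ 6`.
`B0 P0 / √nm = √32 U ^ (3/2) / (d √nm)`, and `U ^ (3/2) / √nm = nm (U / nm) ^ (3/2) ≤ (√(2 d) / G) (2 d / G ^ 2) ^ (3/2) =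
4 d ^ 2 / G ^ 4`, so it is at most `23 d / G ^ 4`.  `B0 ≤ 2 √2 d / G ^ 3`.  Sum `≤ 17000 d / G ^ 3 ≤ 17000 X / G`.
(To avoid real powers: put `x_i = √n_i`, `t = √(√(2 d) / G)`, `x_i ≤ t`, `t ^ 4 = 2 d / G ^ 2`, `√d = t ^ 2 G / √2`.)
-/

set_option autoImplicit false

namespace Pool.Agent.SMQ

/-- the real form of the bound -/
private theorem BoB_real (a b c m e g s : ℝ) (ha : 1 ≤ a) (hb : 1 ≤ b) (hc : 1 ≤ c) (he : 1 ≤ e)
    (hg : 1 ≤ g) (hs0 : 0 < s) (hs : s ^ 2 = 2 * e / g ^ 2) (has : a ≤ s) (hbs : b ≤ s)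
    (hcs : c ≤ s) (hm : 0 < m) (hnm : a * b * c ≤ s ^ 2 * m) :
    2 * √(32 * a * b * c / e) ^ 4 + a * b * c / √e * √(32 * a * b * c / e) / √m +
      a * b * c / √e ≤ 17000 * (e / g ^ 3) := by
  have ha0 : 0 < a := by linarith
  have hb0 : 0 < b := by linarith
  have hc0 : 0 < c := by linarith
  have he0 : 0 < e := by linarith
  have hg0 : 0 < g := by linarith
  have hU0 : 0 < a * b * c := by positivity
  have hUs : a * b * c ≤ s ^ 3 := by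
    calc a * b * c ≤ s * s * s := by gcongr
      _ = s ^ 3 := by ring
  have hq0 : 0 < √e := Real.sqrt_pos.mpr he0
  have hq2 : √e ^ 2 = e := Real.sq_sqrt he0.le
  have hx0 : 0 ≤ 32 * a * b * c / e := by positivity
  -- the three powers of `g`
  have hg3 : e / g ^ 6 ≤ e / g ^ 3 := by
    apply div_le_div_of_nonneg_left he0.le (by positivity)
    exact pow_le_pow_right₀ hg (by norm_num)
  have hg4 : e / g ^ 4 ≤ e / g ^ 3 := by
    apply div_le_div_of_nonneg_left he0.le (by positivity)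
    exact pow_le_pow_right₀ hg (by norm_num)
  -- first term
  have t1 : 2 * √(32 * a * b * c / e) ^ 4 ≤ 16384 * (e / g ^ 3) := by
    have e1 : √(32 * a * b * c / e) ^ 4 = (32 * a * b * c / e) ^ 2 := by
      have := Real.sq_sqrt hx0
      calc √(32 * a * b * c / e) ^ 4 = (√(32 * a * b * c / e) ^ 2) ^ 2 := by ring
        _ = _ := by rw [this]
    have e2 : (32 * a * b * c / e) ^ 2 = 1024 * (a * b * c) ^ 2 / e ^ 2 := by
      field_simp
      ring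
    have e3 : (a * b * c) ^ 2 ≤ s ^ 6 := by
      calc (a * b * c) ^ 2 ≤ (s ^ 3) ^ 2 := by gcongr
        _ = s ^ 6 := by ring
    have e4 : s ^ 6 = 8 * e ^ 3 / g ^ 6 := by
      calc s ^ 6 = (s ^ 2) ^ 3 := by ring
        _ = (2 * e / g ^ 2) ^ 3 := by rw [hs]
        _ = 8 * e ^ 3 / g ^ 6 := by
          field_simp
          ring
    rw [e1, e2]
    have e5 : 1024 * (a * b * c) ^ 2 / e ^ 2 ≤ 1024 * s ^ 6 / e ^ 2 := by gcongr
    have e6 : 1024 * s ^ 6 / e ^ 2 = 8192 * (e / g ^ 6) := by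
      rw [e4]
      field_simp
      ring
    linarith
  -- third term
  have t3 : a * b * c / √e ≤ 3 * (e / g ^ 3) := by
    have e1 : a * b * c / √e ≤ s ^ 3 / √e := by gcongr
    have e2 : s ^ 3 / √e ≤ 3 * (e / g ^ 3) := by
      rw [div_le_iff₀ hq0]
      have e3 : s ≤ 3 / 2 * (√e / g) := by
        apply (sq_le_sq₀ hs0.le (by positivity)).mp
        rw [hs, mul_pow, div_pow (√e) g 2, hq2]
        have : 0 < e / g ^ 2 := by positivity
        have e4 : 2 * e / g ^ 2 = 2 * (e / g ^ 2) := by ring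
        rw [e4]
        nlinarith
      calc s ^ 3 = s ^ 2 * s := by ring
        _ ≤ 2 * e / g ^ 2 * (3 / 2 * (√e / g)) := by
          rw [hs]
          gcongr
        _ = 3 * (e / g ^ 3) * √e := by
          field_simp
    linarith
  -- second term
  have t2 : a * b * c / √e * √(32 * a * b * c / e) / √m ≤ 24 * (e / g ^ 3) := by
    have hm0 : 0 < √m := Real.sqrt_pos.mpr hm
    have e1 : √(32 * a * b * c / e) ≤ 6 * (s / √e) * √m := by
      apply Real.sqrt_le_iff.mpr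
      constructor
      · positivity
      · have e2 : (6 * (s / √e) * √m) ^ 2 = 36 * (s ^ 2 * m) / e := by
          have h5 : √m ^ 2 = m := Real.sq_sqrt hm.le
          calc (6 * (s / √e) * √m) ^ 2 = 36 * (s ^ 2 * √m ^ 2) / √e ^ 2 := by
                rw [mul_pow, mul_pow, div_pow]
                ring
            _ = 36 * (s ^ 2 * m) / e := by rw [hq2, h5]
        rw [e2]
        have e3 : 32 * a * b * c / e ≤ 36 * (s ^ 2 * m) / e := by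
          apply div_le_div_of_nonneg_right _ he0.le
          nlinarith
        exact e3
    have e4 : a * b * c / √e * √(32 * a * b * c / e) / √m ≤
        s ^ 3 / √e * (6 * (s / √e) * √m) / √m := by gcongr
    have e5 : s ^ 3 / √e * (6 * (s / √e) * √m) / √m = 6 * s ^ 4 / e := by
      calc s ^ 3 / √e * (6 * (s / √e) * √m) / √m = 6 * s ^ 4 / √e ^ 2 := by
            field_simp
        _ = 6 * s ^ 4 / e := by rw [hq2]
    have e6 : 6 * s ^ 4 / e = 24 * (e / g ^ 4) := by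
      calc 6 * s ^ 4 / e = 6 * (s ^ 2) ^ 2 / e := by ring
        _ = 6 * (2 * e / g ^ 2) ^ 2 / e := by rw [hs]
        _ = 24 * (e / g ^ 4) := by
          field_simp
          ring
    linarith
  have h0 : 0 < e / g ^ 3 := by positivity
  linarith

private theorem BoB_le (G n d : ℕ) (hG : 1 ≤ G) (k : (G * n) ^ 2 < 2 * d) :
    (n : ℝ) ≤ √(2 * (d : ℝ)) / (G : ℝ) := by
  have hg : (0 : ℝ) < (G : ℝ) := by
    have : (1 : ℝ) ≤ (G : ℝ) := by exact_mod_cast hG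
    linarith
  have k' : ((G : ℝ) * (n : ℝ)) ^ 2 < 2 * (d : ℝ) := by exact_mod_cast k
  rw [le_div_iff₀ hg]
  apply Real.le_sqrt_of_sq_le
  nlinarith

theorem boxb (X d n1 n2 n3 G : ℕ) (hX : 1 ≤ X) (hG : 1 ≤ G) (hd : 1 ≤ d) (h1 : 1 ≤ n1) (h2 : 1 ≤ n2)
    (h3 : 1 ≤ n3) (hd2 : d ≤ G ^ 2 * X) (k1 : (G * n1) ^ 2 < 2 * d) (k2 : (G * n2) ^ 2 < 2 * d)
    (k3 : (G * n3) ^ 2 < 2 * d) : Tt d n1 n2 n3 ≤ 17000 * ((X : ℝ) / G) := by
  have hg : (1 : ℝ) ≤ (G : ℝ) := by exact_mod_cast hG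
  have he : (1 : ℝ) ≤ (d : ℝ) := by exact_mod_cast hd
  have ha : (1 : ℝ) ≤ (n1 : ℝ) := by exact_mod_cast h1
  have hb : (1 : ℝ) ≤ (n2 : ℝ) := by exact_mod_cast h2
  have hc : (1 : ℝ) ≤ (n3 : ℝ) := by exact_mod_cast h3
  have hg0 : (0 : ℝ) < (G : ℝ) := by linarith
  have he0 : (0 : ℝ) < (d : ℝ) := by linarith
  have hd2' : (d : ℝ) ≤ (G : ℝ) ^ 2 * (X : ℝ) := by exact_mod_cast hd2
  have s1 := BoB_le G n1 d hG k1
  have s2 := BoB_le G n2 d hG k2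
  have s3 := BoB_le G n3 d hG k3
  set s : ℝ := √(2 * (d : ℝ)) / (G : ℝ) with hsdef
  have hs0 : 0 < s := by
    rw [hsdef]
    positivity
  have hs2 : s ^ 2 = 2 * (d : ℝ) / (G : ℝ) ^ 2 := by
    rw [hsdef, div_pow, Real.sq_sqrt (by positivity)]
  have hm1 : 1 ≤ min n1 (min n2 n3) := le_min h1 (le_min h2 h3)
  have hm : (0 : ℝ) < ((min n1 (min n2 n3) : ℕ) : ℝ) := by
    have : (1 : ℝ) ≤ ((min n1 (min n2 n3) : ℕ) : ℝ) := by exact_mod_cast hm1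
    linarith
  have hnm : (n1 : ℝ) * (n2 : ℝ) * (n3 : ℝ) ≤ s ^ 2 * ((min n1 (min n2 n3) : ℕ) : ℝ) := by
    have hc3 : min n1 (min n2 n3) = n1 ∨ min n1 (min n2 n3) = n2 ∨ min n1 (min n2 n3) = n3 := by
      omega
    have p12 : (n1 : ℝ) * (n2 : ℝ) ≤ s ^ 2 := by
      calc (n1 : ℝ) * (n2 : ℝ) ≤ s * s := by gcongr
        _ = s ^ 2 := by ring
    have p13 : (n1 : ℝ) * (n3 : ℝ) ≤ s ^ 2 := by
      calc (n1 : ℝ) * (n3 : ℝ) ≤ s * s := by gcongr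
        _ = s ^ 2 := by ring
    have p23 : (n2 : ℝ) * (n3 : ℝ) ≤ s ^ 2 := by
      calc (n2 : ℝ) * (n3 : ℝ) ≤ s * s := by gcongr
        _ = s ^ 2 := by ring
    rcases hc3 with h | h | h
    · rw [h]
      calc (n1 : ℝ) * (n2 : ℝ) * (n3 : ℝ) = ((n2 : ℝ) * (n3 : ℝ)) * (n1 : ℝ) := by ring
        _ ≤ s ^ 2 * (n1 : ℝ) := by gcongr
    · rw [h]
      calc (n1 : ℝ) * (n2 : ℝ) * (n3 : ℝ) = ((n1 : ℝ) * (n3 : ℝ)) * (n2 : ℝ) := by ring
        _ ≤ s ^ 2 * (n2 : ℝ) := by gcongr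
    · rw [h]
      gcongr
  have main := BoB_real (n1 : ℝ) (n2 : ℝ) (n3 : ℝ) ((min n1 (min n2 n3) : ℕ) : ℝ) (d : ℝ) (G : ℝ) s
    ha hb hc he hg hs0 hs2 s1 s2 s3 hm hnm
  have hfin : (d : ℝ) / (G : ℝ) ^ 3 ≤ (X : ℝ) / (G : ℝ) := by
    rw [div_le_div_iff₀ (by positivity) hg0]
    calc (d : ℝ) * (G : ℝ) ≤ ((G : ℝ) ^ 2 * (X : ℝ)) * (G : ℝ) := by gcongr
      _ = (X : ℝ) * (G : ℝ) ^ 3 := by ring
  unfold Tt B0
  calc _ ≤ 17000 * ((d : ℝ) / (G : ℝ) ^ 3) := main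
    _ ≤ 17000 * ((X : ℝ) / (G : ℝ)) := by gcongr

end Pool.Agent.SMQ
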