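import Pool.Agent.SMQ.Defs

/-!
# SMQ/BxB: `g2` and `g3` are comparable

PROOF.  `t23`: `|g2| / √N2 ≤ |g1| / √N1 + |g3| / √N3 ≤ 2 |g3| / √N3` (fields `st` and `t3`), so
`a2 / √(2 n2) ≤ 2 (2 a3) / √n3`, i.e. `a2 √n3 ≤ 4 √2 a3 √n2 ≤ 6 a3 √n2`; the same for `a3`.
-/

set_option autoImplicit false

namespace Pool.Agent.SMQ

variable (d n1 n2 n3 a2 a3 D G : ℕ) (p : ℤ) (y g : V3) (N : ℕ × ℕ × ℕ) (N4 : ℕ) (u v : V3)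

private theorem bxb_aux (a2 a3 n2 n3 N2 N3 x y : ℝ) (hn2 : 1 ≤ n2) (hN20 : n2 ≤ N2)
    (hN2 : N2 < 2 * n2) (hn3 : 1 ≤ n3) (hN3 : n3 ≤ N3) (hx0 : 0 ≤ x) (hx : a2 ≤ x)
    (hy0 : 0 ≤ y) (hy : y < 2 * a3)
    (h : x / √N2 ≤ 2 * (y / √N3)) : a2 * √n3 ≤ 6 * (a3 * √n2) := by
  have h2 : 0 < √N2 := Real.sqrt_pos.mpr (by linarith)
  have h3 : 0 < √N3 := Real.sqrt_pos.mpr (by linarith)
  have e1 : x * √N3 ≤ 2 * y * √N2 := by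
    have := mul_le_mul_of_nonneg_right h (mul_pos h2 h3).le
    have e : x / √N2 * (√N2 * √N3) = x * √N3 := by field_simp
    have e' : 2 * (y / √N3) * (√N2 * √N3) = 2 * y * √N2 := by field_simp
    rwa [e, e'] at this
  have e2 : √N2 ≤ 3 / 2 * √n2 := by
    have : √N2 ≤ √((3 / 2) ^ 2 * n2) := Real.sqrt_le_sqrt (by linarith)
    rwa [Real.sqrt_mul (by positivity), Real.sqrt_sq (by norm_num)] at this
  have e3 : √n3 ≤ √N3 := Real.sqrt_le_sqrt hN3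
  have e4 : a2 * √n3 ≤ x * √N3 :=
    (mul_le_mul_of_nonneg_right hx (Real.sqrt_nonneg _)).trans
      (mul_le_mul_of_nonneg_left e3 hx0)
  have e5 : 2 * y * √N2 ≤ 2 * (2 * a3) * (3 / 2 * √n2) :=
    mul_le_mul (by linarith) e2 h2.le (by linarith)
  calc a2 * √n3 ≤ x * √N3 := e4
    _ ≤ 2 * y * √N2 := e1
    _ ≤ 2 * (2 * a3) * (3 / 2 * √n2) := e5
    _ = 6 * (a3 * √n2) := by ring

theorem t23 (h : Tri D G p y g N N4 u v) (hb : Bo d n1 n2 n3 a2 a3 D N g) :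
    (a2 : ℝ) * √(n3 : ℝ) ≤ 6 * (a3 * √(n2 : ℝ)) ∧ (a3 : ℝ) * √(n2 : ℝ) ≤ 6 * (a2 * √(n3 : ℝ)) := by
  have s2 := h.t2.st
  have s3 := h.t3.st
  have t2 := hb.t2
  have t3 := hb.t3
  have b20 : (1 : ℝ) ≤ n2 := by exact_mod_cast hb.n20
  have b30 : (1 : ℝ) ≤ n3 := by exact_mod_cast hb.n30
  have b21 : (n2 : ℝ) ≤ N.2.1 := by exact_mod_cast hb.n21
  have b22 : (N.2.1 : ℝ) < 2 * n2 := by exact_mod_cast hb.n22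
  have b31 : (n3 : ℝ) ≤ N.2.2 := by exact_mod_cast hb.n31
  have b32 : (N.2.2 : ℝ) < 2 * n3 := by exact_mod_cast hb.n32
  have c21 : (a2 : ℝ) ≤ |(g.2.1 : ℝ)| := by exact_mod_cast hb.a21
  have c22 : |(g.2.1 : ℝ)| < 2 * (a2 : ℝ) := by exact_mod_cast hb.a22
  have c31 : (a3 : ℝ) ≤ |(g.2.2 : ℝ)| := by exact_mod_cast hb.a31
  have c32 : |(g.2.2 : ℝ)| < 2 * (a3 : ℝ) := by exact_mod_cast hb.a32
  refine ⟨bxb_aux a2 a3 n2 n3 N.2.1 N.2.2 |(g.2.1 : ℝ)| |(g.2.2 : ℝ)| b20 b21 b22 b30 b31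
    (abs_nonneg _) c21 (abs_nonneg _) c32 (by linarith),
    bxb_aux a3 a2 n3 n2 N.2.2 N.2.1 |(g.2.2 : ℝ)| |(g.2.1 : ℝ)| b30 b31 b32 b20 b21
    (abs_nonneg _) c31 (abs_nonneg _) c22 (by linarith)⟩

end Pool.Agent.SMQ
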