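import Pool.Agent.SMQ.Crs
import Pool.Agent.SMQ.Lat

/-!
# SMQ/ClA: a class of vectors `w` and the plane lattice orthogonal to `w0`

PROOF.  If `S` is empty the bound is clear.  Let `Λ` be the subgroup of all `(k1, k3)` for which there
is `k2` with `dt (k1, k2, k3) w0 = 0`.  As `w0.2.1 ≠ 0`, `k2` is determined by `(k1, k3)`.
`hmin` of `lat` is `h2` (if `(k1, k3) ≠ 0` then `k ≠ 0`); for `hdet`: by `crp`, `cr k k' = t w0`, the
second coordinate is `k.2.2 * k'.1 - k.1 * k'.2.2 = t * w0.2.1`; if it is not `0` its absolute value is at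
least `|w0.2.1| ≥ V`.
For `w ∈ S` let `k(w) = cr w0 w / Q` (integral by `hQ`, orthogonal to `w0` by `dt_cr`); the point
`(k(w).1, k(w).2.2)` is in `Λ` and in the box (`h1`).  Let `R` be the set of these points;
`card R ≤ 1 + 2 / lam + 12 (K1 K3 / V)` by `lat`.
Fibres: if `w, w'` have the same point then `cr w0 w = cr w0 w'`, so `w' = w + t w0` (`par`) and
`|t| |w0.2.1| = |w'.2.1 - w.2.1| < 4 |w0.2.1|` (`h4`), so `|t| ≤ 3`: for fixed `w` at most 7 vectors `w'`.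
So `card S ≤ 7 card R` (`Finset.card_le_mul_card_image`).
-/

set_option autoImplicit false

namespace Pool.Agent.SMQ

/-- the projected orthogonal lattice -/
private def claLam (w0 : V3) : AddSubgroup (ℤ × ℤ) where
  carrier := {k | ∃ k2 : ℤ, dt (k.1, k2, k.2) w0 = 0}
  zero_mem' := ⟨0, by simp [dt]⟩
  add_mem' := by
    rintro k k' ⟨k2, hk⟩ ⟨k2', hk'⟩
    refine ⟨k2 + k2', ?_⟩
    simp only [dt, Prod.fst_add, Prod.snd_add] at hk hk' ⊢
    linarith
  neg_mem' := by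
    rintro k ⟨k2, hk⟩
    refine ⟨-k2, ?_⟩
    simp only [dt, Prod.fst_neg, Prod.snd_neg] at hk ⊢
    linarith

theorem cla_lat (w0 : V3) (hw0 : Pr w0) (Q : ℕ) (hQ1 : 1 ≤ Q) (S : Finset V3) (K1 K3 lam V : ℝ)
    (hK1 : 0 < K1) (hK3 : 0 < K3) (hlam : 0 < lam) (hV : 0 < V)
    (hQ : ∀ w ∈ S, (Q : ℤ) ∣ (cr w0 w).1 ∧ (Q : ℤ) ∣ (cr w0 w).2.1 ∧ (Q : ℤ) ∣ (cr w0 w).2.2)
    (h1 : ∀ w ∈ S, |((cr w0 w).1 : ℝ)| ≤ Q * K1 ∧ |((cr w0 w).2.2 : ℝ)| ≤ Q * K3)
    (h2 : ∀ k : V3, dt k w0 = 0 → k ≠ 0 → lam * K1 ≤ |(k.1 : ℝ)| ∨ lam * K3 ≤ |(k.2.2 : ℝ)|)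
    (h3 : V ≤ |(w0.2.1 : ℝ)|)
    (h4 : ∀ w ∈ S, ∀ w' ∈ S, |w.2.1 - w'.2.1| < 4 * |w0.2.1|) :
    (S.card : ℝ) ≤ 7 * (1 + 2 / lam + 12 * (K1 * K3 / V)) := by
  classical
  have hb : w0.2.1 ≠ 0 := by
    intro h
    rw [h] at h3
    simp at h3
    linarith
  have hQp : (0 : ℤ) < (Q : ℤ) := by exact_mod_cast hQ1
  have hQr : (0 : ℝ) < (Q : ℝ) := by exact_mod_cast hQ1
  set f : V3 → ℤ × ℤ := fun w => ((cr w0 w).1 / (Q : ℤ), (cr w0 w).2.2 / (Q : ℤ)) with hf
  have hR : ((S.image f).card : ℝ) ≤ 1 + 2 / lam + 12 * (K1 * K3 / V) := by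
    refine lat (claLam w0) K1 K3 lam V hK1 hK3 hlam hV ?_ ?_ (S.image f) ?_
    · rintro k ⟨k2, hk⟩ hk0
      refine h2 (k.1, k2, k.2) hk ?_
      intro h
      apply hk0
      have e1 := congrArg Prod.fst h
      have e2 := congrArg (fun x : V3 => x.2.2) h
      exact Prod.ext e1 e2
    · rintro k ⟨k2, hk⟩ k' ⟨k2', hk'⟩ hne
      obtain ⟨t, ht⟩ := crp w0 (k.1, k2, k.2) (k'.1, k2', k'.2) hw0 hk hk'
      have e := congrArg (fun x : V3 => x.2.1) ht
      simp only [cr] at e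
      have e2 : k.1 * k'.2 - k.2 * k'.1 = - t * w0.2.1 := by linarith
      rw [e2] at hne ⊢
      have ht0 : t ≠ 0 := by
        rintro rfl
        simp at hne
      have ht1 : (1 : ℝ) ≤ |(t : ℝ)| := by
        have : (1 : ℤ) ≤ |t| := Int.one_le_abs ht0
        have h5 : ((1 : ℤ) : ℝ) ≤ ((|t| : ℤ) : ℝ) := by exact_mod_cast this
        rw [Int.cast_abs] at h5
        simpa using h5
      push_cast
      rw [neg_mul, abs_neg, abs_mul]
      calc V ≤ |(w0.2.1 : ℝ)| := h3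
        _ = 1 * |(w0.2.1 : ℝ)| := by ring
        _ ≤ |(t : ℝ)| * |(w0.2.1 : ℝ)| := by
          exact mul_le_mul_of_nonneg_right ht1 (abs_nonneg _)
    · intro k hk
      obtain ⟨w, hw, rfl⟩ := Finset.mem_image.1 hk
      obtain ⟨⟨x, hx⟩, ⟨y, hy⟩, ⟨z, hz⟩⟩ := hQ w hw
      obtain ⟨g1, g3⟩ := h1 w hw
      have fx : (cr w0 w).1 / (Q : ℤ) = x := by
        rw [hx]; exact Int.mul_ediv_cancel_left _ hQp.ne'
      have fz : (cr w0 w).2.2 / (Q : ℤ) = z := by
        rw [hz]; exact Int.mul_ediv_cancel_left _ hQp.ne'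
      refine ⟨⟨y, ?_⟩, ?_, ?_⟩
      · show dt ((cr w0 w).1 / (Q : ℤ), y, (cr w0 w).2.2 / (Q : ℤ)) w0 = 0
        rw [fx, fz]
        have h5 := (dt_cr w0 w).1
        have h6 : (Q : ℤ) * dt (x, y, z) w0 = 0 := by
          rw [← h5]
          simp only [dt] at *
          rw [hx, hy, hz]
          ring
        rcases mul_eq_zero.1 h6 with h7 | h7
        · exact absurd h7 hQp.ne'
        · exact h7
      · show |(((cr w0 w).1 / (Q : ℤ) : ℤ) : ℝ)| ≤ K1
        rw [fx]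
        rw [hx] at g1
        push_cast at g1
        rw [abs_mul, abs_of_pos hQr] at g1
        exact le_of_mul_le_mul_left g1 hQr
      · show |(((cr w0 w).2.2 / (Q : ℤ) : ℤ) : ℝ)| ≤ K3
        rw [fz]
        rw [hz] at g3
        push_cast at g3
        rw [abs_mul, abs_of_pos hQr] at g3
        exact le_of_mul_le_mul_left g3 hQr
  have hfib : ∀ y ∈ S.image f, (S.filter (fun x => f x = y)).card ≤ 7 := by
    intro y hy
    obtain ⟨w, hw, hwy⟩ := Finset.mem_image.1 hy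
    have hsub : S.filter (fun x => f x = y) ⊆ (Finset.Icc (-3 : ℤ) 3).image
        (fun t : ℤ => ((w.1 + t * w0.1, w.2.1 + t * w0.2.1, w.2.2 + t * w0.2.2) : V3)) := by
      intro w' hw'
      obtain ⟨hw'S, hw'y⟩ := Finset.mem_filter.1 hw'
      have hff : f w = f w' := by rw [hwy, hw'y]
      obtain ⟨⟨x, hx⟩, _, ⟨z, hz⟩⟩ := hQ w hw
      obtain ⟨⟨x', hx'⟩, _, ⟨z', hz'⟩⟩ := hQ w' hw'S
      have ex : x = x' := by
        have e := congrArg Prod.fst hff
        simp only [hf] at e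
        rw [hx, hx', Int.mul_ediv_cancel_left _ hQp.ne', Int.mul_ediv_cancel_left _ hQp.ne'] at e
        exact e
      have ez : z = z' := by
        have e := congrArg Prod.snd hff
        simp only [hf] at e
        rw [hz, hz', Int.mul_ediv_cancel_left _ hQp.ne', Int.mul_ediv_cancel_left _ hQp.ne'] at e
        exact e
      have c1 : (cr w0 w).1 = (cr w0 w').1 := by rw [hx, hx', ex]
      have c3 : (cr w0 w).2.2 = (cr w0 w').2.2 := by rw [hz, hz', ez]
      have c2 : (cr w0 w).2.1 = (cr w0 w').2.1 := by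
        have d1 := (dt_cr w0 w).1
        have d2 := (dt_cr w0 w').1
        unfold dt at d1 d2
        rw [c1, c3] at d1
        have d3 : ((cr w0 w).2.1 - (cr w0 w').2.1) * w0.2.1 = 0 := by linarith
        rcases mul_eq_zero.1 d3 with h | h
        · linarith
        · exact absurd h hb
      have hc : cr w0 w = cr w0 w' := Prod.ext c1 (Prod.ext c2 c3)
      obtain ⟨t, t1, t2, t3⟩ := par w0 w w' hw0 hc
      have hlt := h4 w hw w' hw'S
      rw [t2] at hlt
      have h5 : |w.2.1 - (w.2.1 + t * w0.2.1)| = |t| * |w0.2.1| := by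
        rw [← abs_mul, ← abs_neg]
        congr 1
        ring
      rw [h5] at hlt
      have h6 : |t| < 4 := lt_of_mul_lt_mul_right hlt (abs_nonneg _)
      have h7 := abs_lt.1 h6
      rw [Finset.mem_image]
      refine ⟨t, Finset.mem_Icc.2 ⟨by omega, by omega⟩, ?_⟩
      exact Prod.ext t1.symm (Prod.ext t2.symm t3.symm)
    calc (S.filter (fun x => f x = y)).card ≤ _ := Finset.card_le_card hsub
      _ ≤ (Finset.Icc (-3 : ℤ) 3).card := Finset.card_image_le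
      _ = 7 := by decide
  have hmain : S.card ≤ 7 * (S.image f).card :=
    Finset.card_le_mul_card_image S 7 hfib
  calc (S.card : ℝ) ≤ ((7 * (S.image f).card : ℕ) : ℝ) := by exact_mod_cast hmain
    _ = 7 * ((S.image f).card : ℝ) := by push_cast; ring
    _ ≤ 7 * (1 + 2 / lam + 12 * (K1 * K3 / V)) := by
      exact mul_le_mul_of_nonneg_left hR (by norm_num)

end Pool.Agent.SMQ
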