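import Pool.Agent.SMQ.Crs

/-!
# SMQ/Mem: the vectors orthogonal to `w` belong to the lattice of `u` and `v`

PROOF of `mem`.  By `perp_eq` there is `e` with `k = cr w e`.  Let `e' = (m_1 e_1, m_2 e_2, m_3 e_3)`.
`k_1 = w_2 e_3 - w_3 e_2`, so `h m_2 m_3 k_1 = (m_2 h w_2) (m_3 e_3) - (m_3 h w_3) (m_2 e_2)`, which is the first
coordinate of `cr (gv m h w) e'`; the same for the others.  `G * gv m h w = cr u v` (hypotheses `hg`) and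
`cr (cr u v) e' = v (u . e') - u (v . e')`, so `s = - dt v e'`, `t = dt u e'` work.
PROOF of `lmb`.  `s = t = 0` would give `k = 0` (`G, h, m_i ≥ 1`).  The field `lb` of `t2` for these `s, t` reads
`√N4 (G |g2|) ≤ √N2 (G h m_1 m_2 |k_3| √N3 + G h m_2 m_3 |k_1| √N1)` with `g2 = m_2 h w_2`; divide by `G`.
-/

set_option autoImplicit false

namespace Pool.Agent.SMQ

theorem mem (m : ℕ × ℕ × ℕ) (h : ℕ) (w k u v : V3) (hw : Pr w) (hk : dt k w = 0)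
    (G : ℕ) (hg1 : (G : ℤ) * (gv m h w).1 = (cr u v).1)
    (hg2 : (G : ℤ) * (gv m h w).2.1 = (cr u v).2.1) (hg3 : (G : ℤ) * (gv m h w).2.2 = (cr u v).2.2) :
    ∃ s t : ℤ, (G : ℤ) * (h * m.2.1 * m.2.2 * k.1) = s * u.1 + t * v.1 ∧
      (G : ℤ) * (h * m.2.2 * m.1 * k.2.1) = s * u.2.1 + t * v.2.1 ∧
      (G : ℤ) * (h * m.1 * m.2.1 * k.2.2) = s * u.2.2 + t * v.2.2 := by
  obtain ⟨e, rfl⟩ := perp_eq w k hw hk
  simp only [gv, cr] at hg1 hg2 hg3 ⊢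
  refine ⟨-(v.1 * (m.1 * e.1) + v.2.1 * (m.2.1 * e.2.1) + v.2.2 * (m.2.2 * e.2.2)),
    u.1 * (m.1 * e.1) + u.2.1 * (m.2.1 * e.2.1) + u.2.2 * (m.2.2 * e.2.2), ?_, ?_, ?_⟩
  · linear_combination (m.2.2 * e.2.2 : ℤ) * hg2 - (m.2.1 * e.2.1 : ℤ) * hg3
  · linear_combination (m.1 * e.1 : ℤ) * hg3 - (m.2.2 * e.2.2 : ℤ) * hg1
  · linear_combination (m.2.1 * e.2.1 : ℤ) * hg1 - (m.1 * e.1 : ℤ) * hg2

theorem lmb (D G : ℕ) (p : ℤ) (y w k : V3) (N : ℕ × ℕ × ℕ) (N4 : ℕ) (u v : V3) (m : ℕ × ℕ × ℕ)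
    (h : ℕ) (hh : 1 ≤ h) (hm1 : 1 ≤ m.1) (hm2 : 1 ≤ m.2.1) (hm3 : 1 ≤ m.2.2) (hw : Pr w)
    (ht : Tri D G p y (gv m h w) N N4 u v) (hk : dt k w = 0) (hk0 : k ≠ 0) :
    √(N4 : ℝ) * |((gv m h w).2.1 : ℝ)| ≤ √(N.2.1 : ℝ) *
      ((h : ℝ) * m.1 * m.2.1 * |(k.2.2 : ℝ)| * √(N.2.2 : ℝ) +
        (h : ℝ) * m.2.1 * m.2.2 * |(k.1 : ℝ)| * √(N.1 : ℝ)) := by
  obtain ⟨s, t, e1, e2, e3⟩ := mem m h w k u v hw hk G ht.t1.cr ht.t2.cr ht.t3.cr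
  have hG : (0 : ℤ) < (G : ℤ) := by exact_mod_cast ht.hG
  have hh' : (0 : ℤ) < (h : ℤ) := by exact_mod_cast hh
  have h1' : (0 : ℤ) < (m.1 : ℤ) := by exact_mod_cast hm1
  have h2' : (0 : ℤ) < (m.2.1 : ℤ) := by exact_mod_cast hm2
  have h3' : (0 : ℤ) < (m.2.2 : ℤ) := by exact_mod_cast hm3
  have hst : s ≠ 0 ∨ t ≠ 0 := by
    by_contra hcon
    push Not at hcon
    obtain ⟨rfl, rfl⟩ := hcon
    apply hk0
    have f1 : k.1 = 0 := by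
      have h5 : ((G : ℤ) * (h * m.2.1 * m.2.2)) * k.1 = 0 := by linear_combination e1
      exact (mul_eq_zero.1 h5).resolve_left (by positivity)
    have f2 : k.2.1 = 0 := by
      have h5 : ((G : ℤ) * (h * m.2.2 * m.1)) * k.2.1 = 0 := by linear_combination e2
      exact (mul_eq_zero.1 h5).resolve_left (by positivity)
    have f3 : k.2.2 = 0 := by
      have h5 : ((G : ℤ) * (h * m.1 * m.2.1)) * k.2.2 = 0 := by linear_combination e3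
      exact (mul_eq_zero.1 h5).resolve_left (by positivity)
    exact Prod.ext f1 (Prod.ext f2 f3)
  have hlb := ht.t2.lb s t hst
  rw [← e3, ← e1] at hlb
  have hGr : (0 : ℝ) < (G : ℝ) := by exact_mod_cast hG
  have g3 : |(((G : ℤ) * (h * m.1 * m.2.1 * k.2.2) : ℤ) : ℝ)| =
      (G : ℝ) * ((h : ℝ) * m.1 * m.2.1 * |(k.2.2 : ℝ)|) := by
    push_cast
    rw [abs_mul, abs_mul, abs_of_pos hGr, abs_of_nonneg (by positivity : (0 : ℝ) ≤ (h : ℝ) * m.1 * m.2.1)]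
  have g1 : |(((G : ℤ) * (h * m.2.1 * m.2.2 * k.1) : ℤ) : ℝ)| =
      (G : ℝ) * ((h : ℝ) * m.2.1 * m.2.2 * |(k.1 : ℝ)|) := by
    push_cast
    rw [abs_mul, abs_mul, abs_of_pos hGr, abs_of_nonneg (by positivity : (0 : ℝ) ≤ (h : ℝ) * m.2.1 * m.2.2)]
  rw [g3, g1] at hlb
  apply le_of_mul_le_mul_left _ hGr
  calc (G : ℝ) * (√(N4 : ℝ) * |((gv m h w).2.1 : ℝ)|)
      = √(N4 : ℝ) * ((G : ℝ) * |((gv m h w).2.1 : ℝ)|) := by ring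
    _ ≤ _ := hlb
    _ = _ := by ring

end Pool.Agent.SMQ
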