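import Pool.Agent.SMQ.BxB

/-!
# SMQ/Rat: the ratio `g2 / g3` is almost determined by `(p, y)`

PROOF of `rat`.  Let `δ2 = Δ N2 / (p g2 ^ 2)`, `δ3 = Δ N3 / (p g3 ^ 2)`, and `δ2'`, `δ3'` for the second
tuple.  The identities of the indices 2, 3 give `1 + δ2 = y2 g3 g1 / (p g2 ^ 2)`, `1 + δ3 = y3 g1 g2 / (p g3 ^ 2)`,
so (also if `g1 = 0`) `y3 g2 ^ 3 (1 + δ2) = y2 g3 ^ 3 (1 + δ3)` after multiplication with `p g2 g3 …`; i.e. with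
`r = g2 / g3`, `ρ = y2 / y3`: `r ^ 3 (1 + δ2) = ρ (1 + δ3)`, and the same for the second tuple.
Let `A = |Δ| / |p|`, `a = max` of the four `|δ|`.
By `t23`, `N2 / g2 ^ 2 ≤ 2 n2 / a2 ^ 2 ≤ 12 √n2 √n3 / (a2 a3)` (`√n2 / a2 ≤ 6 √n3 / a3`), the same for
`N3 / g3 ^ 2`: so `a ≤ 12 A √(n2 n3) / (a2 a3)`.
If `a > 1 / 4`: `|g2 g3' - g3 g2'| ≤ 8 a2 a3 ≤ 32 a a2 a3 ≤ 384 A √(n2 n3)`.
If `a ≤ 1 / 4`: `r r' ≠ 0`, `(r / r') ^ 3 = (1 + δ3) (1 + δ2') / ((1 + δ2) (1 + δ3'))`, which is `1 + η` with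
`|η| ≤ (4 a + 2 a ^ 2) / (9 / 16) ≤ 8 a`; with `x = r / r'`: `(x - 1) (x ^ 2 + x + 1) = η`, `x ^ 2 + x + 1 ≥ 3 / 4`, so
`|x - 1| ≤ 32 a / 3`; `|g2 g3' - g3 g2'| = |x - 1| |g3 g2'| ≤ (32 a / 3) 4 a2 a3 ≤ 43 a a2 a3 ≤ 516 A √(n2 n3)`.
-/

set_option autoImplicit false

namespace Pool.Agent.SMQ

private lemma rat_real (d2 d3 d2' d3' a s t : ℝ) (h1 : |d2| ≤ a) (h2 : |d3| ≤ a) (h3 : |d2'| ≤ a)
    (h4 : |d3'| ≤ a) (ha : a ≤ 1 / 4)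
    (hst : s ^ 3 * ((1 + d2) * (1 + d3')) = t ^ 3 * ((1 + d2') * (1 + d3))) :
    |s - t| ≤ 32 / 3 * a * |t| := by
  have ha0 : 0 ≤ a := (abs_nonneg _).trans h1
  have b1 := abs_le.1 h1
  have b2 := abs_le.1 h2
  have b3 := abs_le.1 h3
  have b4 := abs_le.1 h4
  obtain ⟨u, hu⟩ : ∃ u : ℝ, u = (1 + d2) * (1 + d3') := ⟨_, rfl⟩
  obtain ⟨v, hv⟩ : ∃ v : ℝ, v = (1 + d2') * (1 + d3) := ⟨_, rfl⟩
  rw [← hu, ← hv] at hst
  have hu1 : 9 / 16 ≤ u := by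
    rw [hu]
    nlinarith [mul_nonneg (show (0:ℝ) ≤ 1 + d2 - 3 / 4 by linarith) (show (0:ℝ) ≤ 1 + d3' - 3 / 4 by linarith)]
  have hm1 : |d2' * d3| ≤ a * a := by
    rw [abs_mul]
    exact mul_le_mul h3 h2 (abs_nonneg _) ha0
  have hm2 : |d2 * d3'| ≤ a * a := by
    rw [abs_mul]
    exact mul_le_mul h1 h4 (abs_nonneg _) ha0
  have c1 := abs_le.1 hm1
  have c2 := abs_le.1 hm2
  have haa : a * a ≤ a / 4 := by nlinarith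
  have hvu : |v - u| ≤ 9 / 2 * a := by
    rw [abs_le, hu, hv]
    constructor <;> nlinarith
  -- the difference of the cubes
  have e1 : (s ^ 3 - t ^ 3) * u = t ^ 3 * (v - u) := by linear_combination hst
  have e2 : |s ^ 3 - t ^ 3| * (9 / 16) ≤ |t| ^ 3 * (9 / 2 * a) := by
    have h5 : |s ^ 3 - t ^ 3| * u = |t| ^ 3 * |v - u| := by
      have := congrArg abs e1
      rw [abs_mul, abs_mul, abs_pow, abs_of_pos (show (0:ℝ) < u by linarith)] at this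
      exact this
    calc |s ^ 3 - t ^ 3| * (9 / 16) ≤ |s ^ 3 - t ^ 3| * u :=
          mul_le_mul_of_nonneg_left hu1 (abs_nonneg _)
      _ = |t| ^ 3 * |v - u| := h5
      _ ≤ |t| ^ 3 * (9 / 2 * a) := mul_le_mul_of_nonneg_left hvu (by positivity)
  have e3 : s ^ 3 - t ^ 3 = (s - t) * (s ^ 2 + s * t + t ^ 2) := by ring
  have e4 : 3 / 4 * t ^ 2 ≤ s ^ 2 + s * t + t ^ 2 := by nlinarith [sq_nonneg (s + t / 2)]
  have e5 : |s - t| * (3 / 4 * t ^ 2) ≤ |s ^ 3 - t ^ 3| := by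
    rw [e3, abs_mul, abs_of_nonneg (show (0:ℝ) ≤ s ^ 2 + s * t + t ^ 2 by nlinarith [sq_nonneg t])]
    exact mul_le_mul_of_nonneg_left e4 (abs_nonneg _)
  by_cases ht : t = 0
  · subst ht
    have h6 : s ^ 3 * u = 0 := by rw [hst]; ring
    have h7 : s = 0 := by
      rcases mul_eq_zero.1 h6 with h | h
      · exact pow_eq_zero_iff (by norm_num) |>.1 h
      · linarith
    rw [h7]
    simp
  · have ht0 : 0 < |t| := abs_pos.2 ht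
    have e6 : |s - t| * (3 / 4 * |t| ^ 2) ≤ 8 * a * |t| * |t| ^ 2 := by
      rw [sq_abs]
      have : |t| ^ 3 = |t| * t ^ 2 := by rw [pow_succ, sq_abs]; ring
      rw [this] at e2
      nlinarith
    have ht2 : 0 < |t| ^ 2 := by positivity
    have e7 : |s - t| * (3 / 4) ≤ 8 * a * |t| := by
      have : (|s - t| * (3 / 4)) * |t| ^ 2 ≤ (8 * a * |t|) * |t| ^ 2 := by nlinarith
      exact le_of_mul_le_mul_right this ht2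
    linarith

private lemma rat_dl (N n n' a b g s s' : ℝ) (ha : 0 < a) (hb : 0 < b) (hs : 0 ≤ s)
    (hn : s ^ 2 = n) (hN : N ≤ 2 * n) (hN0 : 0 ≤ N) (hg : a ≤ |g|)
    (hab : b * s ≤ 6 * (a * s')) :
    N / g ^ 2 ≤ 12 * (s * s') / (a * b) := by
  have hg2 : a ^ 2 ≤ g ^ 2 := by
    rw [← sq_abs g]
    exact pow_le_pow_left₀ ha.le hg 2
  have ha2 : 0 < a ^ 2 := by positivity
  have h1 : N / g ^ 2 ≤ 2 * s ^ 2 / a ^ 2 := by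
    apply div_le_div₀ (by positivity) (by rw [hn]; exact hN) ha2 hg2
  refine h1.trans ?_
  rw [div_le_div_iff₀ ha2 (by positivity)]
  have h2 := mul_le_mul_of_nonneg_left hab (show (0:ℝ) ≤ 2 * s * a by positivity)
  nlinarith

theorem rat (d n1 n2 n3 a2 a3 D D' G : ℕ) (p : ℤ) (y g g' : V3) (N N' : ℕ × ℕ × ℕ) (N4 N4' : ℕ)
    (u v u' v' : V3) (h : Tri D G p y g N N4 u v) (hb : Bo d n1 n2 n3 a2 a3 D N g)
    (h' : Tri D' G p y g' N' N4' u' v') (hb' : Bo d n1 n2 n3 a2 a3 D' N' g') :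
    |((g.2.1 * g'.2.2 - g.2.2 * g'.2.1 : ℤ) : ℝ)| ≤
      600 * (|(De p y : ℝ)| / |(p : ℝ)|) * (√(n2 : ℝ) * √(n3 : ℝ)) := by
  obtain ⟨ht1, ht2⟩ := t23 d n1 n2 n3 a2 a3 D G p y g N N4 u v h hb
  have hp0 : (p : ℝ) ≠ 0 := by exact_mod_cast h.hp
  have hD0 : (De p y : ℝ) ≠ 0 := by exact_mod_cast h.hD
  have hy2 : (y.2.1 : ℝ) ≠ 0 := by exact_mod_cast h.t2.hy
  have hy3 : (y.2.2 : ℝ) ≠ 0 := by exact_mod_cast h.t3.hy
  have ha2 : (0 : ℝ) < a2 := by exact_mod_cast hb.a20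
  have ha3 : (0 : ℝ) < a3 := by exact_mod_cast hb.a30
  have hg2 : (a2 : ℝ) ≤ |(g.2.1 : ℝ)| := by exact_mod_cast hb.a21
  have hg3 : (a3 : ℝ) ≤ |(g.2.2 : ℝ)| := by exact_mod_cast hb.a31
  have hg2' : (a2 : ℝ) ≤ |(g'.2.1 : ℝ)| := by exact_mod_cast hb'.a21
  have hg3' : (a3 : ℝ) ≤ |(g'.2.2 : ℝ)| := by exact_mod_cast hb'.a31
  have hG2 : |(g.2.1 : ℝ)| ≤ 2 * (a2 : ℝ) := by exact_mod_cast hb.a22.le
  have hG3 : |(g.2.2 : ℝ)| ≤ 2 * (a3 : ℝ) := by exact_mod_cast hb.a32.le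
  have hG2' : |(g'.2.1 : ℝ)| ≤ 2 * (a2 : ℝ) := by exact_mod_cast hb'.a22.le
  have hG3' : |(g'.2.2 : ℝ)| ≤ 2 * (a3 : ℝ) := by exact_mod_cast hb'.a32.le
  have hN2 : (N.2.1 : ℝ) ≤ 2 * n2 := by exact_mod_cast hb.n22.le
  have hN3 : (N.2.2 : ℝ) ≤ 2 * n3 := by exact_mod_cast hb.n32.le
  have hN2' : (N'.2.1 : ℝ) ≤ 2 * n2 := by exact_mod_cast hb'.n22.le
  have hN3' : (N'.2.2 : ℝ) ≤ 2 * n3 := by exact_mod_cast hb'.n32.le
  have i2 : (N.2.1 : ℝ) * De p y = y.2.1 * g.2.2 * g.1 - p * (g.2.1 : ℝ) ^ 2 := by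
    have := h.t2.hi
    have e : De p y = y.2.1 * y.2.2 * y.1 - p ^ 3 := by unfold De; ring
    rw [← e] at this
    exact_mod_cast this
  have i3 : (N.2.2 : ℝ) * De p y = y.2.2 * g.1 * g.2.1 - p * (g.2.2 : ℝ) ^ 2 := by
    have := h.t3.hi
    have e : De p y = y.2.2 * y.1 * y.2.1 - p ^ 3 := by unfold De; ring
    rw [← e] at this
    exact_mod_cast this
  have i2' : (N'.2.1 : ℝ) * De p y = y.2.1 * g'.2.2 * g'.1 - p * (g'.2.1 : ℝ) ^ 2 := by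
    have := h'.t2.hi
    have e : De p y = y.2.1 * y.2.2 * y.1 - p ^ 3 := by unfold De; ring
    rw [← e] at this
    exact_mod_cast this
  have i3' : (N'.2.2 : ℝ) * De p y = y.2.2 * g'.1 * g'.2.1 - p * (g'.2.2 : ℝ) ^ 2 := by
    have := h'.t3.hi
    have e : De p y = y.2.2 * y.1 * y.2.1 - p ^ 3 := by unfold De; ring
    rw [← e] at this
    exact_mod_cast this
  have hs2 : √(n2 : ℝ) ^ 2 = (n2 : ℝ) := Real.sq_sqrt (by positivity)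
  have hs3 : √(n3 : ℝ) ^ 2 = (n3 : ℝ) := Real.sq_sqrt (by positivity)
  have hr2 : 0 ≤ √(n2 : ℝ) := Real.sqrt_nonneg _
  have hr3 : 0 ≤ √(n3 : ℝ) := Real.sqrt_nonneg _
  have k2 := rat_dl N.2.1 n2 n3 a2 a3 g.2.1 _ _ ha2 ha3 hr2 hs2 hN2 (by positivity) hg2 ht2
  have k3 := rat_dl N.2.2 n3 n2 a3 a2 g.2.2 _ _ ha3 ha2 hr3 hs3 hN3 (by positivity) hg3 ht1
  have k2' := rat_dl N'.2.1 n2 n3 a2 a3 g'.2.1 _ _ ha2 ha3 hr2 hs2 hN2' (by positivity) hg2' ht2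
  have k3' := rat_dl N'.2.2 n3 n2 a3 a2 g'.2.2 _ _ ha3 ha2 hr3 hs3 hN3' (by positivity) hg3' ht1
  rw [show 12 * (√(n3 : ℝ) * √(n2 : ℝ)) / ((a3 : ℝ) * a2) =
    12 * (√(n2 : ℝ) * √(n3 : ℝ)) / ((a2 : ℝ) * a3) by rw [mul_comm (√(n3 : ℝ)), mul_comm (a3 : ℝ)]]
    at k3 k3'
  -- generalise to real numbers
  have hx2 : (g.2.1 : ℝ) ≠ 0 := by
    intro h0; rw [h0, abs_zero] at hg2; linarith
  have hx3 : (g.2.2 : ℝ) ≠ 0 := by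
    intro h0; rw [h0, abs_zero] at hg3; linarith
  have hx2' : (g'.2.1 : ℝ) ≠ 0 := by
    intro h0; rw [h0, abs_zero] at hg2'; linarith
  have hx3' : (g'.2.2 : ℝ) ≠ 0 := by
    intro h0; rw [h0, abs_zero] at hg3'; linarith
  rw [show ((g.2.1 * g'.2.2 - g.2.2 * g'.2.1 : ℤ) : ℝ) =
    (g.2.1 : ℝ) * g'.2.2 - (g'.2.1 : ℝ) * g.2.2 by push_cast; ring]
  obtain ⟨A, hA⟩ : ∃ A : ℝ, A = |(De p y : ℝ)| / |(p : ℝ)| := ⟨_, rfl⟩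
  have hA0 : 0 ≤ A := by rw [hA]; positivity
  obtain ⟨r, hr⟩ : ∃ r : ℝ, r = √(n2 : ℝ) * √(n3 : ℝ) := ⟨_, rfl⟩
  have hr0 : 0 ≤ r := by rw [hr]; positivity
  rw [← hr] at k2 k3 k2' k3'
  rw [← hA, ← hr]
  obtain ⟨a, ha⟩ : ∃ a : ℝ, a = A * (12 * r / ((a2 : ℝ) * a3)) := ⟨_, rfl⟩
  have ha0 : 0 ≤ a := by rw [ha]; positivity
  have haa : a * (a2 * a3) = 12 * A * r := by
    rw [ha]
    field_simp
  have key : ∀ (M x : ℝ), 0 ≤ M → M / x ^ 2 ≤ 12 * r / ((a2 : ℝ) * a3) →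
      |(De p y : ℝ) * M / (p * x ^ 2)| ≤ a := by
    intro M x hM hMx
    have e : (De p y : ℝ) * M / (p * x ^ 2) = (De p y : ℝ) / p * (M / x ^ 2) := by
      rw [mul_div_mul_comm]
    rw [e, abs_mul, abs_div, ← hA, ha, abs_of_nonneg (show (0:ℝ) ≤ M / x ^ 2 by positivity)]
    exact mul_le_mul_of_nonneg_left hMx hA0
  have q2 := key N.2.1 g.2.1 (by positivity) k2
  have q3 := key N.2.2 g.2.2 (by positivity) k3
  have q2' := key N'.2.1 g'.2.1 (by positivity) k2'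
  have q3' := key N'.2.2 g'.2.2 (by positivity) k3'
  have hs : |(g.2.1 : ℝ) * g'.2.2| ≤ 4 * (a2 * a3) := by
    rw [abs_mul]
    have := mul_le_mul hG2 hG3' (abs_nonneg _) (by positivity)
    linarith
  have ht : |(g'.2.1 : ℝ) * g.2.2| ≤ 4 * (a2 * a3) := by
    rw [abs_mul]
    have := mul_le_mul hG2' hG3 (abs_nonneg _) (by positivity)
    linarith
  by_cases hc : a ≤ 1 / 4
  · -- the main case
    have hid : ((g.2.1 : ℝ) * g'.2.2) ^ 3 * ((1 + (De p y : ℝ) * N.2.1 / (p * (g.2.1 : ℝ) ^ 2)) *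
        (1 + (De p y : ℝ) * N'.2.2 / (p * (g'.2.2 : ℝ) ^ 2))) =
        ((g'.2.1 : ℝ) * g.2.2) ^ 3 * ((1 + (De p y : ℝ) * N'.2.1 / (p * (g'.2.1 : ℝ) ^ 2)) *
        (1 + (De p y : ℝ) * N.2.2 / (p * (g.2.2 : ℝ) ^ 2))) := by
      have f2 : p * (g.2.1 : ℝ) ^ 2 * (1 + (De p y : ℝ) * N.2.1 / (p * (g.2.1 : ℝ) ^ 2)) =
          y.2.1 * g.2.2 * g.1 := by
        field_simp
        linear_combination i2
      have f3 : p * (g.2.2 : ℝ) ^ 2 * (1 + (De p y : ℝ) * N.2.2 / (p * (g.2.2 : ℝ) ^ 2)) =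
          y.2.2 * g.1 * g.2.1 := by
        field_simp
        linear_combination i3
      have f2' : p * (g'.2.1 : ℝ) ^ 2 * (1 + (De p y : ℝ) * N'.2.1 / (p * (g'.2.1 : ℝ) ^ 2)) =
          y.2.1 * g'.2.2 * g'.1 := by
        field_simp
        linear_combination i2'
      have f3' : p * (g'.2.2 : ℝ) ^ 2 * (1 + (De p y : ℝ) * N'.2.2 / (p * (g'.2.2 : ℝ) ^ 2)) =
          y.2.2 * g'.1 * g'.2.1 := by
        field_simp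
        linear_combination i3'
      obtain ⟨w2, hw2⟩ : ∃ w : ℝ, w = 1 + (De p y : ℝ) * N.2.1 / (p * (g.2.1 : ℝ) ^ 2) := ⟨_, rfl⟩
      obtain ⟨w3, hw3⟩ : ∃ w : ℝ, w = 1 + (De p y : ℝ) * N.2.2 / (p * (g.2.2 : ℝ) ^ 2) := ⟨_, rfl⟩
      obtain ⟨w2', hw2'⟩ : ∃ w : ℝ, w = 1 + (De p y : ℝ) * N'.2.1 / (p * (g'.2.1 : ℝ) ^ 2) :=
        ⟨_, rfl⟩
      obtain ⟨w3', hw3'⟩ : ∃ w : ℝ, w = 1 + (De p y : ℝ) * N'.2.2 / (p * (g'.2.2 : ℝ) ^ 2) :=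
        ⟨_, rfl⟩
      rw [← hw2] at f2 ⊢
      rw [← hw3] at f3 ⊢
      rw [← hw2'] at f2' ⊢
      rw [← hw3'] at f3' ⊢
      have hpp : (p : ℝ) ^ 2 ≠ 0 := pow_ne_zero _ hp0
      apply mul_left_cancel₀ hpp
      have g1 : (p : ℝ) ^ 2 * (((g.2.1 : ℝ) * g'.2.2) ^ 3 * (w2 * w3')) =
          ((g.2.1 : ℝ) * g'.2.2) * ((p * (g.2.1 : ℝ) ^ 2 * w2) * (p * (g'.2.2 : ℝ) ^ 2 * w3')) := by
        ring
      have g2 : (p : ℝ) ^ 2 * (((g'.2.1 : ℝ) * g.2.2) ^ 3 * (w2' * w3)) =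
          ((g'.2.1 : ℝ) * g.2.2) * ((p * (g'.2.1 : ℝ) ^ 2 * w2') * (p * (g.2.2 : ℝ) ^ 2 * w3)) := by
        ring
      rw [g1, g2, f2, f3', f2', f3]
      ring
    have := rat_real _ _ _ _ a _ _ q2 q3 q2' q3' hc hid
    refine this.trans ?_
    have h9 : 32 / 3 * a * |(g'.2.1 : ℝ) * g.2.2| ≤ 32 / 3 * a * (4 * (a2 * a3)) :=
      mul_le_mul_of_nonneg_left ht (by positivity)
    have h10 : 32 / 3 * a * (4 * ((a2 : ℝ) * a3)) = 512 * (A * r) := by linear_combination (128 / 3) * haa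
    have h11 : 0 ≤ A * r := by positivity
    nlinarith
  · push Not at hc
    have h8 := abs_sub ((g.2.1 : ℝ) * g'.2.2) ((g'.2.1 : ℝ) * g.2.2)
    have h9 : (a2 : ℝ) * a3 ≤ 4 * (a * (a2 * a3)) := by
      have : 0 < (a2 : ℝ) * a3 := by positivity
      nlinarith
    have h11 : 0 ≤ A * r := by positivity
    rw [haa] at h9
    nlinarith

end Pool.Agent.SMQ
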