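import Pool.Agent.SMQ.ClA
import Pool.Agent.SMQ.Rat
import Pool.Agent.SMQ.Mem
import Pool.Agent.SMQ.BxA

/-!
# SMQ/ClB: the class bound

`B0 = n1 n2 n3 / √d`, `M = m_1 m_2 m_3`, `W = M c / h`, `c = gcd (|E|, h ^ 2)`, `Q = |E| / c`.

PROOF.  If `S` is empty the bound is clear; let `w0 ∈ S`.  Put `A1 = 8 n1 √(n2 n3 / d)`,
`K1 = min (600 (|Δ| / |p|) √n2 √n3) (8 a2 a3) / (m_2 m_3 h ^ 2 Q)`, `K3 = 4 A1 a2 / (m_1 m_2 h ^ 2 Q)`,
`V = a2 / (m_2 h)`, `nm = min n1 (min n2 n3)`, `lam = √nm h Q / (192 B0)`; all are positive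
(`Δ ≠ 0`, `E ≠ 0`, `Q ≥ 1` as `c ∣ |E|`).  Apply `cla_lat`:
`h1`: `(cr w0 w).1 = w0_2 w_3 - w0_3 w_2` and `m_2 m_3 h ^ 2 (cr w0 w).1 = g0_2 g_3 - g0_3 g_2`, which is at most
`600 (|Δ| / |p|) √n2 √n3` by `rat` and at most `2 (2 a2) (2 a3)`.  The third coordinate: `m_1 m_2 h ^ 2 (cr w0 w).2.2 =
g0_1 g_2 - g0_2 g_1`, at most `2 A1 (2 a2)` by `bg1`.
`h3`: `m_2 h |w0_2| = |g0_2| ≥ a2`.  `h4`: `m_2 h |w_2 - w'_2| ≤ |g_2| + |g'_2| < 4 a2 ≤ 4 m_2 h |w0_2|`.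
`h2`: suppose `|k_1| < lam K1` and `|k_3| < lam K3`.  By `lmb` (and `N_i < 2 n_i`)
`√N4 a2 ≤ √(2 n2) (h m_1 m_2 |k_3| √(2 n3) + h m_2 m_3 |k_1| √(2 n1)) < 2 lam √n2 (h m_1 m_2 K3 √n3 + h m_2 m_3 K1 √n1)
≤ (2 lam / (h Q)) √n2 (4 A1 a2 √n3 + 8 a2 a3 √n1)`, and `√n2 √n3 A1 = 8 B0`, `√n1 √n2 a3 ≤ 8 B0` (`bg3`), so
`√N4 a2 < 192 lam a2 B0 / (h Q) = √nm a2`; but `nm ≤ N4` by `s4` (and `n_i ≤ N_i`): contradiction.
Then `2 / lam = 384 B0 / (√nm h Q)` and `h Q = h |Δ| / (M c)` (as `|Δ| = M |E| = M Q c`), so it is `384 B0 W / (√nm |Δ|)`.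
`K1 K3 / V ≤ 600 (|Δ| / |p|) √n2 √n3 4 A1 / (M h ^ 3 Q ^ 2) = 19200 B0 |Δ| / (|p| M h ^ 3 Q ^ 2)
= 19200 B0 M c ^ 2 / (|p| |Δ| h ^ 3) ≤ 19200 B0 W / (|p| |Δ|)` as `c ≤ h ^ 2`.
Finally `7 * 12 * 19200 ≤ 2000000`.
-/

set_option autoImplicit false

namespace Pool.Agent.SMQ

private lemma ClB_sq (n N : ℕ) (h : N < 2 * n) : √(N : ℝ) ≤ √2 * √(n : ℝ) := by
  rw [← Real.sqrt_mul (by norm_num)]
  apply Real.sqrt_le_sqrt
  have : (N : ℝ) < 2 * n := by exact_mod_cast h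
  exact this.le

private lemma ClB_A (n1 n2 n3 d : ℕ) :
    √(n2 : ℝ) * √(n3 : ℝ) * (8 * n1 * √((n2 : ℝ) * n3 / d)) = 8 * B0 d n1 n2 n3 := by
  unfold B0
  rw [Real.sqrt_div (by positivity), Real.sqrt_mul (by positivity)]
  have h2 : √(n2 : ℝ) * √(n2 : ℝ) = n2 := Real.mul_self_sqrt (by positivity)
  have h3 : √(n3 : ℝ) * √(n3 : ℝ) = n3 := Real.mul_self_sqrt (by positivity)
  calc _ = 8 * (n1 * (√(n2 : ℝ) * √(n2 : ℝ)) * (√(n3 : ℝ) * √(n3 : ℝ)) / √(d : ℝ)) := by ring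
    _ = _ := by rw [h2, h3]

/-- the inequality for `h2` -/
private lemma ClB_h2 (s1 s2 s3 S1 S2 S3 A1 a2 a3 m1 m2 m3 h Q B x4 xm g2 k1 k3 lam K1 K3 t : ℝ)
    (hs1 : 0 < s1) (hs2 : 0 < s2) (hs3 : 0 < s3) (ht : t * t = 2) (ht0 : 0 < t)
    (hS1 : S1 ≤ t * s1) (hS2 : S2 ≤ t * s2) (hS3 : S3 ≤ t * s3) (hS1' : 0 ≤ S1) (hS3' : 0 ≤ S3)
    (ha2 : 0 < a2) (hm1 : 0 < m1) (hm2 : 0 < m2) (hm3 : 0 < m3) (hh : 0 < h)
    (hQ : 0 < Q) (hlam : 0 < lam) (hk1' : 0 ≤ k1) (hk3' : 0 ≤ k3)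
    (hx4 : xm ≤ x4) (hxm : 0 ≤ xm) (hg2 : a2 ≤ g2)
    (hK1 : m2 * m3 * h ^ 2 * Q * K1 ≤ 8 * a2 * a3) (hK3 : m1 * m2 * h ^ 2 * Q * K3 = 4 * A1 * a2)
    (hA : s2 * s3 * A1 = 8 * B) (ha3 : s1 * s2 * a3 ≤ 8 * B)
    (hl : lam * (192 * B) = xm * h * Q)
    (hk1 : k1 < lam * K1) (hk3 : k3 < lam * K3)
    (hmain : x4 * g2 ≤ S2 * (h * m1 * m2 * k3 * S3 + h * m2 * m3 * k1 * S1)) : False := by
  have e1 : x4 * g2 ≤ (t * s2) * (h * m1 * m2 * k3 * (t * s3) + h * m2 * m3 * k1 * (t * s1)) := by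
    refine hmain.trans ?_
    have i1 : h * m1 * m2 * k3 * S3 + h * m2 * m3 * k1 * S1 ≤
        h * m1 * m2 * k3 * (t * s3) + h * m2 * m3 * k1 * (t * s1) := by
      apply add_le_add
      · exact mul_le_mul_of_nonneg_left hS3 (by positivity)
      · exact mul_le_mul_of_nonneg_left hS1 (by positivity)
    exact mul_le_mul hS2 i1 (by positivity) (by positivity)
  have e2 : (t * s2) * (h * m1 * m2 * k3 * (t * s3) + h * m2 * m3 * k1 * (t * s1)) =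
      2 * s2 * (h * m1 * m2 * k3 * s3 + h * m2 * m3 * k1 * s1) := by
    rw [← ht]; ring
  have e3 : 2 * s2 * (h * m1 * m2 * k3 * s3 + h * m2 * m3 * k1 * s1) <
      2 * s2 * (h * m1 * m2 * (lam * K3) * s3 + h * m2 * m3 * (lam * K1) * s1) := by
    apply mul_lt_mul_of_pos_left _ (by positivity)
    apply add_lt_add
    · exact mul_lt_mul_of_pos_right (mul_lt_mul_of_pos_left hk3 (by positivity)) hs3
    · exact mul_lt_mul_of_pos_right (mul_lt_mul_of_pos_left hk1 (by positivity)) hs1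
  have e4 : h * Q * (2 * s2 * (h * m1 * m2 * (lam * K3) * s3 + h * m2 * m3 * (lam * K1) * s1)) ≤
      lam * (192 * B) * a2 := by
    calc h * Q * (2 * s2 * (h * m1 * m2 * (lam * K3) * s3 + h * m2 * m3 * (lam * K1) * s1)) =
        2 * lam * (s2 * s3 * (m1 * m2 * h ^ 2 * Q * K3) + s1 * s2 * (m2 * m3 * h ^ 2 * Q * K1)) := by
          ring
      _ ≤ 2 * lam * (s2 * s3 * (4 * A1 * a2) + s1 * s2 * (8 * a2 * a3)) := by
          apply mul_le_mul_of_nonneg_left _ (by positivity)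
          rw [hK3]
          have := mul_le_mul_of_nonneg_left hK1 (show 0 ≤ s1 * s2 by positivity)
          linarith
      _ = 2 * lam * (4 * a2 * (s2 * s3 * A1) + 8 * a2 * (s1 * s2 * a3)) := by ring
      _ ≤ 2 * lam * (4 * a2 * (8 * B) + 8 * a2 * (8 * B)) := by
          apply mul_le_mul_of_nonneg_left _ (by positivity)
          rw [hA]
          have := mul_le_mul_of_nonneg_left ha3 (show 0 ≤ 8 * a2 by positivity)
          linarith
      _ = lam * (192 * B) * a2 := by ring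
  rw [hl] at e4
  have e5 : h * Q * (x4 * g2) < xm * h * Q * a2 := by
    have : h * Q * (x4 * g2) < h * Q * (2 * s2 *
        (h * m1 * m2 * (lam * K3) * s3 + h * m2 * m3 * (lam * K1) * s1)) := by
      apply mul_lt_mul_of_pos_left _ (by positivity)
      linarith
    linarith
  have e6 : xm * a2 ≤ x4 * g2 := mul_le_mul hx4 hg2 ha2.le (hxm.trans hx4)
  have e7 : h * Q * (xm * a2) ≤ h * Q * (x4 * g2) := mul_le_mul_of_nonneg_left e6 (by positivity)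
  have e8 : h * Q * (xm * a2) = xm * h * Q * a2 := by ring
  linarith

/-- the final inequality -/
private lemma ClB_fin (X s2 s3 A1 a2 m1 m2 m3 h Q B xm lam K1 K3 V c De p : ℝ)
    (hs2 : 0 < s2) (hs3 : 0 < s3) (ha2 : 0 < a2) (hm1 : 0 < m1) (hm2 : 0 < m2)
    (hm3 : 0 < m3) (hh : 0 < h) (hQ : 0 < Q) (hB : 0 < B) (hlam : 0 < lam) (hxm : 0 < xm)
    (hA1 : 0 < A1) (hc : 0 < c) (hch : c ≤ h ^ 2) (hp : 0 < p)
    (hV0 : 0 < V) (hK30 : 0 < K3)
    (hDe : De = m1 * m2 * m3 * (Q * c))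
    (hK1 : m2 * m3 * h ^ 2 * Q * K1 ≤ 600 * (De / p) * (s2 * s3))
    (hK3 : m1 * m2 * h ^ 2 * Q * K3 = 4 * A1 * a2)
    (hA : s2 * s3 * A1 = 8 * B) (hV : m2 * h * V = a2)
    (hl : lam * (192 * B) = xm * h * Q)
    (hX : X ≤ 7 * (1 + 2 / lam + 12 * (K1 * K3 / V))) :
    X ≤ 2000000 * (1 + B * (m1 * m2 * m3 * c / h) / (xm * De) +
      B * (m1 * m2 * m3 * c / h) / (p * De)) := by
  have f1 : 2 / lam = 384 * (B * (m1 * m2 * m3 * c / h) / (xm * De)) := by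
    have : B * (m1 * m2 * m3 * c / h) / (xm * De) = B / (xm * h * Q) := by
      rw [hDe]
      field_simp
    rw [this, ← hl]
    field_simp
    norm_num
  have f2 : K1 * K3 / V ≤ 19200 * (B * (m1 * m2 * m3 * c / h) / (p * De)) := by
    have g0 : B * (m1 * m2 * m3 * c / h) / (p * De) = B / (p * h * Q) := by
      rw [hDe]
      field_simp
    rw [g0]
    have g1 : K1 ≤ 600 * (De / p) * (s2 * s3) / (m2 * m3 * h ^ 2 * Q) := by
      rw [le_div_iff₀ (by positivity)]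
      linarith
    have g2 : K3 = 4 * A1 * a2 / (m1 * m2 * h ^ 2 * Q) := by
      rw [eq_div_iff (by positivity)]
      linarith
    have g3 : V = a2 / (m2 * h) := by
      rw [eq_div_iff (by positivity)]
      linarith
    calc K1 * K3 / V ≤ (600 * (De / p) * (s2 * s3) / (m2 * m3 * h ^ 2 * Q)) * K3 / V := by
          apply div_le_div_of_nonneg_right _ hV0.le
          exact mul_le_mul_of_nonneg_right g1 hK30.le
      _ = 2400 * (s2 * s3 * A1) * c / (p * h ^ 3 * Q) := by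
          rw [g2, g3, hDe]
          field_simp
          norm_num
      _ = 19200 * (B * c / (p * h ^ 3 * Q)) := by rw [hA]; ring
      _ ≤ 19200 * (B / (p * h * Q)) := by
          apply mul_le_mul_of_nonneg_left _ (by norm_num)
          rw [div_le_div_iff₀ (by positivity) (by positivity)]
          have : B * c * (p * h * Q) ≤ B * h ^ 2 * (p * h * Q) :=
            mul_le_mul_of_nonneg_right (mul_le_mul_of_nonneg_left hch hB.le) (by positivity)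
          refine this.trans (le_of_eq ?_)
          ring
  have p1 : 0 ≤ B * (m1 * m2 * m3 * c / h) / (xm * De) := by rw [hDe]; positivity
  have p2 : 0 ≤ B * (m1 * m2 * m3 * c / h) / (p * De) := by rw [hDe]; positivity
  rw [f1] at hX
  linarith

theorem clb (d n1 n2 n3 a2 a3 G : ℕ) (p : ℤ) (y : V3) (m : ℕ × ℕ × ℕ) (p' : ℤ) (y' : V3) (E : ℤ)
    (hr : Rd p y m p' y' E) (h : ℕ) (hh : 1 ≤ h) (S : Finset V3)
    (hS : ∀ w ∈ S, Pr w ∧ InB d n1 n2 n3 a2 a3 G p y (gv m h w))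
    (hc : ∀ w ∈ S, ∀ w' ∈ S, (QQ E h : ℤ) ∣ (cr w w').1 ∧ (QQ E h : ℤ) ∣ (cr w w').2.1 ∧
      (QQ E h : ℤ) ∣ (cr w w').2.2) :
    (S.card : ℝ) ≤ Bd d n1 n2 n3 p y ((m.1 : ℝ) * m.2.1 * m.2.2 * cc E h / h) := by
  classical
  rcases S.eq_empty_or_nonempty with rfl | ⟨w0, hw0⟩
  · simp only [Finset.card_empty, Nat.cast_zero]
    unfold Bd B0
    positivity
  obtain ⟨hP0, D, N, N4, u, v, ht, hb⟩ := hS w0 hw0
  have hm1 : (0 : ℝ) < m.1 := by exact_mod_cast hr.m1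
  have hm2 : (0 : ℝ) < m.2.1 := by exact_mod_cast hr.m2
  have hm3 : (0 : ℝ) < m.2.2 := by exact_mod_cast hr.m3
  have hhr : (0 : ℝ) < h := by exact_mod_cast hh
  have hDe : De p y ≠ 0 := ht.hD
  have hE : E ≠ 0 := by
    rintro rfl
    apply hDe
    rw [hr.hE, mul_zero]
  have hEn : 0 < E.natAbs := Int.natAbs_pos.mpr hE
  have hcd : cc E h ∣ E.natAbs := Nat.gcd_dvd_left _ _
  have hc0 : 0 < cc E h := Nat.gcd_pos_of_pos_left _ hEn
  have hQc : QQ E h * cc E h = E.natAbs := Nat.div_mul_cancel hcd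
  have hQ1 : 1 ≤ QQ E h := Nat.div_pos (Nat.le_of_dvd hEn hcd) hc0
  have hch : cc E h ≤ h ^ 2 := Nat.le_of_dvd (by positivity) (Nat.gcd_dvd_right _ _)
  have hΔ : |(De p y : ℝ)| = (m.1 : ℝ) * m.2.1 * m.2.2 * ((QQ E h : ℝ) * cc E h) := by
    have e1 : |(E : ℝ)| = (QQ E h : ℝ) * cc E h := by
      have e2 : ((|E| : ℤ) : ℝ) = ((QQ E h * cc E h : ℕ) : ℝ) := by
        rw [hQc, Nat.cast_natAbs]
      rw [← Int.cast_abs, e2]
      push_cast
      rfl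
    rw [hr.hE]
    push_cast
    rw [abs_mul, e1, abs_of_pos (by positivity)]
  have hcr : (0 : ℝ) < cc E h := by exact_mod_cast hc0
  have hQr : (0 : ℝ) < QQ E h := by exact_mod_cast hQ1
  have hchr : (cc E h : ℝ) ≤ (h : ℝ) ^ 2 := by exact_mod_cast hch
  have hpr : 0 < |(p : ℝ)| := abs_pos.mpr (by exact_mod_cast ht.hp)
  have hDr : 0 < |(De p y : ℝ)| := abs_pos.mpr (by exact_mod_cast hDe)
  have hd0 : (0 : ℝ) < d := by exact_mod_cast hb.d0
  have hn1 : (0 : ℝ) < n1 := by exact_mod_cast hb.n10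
  have hn2 : (0 : ℝ) < n2 := by exact_mod_cast hb.n20
  have hn3 : (0 : ℝ) < n3 := by exact_mod_cast hb.n30
  have ha2 : (0 : ℝ) < a2 := by exact_mod_cast hb.a20
  have ha3 : (0 : ℝ) < a3 := by exact_mod_cast hb.a30
  have hB : 0 < B0 d n1 n2 n3 := by unfold B0; positivity
  have hnm : 0 < ((min n1 (min n2 n3) : ℕ) : ℝ) := by
    have : 0 < min n1 (min n2 n3) := lt_min hb.n10 (lt_min hb.n20 hb.n30)
    exact_mod_cast this
  have hxm : 0 < √((min n1 (min n2 n3) : ℕ) : ℝ) := Real.sqrt_pos.mpr hnm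
  set Q := QQ E h with hQd
  set c := cc E h with hcd'
  set B := B0 d n1 n2 n3 with hBd
  obtain ⟨A1, hA1⟩ : ∃ x : ℝ, x = 8 * n1 * √((n2 : ℝ) * n3 / d) := ⟨_, rfl⟩
  have hA10 : 0 < A1 := by rw [hA1]; positivity
  obtain ⟨K1, hK1⟩ : ∃ x : ℝ, x = min (600 * (|(De p y : ℝ)| / |(p : ℝ)|) * (√(n2 : ℝ) * √(n3 : ℝ)))
      (8 * a2 * a3) / (m.2.1 * m.2.2 * h ^ 2 * Q) := ⟨_, rfl⟩
  obtain ⟨K3, hK3⟩ : ∃ x : ℝ, x = 4 * A1 * a2 / (m.1 * m.2.1 * h ^ 2 * Q) := ⟨_, rfl⟩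
  obtain ⟨V, hV⟩ : ∃ x : ℝ, x = a2 / (m.2.1 * h) := ⟨_, rfl⟩
  obtain ⟨lam, hlam⟩ : ∃ x : ℝ, x = √((min n1 (min n2 n3) : ℕ) : ℝ) * h * Q / (192 * B) := ⟨_, rfl⟩
  have hK10 : 0 < K1 := by
    rw [hK1]
    apply div_pos _ (by positivity)
    apply lt_min <;> positivity
  have hK30 : 0 < K3 := by rw [hK3]; positivity
  have hV0 : 0 < V := by rw [hV]; positivity
  have hlam0 : 0 < lam := by rw [hlam]; positivity
  have hK1e : (m.2.1 : ℝ) * m.2.2 * h ^ 2 * Q * K1 =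
      min (600 * (|(De p y : ℝ)| / |(p : ℝ)|) * (√(n2 : ℝ) * √(n3 : ℝ))) (8 * a2 * a3) := by
    rw [hK1, mul_div_cancel₀]
    positivity
  have hK3e : (m.1 : ℝ) * m.2.1 * h ^ 2 * Q * K3 = 4 * A1 * a2 := by
    rw [hK3, mul_div_cancel₀]
    positivity
  have hVe : (m.2.1 : ℝ) * h * V = a2 := by
    rw [hV, mul_div_cancel₀]
    positivity
  have hlame : lam * (192 * B) = √((min n1 (min n2 n3) : ℕ) : ℝ) * h * Q := by
    rw [hlam, div_mul_cancel₀]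
    positivity
  have hAe : √(n2 : ℝ) * √(n3 : ℝ) * A1 = 8 * B := by rw [hA1, hBd]; exact ClB_A n1 n2 n3 d
  have ha3e : √(n1 : ℝ) * √(n2 : ℝ) * a3 ≤ 8 * B := by
    have e1 := bg3 d n1 n2 n3 a2 a3 D G p y (gv m h w0) N N4 u v ht hb
    have e2 := ClB_A n3 n1 n2 d
    have e3 : B0 d n3 n1 n2 = B := by rw [hBd]; unfold B0; ring
    rw [e3] at e2
    rw [← e2]
    exact mul_le_mul_of_nonneg_left e1 (by positivity)
  -- sizes of the coordinates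
  have hg : ∀ w : V3, ((gv m h w).1 : ℝ) = m.1 * h * w.1 ∧ ((gv m h w).2.1 : ℝ) = m.2.1 * h * w.2.1 ∧
      ((gv m h w).2.2 : ℝ) = m.2.2 * h * w.2.2 := by
    intro w
    refine ⟨?_, ?_, ?_⟩ <;> · simp only [gv]; push_cast; rfl
  have hsz : ∀ w ∈ S, |((gv m h w).1 : ℝ)| ≤ A1 ∧ |((gv m h w).2.1 : ℝ)| ≤ 2 * a2 ∧
      |((gv m h w).2.2 : ℝ)| ≤ 2 * a3 := by
    intro w hw
    obtain ⟨-, D', N', N4', u', v', ht', hb'⟩ := hS w hw
    refine ⟨?_, ?_, ?_⟩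
    · rw [hA1]
      exact bg1 d n1 n2 n3 a2 a3 D' G p y (gv m h w) N' N4' u' v' ht' hb'
    · have := hb'.a22
      exact_mod_cast this.le
    · have := hb'.a32
      exact_mod_cast this.le
  have key := cla_lat w0 hP0 Q hQ1 S K1 K3 lam V hK10 hK30 hlam0 hV0 (fun w hw => hc w0 hw0 w hw)
    (by
      intro w hw
      obtain ⟨hPw, D', N', N4', u', v', ht', hb'⟩ := hS w hw
      have r1 := rat d n1 n2 n3 a2 a3 D D' G p y (gv m h w0) (gv m h w) N N' N4 N4' u v u' v'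
        ht hb ht' hb'
      obtain ⟨z1, z2, z3⟩ := hsz w0 hw0
      obtain ⟨x1, x2, x3⟩ := hsz w hw
      constructor
      · have e1 : (((gv m h w0).2.1 * (gv m h w).2.2 - (gv m h w0).2.2 * (gv m h w).2.1 : ℤ) : ℝ) =
            (m.2.1 : ℝ) * m.2.2 * h ^ 2 * ((cr w0 w).1 : ℝ) := by
          simp only [gv, cr]
          push_cast
          ring
        have e2 : |(((gv m h w0).2.1 * (gv m h w).2.2 - (gv m h w0).2.2 * (gv m h w).2.1 : ℤ) : ℝ)| ≤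
            8 * a2 * a3 := by
          push_cast
          refine (abs_sub _ _).trans ?_
          rw [abs_mul, abs_mul]
          have i1 := mul_le_mul z2 x3 (abs_nonneg _) (by positivity)
          have i2 := mul_le_mul z3 x2 (abs_nonneg _) (by positivity)
          linarith
        have e3 := le_min r1 e2
        rw [← hK1e, e1, abs_mul, abs_of_pos (show (0 : ℝ) < (m.2.1 : ℝ) * m.2.2 * h ^ 2 by positivity),
          mul_assoc ((m.2.1 : ℝ) * m.2.2 * h ^ 2) (Q : ℝ) K1] at e3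
        exact le_of_mul_le_mul_left e3 (by positivity)
      · have e1 : ((gv m h w0).1 : ℝ) * (gv m h w).2.1 - (gv m h w0).2.1 * (gv m h w).1 =
            (m.1 : ℝ) * m.2.1 * h ^ 2 * ((cr w0 w).2.2 : ℝ) := by
          simp only [gv, cr]
          push_cast
          ring
        have e2 : |((gv m h w0).1 : ℝ) * (gv m h w).2.1 - (gv m h w0).2.1 * (gv m h w).1| ≤
            4 * A1 * a2 := by
          refine (abs_sub _ _).trans ?_
          rw [abs_mul, abs_mul]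
          have i1 := mul_le_mul z1 x2 (abs_nonneg _) (by positivity)
          have i2 := mul_le_mul z2 x1 (abs_nonneg _) (by positivity)
          linarith
        rw [← hK3e, e1, abs_mul, abs_of_pos (show (0 : ℝ) < (m.1 : ℝ) * m.2.1 * h ^ 2 by positivity),
          mul_assoc ((m.1 : ℝ) * m.2.1 * h ^ 2) (Q : ℝ) K3] at e2
        exact le_of_mul_le_mul_left e2 (by positivity))
    (by
      intro k hk hk0
      by_contra hcon
      push Not at hcon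
      obtain ⟨hk1, hk3⟩ := hcon
      have hl := lmb D G p y w0 k N N4 u v m h hh hr.m1 hr.m2 hr.m3 hP0 ht hk hk0
      have hx4 : √((min n1 (min n2 n3) : ℕ) : ℝ) ≤ √(N4 : ℝ) := by
        apply Real.sqrt_le_sqrt
        have : min n1 (min n2 n3) ≤ N4 := by
          have b1 := hb.n11
          have b2 := hb.n21
          have b3 := hb.n31
          have c1 : min n1 (min n2 n3) ≤ n1 := min_le_left _ _
          have c2 : min n1 (min n2 n3) ≤ n2 := (min_le_right _ _).trans (min_le_left _ _)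
          have c3 : min n1 (min n2 n3) ≤ n3 := (min_le_right _ _).trans (min_le_right _ _)
          rcases ht.s4 with g | g | g <;> omega
        exact_mod_cast this
      have hg2 : (a2 : ℝ) ≤ |((gv m h w0).2.1 : ℝ)| := by
        have := hb.a21
        exact_mod_cast this
      exact ClB_h2 (√(n1 : ℝ)) (√(n2 : ℝ)) (√(n3 : ℝ)) (√(N.1 : ℝ)) (√(N.2.1 : ℝ)) (√(N.2.2 : ℝ))
        A1 a2 a3 m.1 m.2.1 m.2.2 h Q B (√(N4 : ℝ)) (√((min n1 (min n2 n3) : ℕ) : ℝ))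
        |((gv m h w0).2.1 : ℝ)| |(k.1 : ℝ)| |(k.2.2 : ℝ)| lam K1 K3 (√2)
        (Real.sqrt_pos.mpr hn1) (Real.sqrt_pos.mpr hn2) (Real.sqrt_pos.mpr hn3)
        (Real.mul_self_sqrt (by norm_num)) (Real.sqrt_pos.mpr (by norm_num))
        (ClB_sq _ _ hb.n12) (ClB_sq _ _ hb.n22) (ClB_sq _ _ hb.n32) (Real.sqrt_nonneg _)
        (Real.sqrt_nonneg _) ha2 hm1 hm2 hm3 hhr hQr hlam0 (abs_nonneg _) (abs_nonneg _)
        hx4 (Real.sqrt_nonneg _) hg2 (by rw [hK1e]; exact min_le_right _ _) hK3e hAe ha3e hlame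
        hk1 hk3 hl)
    (by
      have hg2 : (a2 : ℝ) ≤ |((gv m h w0).2.1 : ℝ)| := by
        have := hb.a21
        exact_mod_cast this
      rw [(hg w0).2.1, abs_mul, abs_of_pos (show (0 : ℝ) < (m.2.1 : ℝ) * h by positivity), ← hVe] at hg2
      exact le_of_mul_le_mul_left hg2 (by positivity))
    (by
      intro w hw w' hw'
      obtain ⟨-, D1, N1, N41, u1, v1, ht1, hb1⟩ := hS w hw
      obtain ⟨-, D2, N2, N42, u2, v2, ht2, hb2⟩ := hS w' hw'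
      have q0 := hb.a21
      have q1 := hb1.a22
      have q2 := hb2.a22
      have hpos : (0 : ℤ) < (m.2.1 : ℤ) * h := by
        have i1 : (0 : ℤ) < m.2.1 := by exact_mod_cast hr.m2
        have i2 : (0 : ℤ) < h := by exact_mod_cast hh
        exact mul_pos i1 i2
      have j : ∀ x : V3, |(gv m h x).2.1| = (m.2.1 : ℤ) * h * |x.2.1| := by
        intro x
        have : (gv m h x).2.1 = (m.2.1 : ℤ) * h * x.2.1 := rfl
        rw [this, abs_mul, abs_of_pos hpos]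
      rw [j] at q0 q1 q2
      have q3 : (m.2.1 : ℤ) * h * |w.2.1 - w'.2.1| ≤ (m.2.1 : ℤ) * h * |w.2.1| + m.2.1 * h * |w'.2.1| := by
        rw [← mul_add]
        exact mul_le_mul_of_nonneg_left (abs_sub _ _) hpos.le
      have q4 : (m.2.1 : ℤ) * h * |w.2.1 - w'.2.1| < (m.2.1 : ℤ) * h * (4 * |w0.2.1|) := by linarith
      exact lt_of_mul_lt_mul_left q4 hpos.le)
  unfold Bd
  exact ClB_fin S.card (√(n2 : ℝ)) (√(n3 : ℝ)) A1 a2 m.1 m.2.1 m.2.2 h Q B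
    (√((min n1 (min n2 n3) : ℕ) : ℝ)) lam K1 K3 V c |(De p y : ℝ)| |(p : ℝ)|
    (Real.sqrt_pos.mpr hn2) (Real.sqrt_pos.mpr hn3) ha2 hm1 hm2 hm3 hhr hQr hB hlam0 hxm hA10 hcr
    hchr hpr hV0 hK30 hΔ (by rw [hK1e]; exact min_le_left _ _) hK3e hAe hVe hlame key

end Pool.Agent.SMQ
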