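import Pool.Agent.SMQ.Crs

/-!
# SMQ/DcA: `g_i = m_i h w_i` with a primitive vector `w`

PROOF of `dec`.  `m_i ∣ p`, `m_i ∣ y_i`, so `m_i ∣ g_i` (field `gc`), `g_i = m_i g'_i`.  Not all `g'_i` are `0`
(otherwise `N1 Δ = 0`).  Let `h = gcd (g'_1, g'_2, g'_3) ≥ 1` and `g'_i = h w_i`; `w` is primitive (`pr_of`).
`h ∣ g_i` for all `i`, so the field `ka` gives `h ∣ p ^ 2 Δ`.
-/

set_option autoImplicit false

namespace Pool.Agent.SMQ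

theorem dec (D G : ℕ) (p : ℤ) (y g : V3) (N : ℕ × ℕ × ℕ) (N4 : ℕ) (u v : V3)
    (h : Tri D G p y g N N4 u v) (m : ℕ × ℕ × ℕ) (p' : ℤ) (y' : V3) (E : ℤ)
    (hr : Rd p y m p' y' E) :
    ∃ (k : ℕ) (w : V3), 1 ≤ k ∧ Pr w ∧ g = gv m k w ∧ (k : ℤ) ∣ p ^ 2 * De p y := by
  obtain ⟨g1, g2, g3⟩ := g
  obtain ⟨a1, ha1⟩ : (m.1 : ℤ) ∣ g1 := by
    apply h.t1.gc
    · rw [hr.hp]; exact ⟨m.2.1 * m.2.2 * p', by ring⟩
    · rw [hr.hy1]; exact Dvd.intro _ rfl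
  obtain ⟨a2, ha2⟩ : (m.2.1 : ℤ) ∣ g2 := by
    apply h.t2.gc
    · rw [hr.hp]; exact ⟨m.1 * m.2.2 * p', by ring⟩
    · rw [hr.hy2]; exact Dvd.intro _ rfl
  obtain ⟨a3, ha3⟩ : (m.2.2 : ℤ) ∣ g3 := by
    apply h.t3.gc
    · rw [hr.hp]; exact ⟨m.1 * m.2.1 * p', by ring⟩
    · rw [hr.hy3]; exact Dvd.intro _ rfl
  set k : ℕ := Int.gcd (Int.gcd a1 a2 : ℤ) a3 with hk
  have hk12 : (k : ℤ) ∣ (Int.gcd a1 a2 : ℤ) := Int.gcd_dvd_left _ _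
  have hk1 : (k : ℤ) ∣ a1 := hk12.trans (Int.gcd_dvd_left _ _)
  have hk2 : (k : ℤ) ∣ a2 := hk12.trans (Int.gcd_dvd_right _ _)
  have hk3 : (k : ℤ) ∣ a3 := Int.gcd_dvd_right _ _
  obtain ⟨w1, hw1⟩ := hk1
  obtain ⟨w2, hw2⟩ := hk2
  obtain ⟨w3, hw3⟩ := hk3
  have hk0 : k ≠ 0 := by
    intro h0
    rw [h0] at hw1 hw2 hw3
    have e1 : g1 = 0 := by rw [ha1, hw1]; simp
    have e2 : g2 = 0 := by rw [ha2, hw2]; simp
    have e3 : g3 = 0 := by rw [ha3, hw3]; simp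
    have hi := h.t1.hi
    simp only [e1, e2, e3] at hi
    have hD := h.hD
    unfold De at hD
    have hN : (1 : ℤ) ≤ N.1 := by exact_mod_cast h.t1.hN
    have : (N.1 : ℤ) * (y.1 * y.2.1 * y.2.2 - p ^ 3) = 0 := by
      rw [hi]; ring
    rcases mul_eq_zero.1 this with h1 | h1
    · omega
    · exact hD h1
  refine ⟨k, (w1, w2, w3), Nat.pos_of_ne_zero hk0, ?_, ?_, ?_⟩
  · apply pr_of
    intro n h1 h2 h3
    simp only at h1 h2 h3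
    have d1 : (k : ℤ) * n ∣ a1 := by rw [hw1]; exact mul_dvd_mul_left _ h1
    have d2 : (k : ℤ) * n ∣ a2 := by rw [hw2]; exact mul_dvd_mul_left _ h2
    have d3 : (k : ℤ) * n ∣ a3 := by rw [hw3]; exact mul_dvd_mul_left _ h3
    have d : (k : ℤ) * n ∣ (k : ℤ) * 1 := by
      rw [mul_one]
      exact Int.dvd_coe_gcd (Int.dvd_coe_gcd d1 d2) d3
    have hkz : (k : ℤ) ≠ 0 := by exact_mod_cast hk0
    exact (mul_dvd_mul_iff_left hkz).1 d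
  · unfold gv
    simp only [Prod.mk.injEq]
    refine ⟨?_, ?_, ?_⟩
    · rw [ha1, hw1]; ring
    · rw [ha2, hw2]; ring
    · rw [ha3, hw3]; ring
  · apply h.ka
    · show (k : ℤ) ∣ g1
      rw [ha1, hw1]; exact ⟨m.1 * w1, by ring⟩
    · show (k : ℤ) ∣ g2
      rw [ha2, hw2]; exact ⟨m.2.1 * w2, by ring⟩
    · show (k : ℤ) ∣ g3
      rw [ha3, hw3]; exact ⟨m.2.2 * w3, by ring⟩

end Pool.Agent.SMQ
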