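import Pool.Agent.SMQ.Crs

/-!
# SMQ/DcB: the congruences modulo `Q`

PROOF of `okq`.  Let `c = gcd (|E|, h ^ 2)`, `|E| = Q c`.  The field `hi` of `t1` reads
`N1 M E = m_1 y'_1 m_2 h w_2 m_3 h w_3 - M p' m_1 ^ 2 h ^ 2 w_1 ^ 2`; divide by `M = m_1 m_2 m_3`:
`N1 E = h ^ 2 (y'_1 w_2 w_3 - p' m_1 ^ 2 w_1 ^ 2)`.  `Q = |E| / c` divides `(h ^ 2 / c) (…)` and is coprime to
`h ^ 2 / c`, so `Q ∣ …`.  The same for the other two indices.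
-/

set_option autoImplicit false

namespace Pool.Agent.SMQ

private theorem dcb_cop (E : ℤ) (k : ℕ) (hk : 1 ≤ k) (z n : ℤ) (h : n * E = (k : ℤ) ^ 2 * z) :
    (QQ E k : ℤ) ∣ z := by
  have hc0 : 0 < cc E k := Nat.gcd_pos_of_pos_right _ (by positivity)
  have h1 : E.natAbs = cc E k * QQ E k := by
    unfold QQ
    exact (Nat.mul_div_cancel' (Nat.gcd_dvd_left _ _)).symm
  have h2 : k ^ 2 = cc E k * (k ^ 2 / cc E k) := (Nat.mul_div_cancel' (Nat.gcd_dvd_right _ _)).symm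
  have hco : Nat.Coprime (QQ E k) (k ^ 2 / cc E k) := by
    unfold QQ
    exact Nat.coprime_div_gcd_div_gcd hc0
  have h3 : E.natAbs ∣ k ^ 2 * z.natAbs := by
    have h4 : (E : ℤ) ∣ (k : ℤ) ^ 2 * z := ⟨n, by rw [← h]; ring⟩
    have h5 := Int.natAbs_dvd_natAbs.2 h4
    rwa [Int.natAbs_mul, Int.natAbs_pow, Int.natAbs_natCast] at h5
  rw [h1, h2, mul_assoc] at h3
  have h6 := Nat.dvd_of_mul_dvd_mul_left hc0 h3
  have h7 := hco.dvd_of_dvd_mul_left h6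
  exact Int.natCast_dvd.2 h7

theorem okq (D G : ℕ) (p : ℤ) (y w : V3) (N : ℕ × ℕ × ℕ) (N4 : ℕ) (u v : V3) (m : ℕ × ℕ × ℕ)
    (p' : ℤ) (y' : V3) (E : ℤ) (hr : Rd p y m p' y' E) (k : ℕ) (hk : 1 ≤ k) (hw : Pr w)
    (h : Tri D G p y (gv m k w) N N4 u v) : Ok p' m y' (QQ E k) w := by
  have hM : ((m.1 : ℤ) * m.2.1 * m.2.2) ≠ 0 := by
    have h1 := hr.m1
    have h2 := hr.m2
    have h3 := hr.m3
    positivity
  have hE := hr.hE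
  unfold De at hE
  have e1 := h.t1.hi
  have e2 := h.t2.hi
  have e3 := h.t3.hi
  simp only [gv] at e1 e2 e3
  refine ⟨hw, ?_, ?_, ?_⟩
  · apply dcb_cop E k hk _ (N.1 : ℤ)
    apply mul_left_cancel₀ hM
    calc (m.1 : ℤ) * m.2.1 * m.2.2 * ((N.1 : ℤ) * E)
        = (N.1 : ℤ) * (y.1 * y.2.1 * y.2.2 - p ^ 3) := by rw [hE]; ring
      _ = _ := by rw [e1, hr.hp, hr.hy1]; ring
  · apply dcb_cop E k hk _ (N.2.1 : ℤ)
    apply mul_left_cancel₀ hM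
    calc (m.1 : ℤ) * m.2.1 * m.2.2 * ((N.2.1 : ℤ) * E)
        = (N.2.1 : ℤ) * (y.2.1 * y.2.2 * y.1 - p ^ 3) := by
          rw [show y.2.1 * y.2.2 * y.1 = y.1 * y.2.1 * y.2.2 by ring, hE]; ring
      _ = _ := by rw [e2, hr.hp, hr.hy2]; ring
  · apply dcb_cop E k hk _ (N.2.2 : ℤ)
    apply mul_left_cancel₀ hM
    calc (m.1 : ℤ) * m.2.1 * m.2.2 * ((N.2.2 : ℤ) * E)
        = (N.2.2 : ℤ) * (y.2.2 * y.1 * y.2.1 - p ^ 3) := by
          rw [show y.2.2 * y.1 * y.2.1 = y.1 * y.2.1 * y.2.2 by ring, hE]; ring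
      _ = _ := by rw [e3, hr.hp, hr.hy3]; ring

end Pool.Agent.SMQ
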