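import Pool.Agent.SMQ.Crs

/-!
# SMQ/DcC: two of the indices are good

PROOF of `goq`.  Let `l` be a prime, `l ∣ Q`, so `l ∣ E`, `l ∣ Δ`.
If `l ∤ p` then `l ∤ p'`, and `l ∤ y1 y2 y3` (as `l ∣ Δ = y1 y2 y3 - p ^ 3`), so `l` divides no `y'_i` and no
`m_i` (they divide `y_i`).  If `l ∣ p` use `lo`.
First alternative (`l ∣ y1`, `l ∤ y2, y3`): `Nd l y'_2 m_2` and `Nd l y'_3 m_3` hold.  If `l ∣ p'`, then from
`E = y'_1 y'_2 y'_3 - p' p ^ 2` (divide `hE` by `M`) `l ∣ y'_1 y'_2 y'_3`, so `l ∣ y'_1`, which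
contradicts `mx1`.  So `l ∤ p'`.  The second and third alternatives are the same by rotation.
Fourth alternative (`l ∣ g_i` for all `i`, `l ^ 3 ∤ Δ`): if `l ∣ m_1`, then `l ∤ y2, y3` (`co1`) and `l ∣ y1`, so this is
the first alternative again; the same for `m_2`, `m_3`.  So let `l ∤ m_1 m_2 m_3`: then `l ∣ h w_i` for all `i`,
so `l ∣ h` (`w` is primitive).  The exponent `e` of `l` in `E` is the one in `Δ`, `e ≤ 2`, so `l ^ e ∣ h ^ 2` and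
`l ^ e ∣ c`; `l ∣ Q` would give `l ^ (e + 1) ∣ Q c = |E|`, contradiction.
-/

set_option autoImplicit false

namespace Pool.Agent.SMQ

private theorem goq_nd (l : ℕ) (y y' : ℤ) (m : ℕ) (hy : y = (m : ℤ) * y')
    (h : ¬ (l : ℤ) ∣ y) : Nd l y' m := by
  constructor
  · intro h1
    exact h (hy ▸ Dvd.dvd.mul_left h1 _)
  · intro h1
    apply h
    rw [hy]
    exact Dvd.dvd.mul_right (Int.natCast_dvd_natCast.2 h1) _

/-- the last alternative: the prime divides the content `k` -/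
private theorem goq_k (l k : ℕ) (hl : l.Prime) (E D : ℤ) (M : ℤ) (hD : D = M * E)
    (h3 : ¬ (l : ℤ) ^ 3 ∣ D) (hk : l ∣ k) (hQ : l ∣ QQ E k) : False := by
  unfold QQ cc at hQ
  set c := Nat.gcd E.natAbs (k ^ 2) with hc
  have hcE : c ∣ E.natAbs := Nat.gcd_dvd_left _ _
  have hQc : E.natAbs / c * c = E.natAbs := Nat.div_mul_cancel hcE
  have hlE : l ∣ E.natAbs := by
    rw [← hQc]
    exact Dvd.dvd.mul_right hQ _
  have hk2 : l ^ 2 ∣ k ^ 2 := pow_dvd_pow_of_dvd hk 2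
  by_cases h2 : l ^ 2 ∣ E.natAbs
  · have h4 : l ^ 2 ∣ c := Nat.dvd_gcd h2 hk2
    have h5 : l ^ 3 ∣ E.natAbs := by
      rw [← hQc, pow_succ' l 2]
      exact Nat.mul_dvd_mul hQ h4
    apply h3
    rw [hD]
    apply Dvd.dvd.mul_left
    have h6 : ((l ^ 3 : ℕ) : ℤ) ∣ E := Int.natCast_dvd.2 h5
    push_cast at h6
    exact h6
  · apply h2
    have h4 : l ∣ c := Nat.dvd_gcd hlE (Dvd.dvd.trans (dvd_pow_self l (by norm_num)) hk2)
    rw [← hQc, pow_two]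
    exact Nat.mul_dvd_mul hQ h4

theorem goq (D G : ℕ) (p : ℤ) (y w : V3) (N : ℕ × ℕ × ℕ) (N4 : ℕ) (u v : V3) (m : ℕ × ℕ × ℕ)
    (p' : ℤ) (y' : V3) (E : ℤ) (hr : Rd p y m p' y' E) (k : ℕ) (hk : 1 ≤ k) (hw : Pr w)
    (h : Tri D G p y (gv m k w) N N4 u v) : Go p' m y' (QQ E k) := by
  intro l hl hlQ
  obtain ⟨y1, y2, y3⟩ := y
  obtain ⟨z1, z2, z3⟩ := y'
  obtain ⟨m1, m2, m3⟩ := m
  obtain ⟨w1, w2, w3⟩ := w
  have hm1 := hr.m1
  have hm2 := hr.m2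
  have hm3 := hr.m3
  have hp := hr.hp
  have hy1 := hr.hy1
  have hy2 := hr.hy2
  have hy3 := hr.hy3
  have hE := hr.hE
  have co1 := hr.co1
  have co2 := hr.co2
  have co3 := hr.co3
  have mx1 := hr.mx1 l hl
  have mx2 := hr.mx2 l hl
  have mx3 := hr.mx3 l hl
  have hlo := h.lo l hl
  simp only [gv] at hlo
  simp only at hm1 hm2 hm3 hp hy1 hy2 hy3 hE co1 co2 co3 mx1 mx2 mx3 hlo ⊢
  have hlp : Prime (l : ℤ) := Nat.prime_iff_prime_int.1 hl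
  have hM0 : (m1 : ℤ) * m2 * m3 ≠ 0 := by
    have : 0 < (m1 : ℤ) * m2 * m3 := by positivity
    exact this.ne'
  have hEe : E = z1 * z2 * z3 - p' * p ^ 2 := by
    apply mul_left_cancel₀ hM0
    rw [← hE]
    unfold De
    simp only
    rw [hy1, hy2, hy3]
    rw [hp]
    ring
  have hlE' : l ∣ E.natAbs := by
    unfold QQ at hlQ
    exact hlQ.trans (Nat.div_dvd_of_dvd (Nat.gcd_dvd_left _ _))
  have hlE : (l : ℤ) ∣ E := Int.natCast_dvd.2 hlE'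
  have hlD : (l : ℤ) ∣ De p (y1, y2, y3) := by
    rw [hE]
    exact Dvd.dvd.mul_left hlE _
  have hlD2 : (l : ℤ) ∣ y1 * y2 * y3 - p ^ 3 := hlD
  -- the three alternatives
  have alt1 : ¬ (l : ℤ) ∣ y2 → ¬ (l : ℤ) ∣ y3 → ¬ (l : ℤ) ∣ p' ∧ (Nd l z2 m2 ∧ Nd l z3 m3) := by
    intro h2 h3
    have n2 := goq_nd l y2 z2 m2 hy2 h2
    have n3 := goq_nd l y3 z3 m3 hy3 h3
    refine ⟨?_, n2, n3⟩
    intro h4
    have h5 : (l : ℤ) ∣ z1 * z2 * z3 := by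
      have h6 : z1 * z2 * z3 = E + p' * p ^ 2 := by rw [hEe]; ring
      rw [h6]
      exact dvd_add hlE (Dvd.dvd.mul_right h4 _)
    rcases hlp.dvd_or_dvd h5 with h6 | h6
    · rcases hlp.dvd_or_dvd h6 with h7 | h7
      · exact mx1 h2 h3 ⟨h4, h7⟩
      · exact n2.1 h7
    · exact n3.1 h6
  have alt2 : ¬ (l : ℤ) ∣ y1 → ¬ (l : ℤ) ∣ y3 → ¬ (l : ℤ) ∣ p' ∧ (Nd l z3 m3 ∧ Nd l z1 m1) := by
    intro h1 h3
    have n1 := goq_nd l y1 z1 m1 hy1 h1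
    have n3 := goq_nd l y3 z3 m3 hy3 h3
    refine ⟨?_, n3, n1⟩
    intro h4
    have h5 : (l : ℤ) ∣ z1 * z2 * z3 := by
      have h6 : z1 * z2 * z3 = E + p' * p ^ 2 := by rw [hEe]; ring
      rw [h6]
      exact dvd_add hlE (Dvd.dvd.mul_right h4 _)
    rcases hlp.dvd_or_dvd h5 with h6 | h6
    · rcases hlp.dvd_or_dvd h6 with h7 | h7
      · exact n1.1 h7
      · exact mx2 h3 h1 ⟨h4, h7⟩
    · exact n3.1 h6
  have alt3 : ¬ (l : ℤ) ∣ y1 → ¬ (l : ℤ) ∣ y2 → ¬ (l : ℤ) ∣ p' ∧ (Nd l z1 m1 ∧ Nd l z2 m2) := by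
    intro h1 h2
    have n1 := goq_nd l y1 z1 m1 hy1 h1
    have n2 := goq_nd l y2 z2 m2 hy2 h2
    refine ⟨?_, n1, n2⟩
    intro h4
    have h5 : (l : ℤ) ∣ z1 * z2 * z3 := by
      have h6 : z1 * z2 * z3 = E + p' * p ^ 2 := by rw [hEe]; ring
      rw [h6]
      exact dvd_add hlE (Dvd.dvd.mul_right h4 _)
    rcases hlp.dvd_or_dvd h5 with h6 | h6
    · rcases hlp.dvd_or_dvd h6 with h7 | h7
      · exact n1.1 h7
      · exact n2.1 h7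
    · exact mx3 h1 h2 ⟨h4, h6⟩
  by_cases hpl : (l : ℤ) ∣ p
  · rcases hlo hpl hlD with ⟨_, h2, h3⟩ | ⟨_, h1, h3⟩ | ⟨_, h1, h2⟩ | ⟨g1, g2, g3, hcu⟩
    · exact ⟨(alt1 h2 h3).1, Or.inl (alt1 h2 h3).2⟩
    · exact ⟨(alt2 h1 h3).1, Or.inr (Or.inl (alt2 h1 h3).2)⟩
    · exact ⟨(alt3 h1 h2).1, Or.inr (Or.inr (alt3 h1 h2).2)⟩
    · have hcop : ∀ a b : ℤ, IsCoprime a b → (l : ℤ) ∣ a → ¬ (l : ℤ) ∣ b := by
        intro a b hab ha hb
        exact hlp.not_unit (hab.isUnit_of_dvd' ha hb)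
      by_cases hm1l : (l : ℤ) ∣ (m1 : ℤ)
      · have h5 := hcop _ _ co1 hm1l
        have h2 : ¬ (l : ℤ) ∣ y2 := fun h6 => h5 (Dvd.dvd.mul_right h6 _)
        have h3 : ¬ (l : ℤ) ∣ y3 := fun h6 => h5 (Dvd.dvd.mul_left h6 _)
        exact ⟨(alt1 h2 h3).1, Or.inl (alt1 h2 h3).2⟩
      by_cases hm2l : (l : ℤ) ∣ (m2 : ℤ)
      · have h5 := hcop _ _ co2 hm2l
        have h3 : ¬ (l : ℤ) ∣ y3 := fun h6 => h5 (Dvd.dvd.mul_right h6 _)
        have h1 : ¬ (l : ℤ) ∣ y1 := fun h6 => h5 (Dvd.dvd.mul_left h6 _)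
        exact ⟨(alt2 h1 h3).1, Or.inr (Or.inl (alt2 h1 h3).2)⟩
      by_cases hm3l : (l : ℤ) ∣ (m3 : ℤ)
      · have h5 := hcop _ _ co3 hm3l
        have h1 : ¬ (l : ℤ) ∣ y1 := fun h6 => h5 (Dvd.dvd.mul_right h6 _)
        have h2 : ¬ (l : ℤ) ∣ y2 := fun h6 => h5 (Dvd.dvd.mul_left h6 _)
        exact ⟨(alt3 h1 h2).1, Or.inr (Or.inr (alt3 h1 h2).2)⟩
      exfalso
      have hkl : (l : ℤ) ∣ (k : ℤ) := by
        by_contra hkl
        have hh : ∀ (a : ℤ) (b : ℤ), ¬ (l : ℤ) ∣ a → (l : ℤ) ∣ a * k * b → (l : ℤ) ∣ b := by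
          intro a b ha hab
          rcases hlp.dvd_or_dvd hab with h6 | h6
          · rcases hlp.dvd_or_dvd h6 with h7 | h7
            · exact absurd h7 ha
            · exact absurd h7 hkl
          · exact h6
        have e1 := hh _ _ hm1l g1
        have e2 := hh _ _ hm2l g2
        have e3 := hh _ _ hm3l g3
        obtain ⟨a, ha⟩ := hw
        apply hlp.not_unit
        rw [isUnit_iff_dvd_one, ← ha]
        unfold dt
        exact dvd_add (dvd_add (Dvd.dvd.mul_left e1 _) (Dvd.dvd.mul_left e2 _))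
          (Dvd.dvd.mul_left e3 _)
      exact goq_k l k hl E _ _ hE hcu (Int.natCast_dvd_natCast.1 hkl) hlQ
  · have hyyy : ¬ (l : ℤ) ∣ y1 * y2 * y3 := by
      intro h5
      apply hpl
      have h6 : p ^ 3 = y1 * y2 * y3 - (y1 * y2 * y3 - p ^ 3) := by ring
      have h7 : (l : ℤ) ∣ p ^ 3 := by
        rw [h6]
        exact dvd_sub h5 hlD2
      exact hlp.dvd_of_dvd_pow h7
    have h2 : ¬ (l : ℤ) ∣ y2 := fun h6 =>
      hyyy (Dvd.dvd.mul_right (Dvd.dvd.mul_left h6 _) _)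
    have h3 : ¬ (l : ℤ) ∣ y3 := fun h6 => hyyy (Dvd.dvd.mul_left h6 _)
    exact ⟨(alt1 h2 h3).1, Or.inl (alt1 h2 h3).2⟩

end Pool.Agent.SMQ
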