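import Pool.Agent.SMQ.Loc
import Pool.Agent.SMQ.Crs

/-!
# SMQ/Gls: the classes modulo `Q`

PROOF of `gls`.  For every prime `l ∣ Q` let `f` be the exponent of `l` in `Q`.  By `Go` and `loc` (applied
to `w` or to a rotated vector: for the indices 2, 3 use `w`, for 3, 1 use `rt w`, for 1, 2 use
`rt (rt w)`; the coefficients are `c_i = y'_i`, `d_i = p' m_i ^ 2`; `cr (rt a) (rt b) = rt (cr a b)`) there is
`c_l : V3 → Fin 4` such that `c_l w = c_l w'` implies `l ^ f ∣` all coordinates of `cr w w'`, for all `w, w'`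
with `Ok` (primitive vectors are not divisible by `l`, and `l ^ f ∣ Q`).  Let
`cl w = fun l : Q.primeFactors => c_l w`, with values in the finite type `Q.primeFactors → Fin 4` which has
`4 ^ ω(Q)` elements; identify it with `Fin (4 ^ ω)` (`Fintype.equivFin`).  If `cl w = cl w'` then all
`l ^ f` divide, so `Q` divides (`Nat.factorization_prod_pow_eq_self`, coprime prime powers:
`Finset.prod_dvd_of_coprime`, or `Nat.dvd_of_factors...` on `natAbs`).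
-/

set_option autoImplicit false

namespace Pool.Agent.SMQ

private theorem Gls_dvd (Q : ℕ) (hQ : Q ≠ 0) (z : ℤ)
    (h : ∀ l ∈ Q.primeFactors, ((l : ℕ) : ℤ) ^ Q.factorization l ∣ z) : (Q : ℤ) ∣ z := by
  rw [Int.natCast_dvd]
  rw [Nat.dvd_iff_prime_pow_dvd_dvd]
  intro l k hl hk
  rcases Nat.eq_zero_or_pos k with h0 | h0
  · subst h0
    simp
  · have hlQ : l ∣ Q := (dvd_pow_self l (by omega)).trans hk
    have hmem : l ∈ Q.primeFactors := Nat.mem_primeFactors.2 ⟨hl, hlQ, hQ⟩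
    have h1 := h l hmem
    have h2 : k ≤ Q.factorization l := (hl.pow_dvd_iff_le_factorization hQ).1 hk
    have h3 : ((l : ℕ) : ℤ) ^ k ∣ z := (pow_dvd_pow _ h2).trans h1
    have h4 : (((l ^ k : ℕ)) : ℤ) ∣ z := by
      push_cast
      exact h3
    exact Int.natCast_dvd.1 h4

private theorem Gls_prim (l : ℕ) (hl : l.Prime) (w : V3) (h : Pr w) :
    ¬ ((l : ℤ) ∣ w.1 ∧ (l : ℤ) ∣ w.2.1 ∧ (l : ℤ) ∣ w.2.2) := by
  rintro ⟨h1, h2, h3⟩
  have h4 := pr_dvd w h l h1 h2 h3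
  have h5 : l ∣ 1 := by exact_mod_cast h4
  exact hl.one_lt.ne' (Nat.dvd_one.1 h5)

private theorem Gls_nd (l : ℕ) (hl : l.Prime) (p' : ℤ) (hp : ¬ (l : ℤ) ∣ p') (y : ℤ) (m : ℕ)
    (h : Nd l y m) : ¬ (l : ℤ) ∣ y ∧ ¬ (l : ℤ) ∣ p' * (m : ℤ) ^ 2 := by
  refine ⟨h.1, ?_⟩
  intro h1
  have hli : Prime (l : ℤ) := Nat.prime_iff_prime_int.1 hl
  rcases hli.dvd_or_dvd h1 with h2 | h2
  · exact hp h2
  · have h3 := hli.dvd_of_dvd_pow h2
    exact h.2 (by exact_mod_cast h3)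

private theorem Gls_one (p' : ℤ) (m : ℕ × ℕ × ℕ) (y' : V3) (Q : ℕ) (hQ : Q ≠ 0)
    (hgo : Go p' m y' Q) (l : ℕ) (hl : l ∈ Q.primeFactors) :
    ∃ c : V3 → Fin 4, ∀ w w' : V3, Ok p' m y' Q w → Ok p' m y' Q w' → c w = c w' →
      (l : ℤ) ^ Q.factorization l ∣ (cr w w').1 ∧ (l : ℤ) ^ Q.factorization l ∣ (cr w w').2.1 ∧
        (l : ℤ) ^ Q.factorization l ∣ (cr w w').2.2 := by
  have hlp : l.Prime := Nat.prime_of_mem_primeFactors hl
  have hlQ : l ∣ Q := Nat.dvd_of_mem_primeFactors hl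
  have hf : 1 ≤ Q.factorization l := (hlp.dvd_iff_one_le_factorization hQ).1 hlQ
  have hfQ : (l : ℤ) ^ Q.factorization l ∣ (Q : ℤ) := by
    exact_mod_cast Nat.ordProj_dvd Q l
  obtain ⟨hp, hcase⟩ := hgo l hlp hlQ
  rcases hcase with ⟨ha, hb⟩ | ⟨ha, hb⟩ | ⟨ha, hb⟩
  · obtain ⟨a1, a2⟩ := Gls_nd l hlp p' hp _ _ ha
    obtain ⟨b1, b2⟩ := Gls_nd l hlp p' hp _ _ hb
    obtain ⟨c, hc⟩ := loc l (Q.factorization l) hlp hf _ _ _ _ a1 a2 b1 b2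
    refine ⟨c, ?_⟩
    have key : ∀ w : V3, Ok p' m y' Q w → Sl ((l : ℤ) ^ Q.factorization l) l y'.2.1
        (p' * (m.2.1 : ℤ) ^ 2) y'.2.2 (p' * (m.2.2 : ℤ) ^ 2) w := by
      intro w hw
      obtain ⟨h1, h2, h3, h4⟩ := hw
      refine ⟨Gls_prim l hlp w h1, ?_, ?_⟩
      · have h5 := hfQ.trans h3
        rwa [show y'.2.1 * w.2.2 * w.1 = y'.2.1 * w.1 * w.2.2 by ring] at h5
      · exact hfQ.trans h4
    intro w w' hw hw' he
    exact hc w w' (key w hw) (key w' hw') he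
  · obtain ⟨a1, a2⟩ := Gls_nd l hlp p' hp _ _ ha
    obtain ⟨b1, b2⟩ := Gls_nd l hlp p' hp _ _ hb
    obtain ⟨c, hc⟩ := loc l (Q.factorization l) hlp hf _ _ _ _ a1 a2 b1 b2
    refine ⟨fun w => c (rt w), ?_⟩
    have key : ∀ w : V3, Ok p' m y' Q w → Sl ((l : ℤ) ^ Q.factorization l) l y'.2.2
        (p' * (m.2.2 : ℤ) ^ 2) y'.1 (p' * (m.1 : ℤ) ^ 2) (rt w) := by
      intro w hw
      obtain ⟨h1, h2, h3, h4⟩ := hw
      have h0 := Gls_prim l hlp w h1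
      refine ⟨fun h => h0 ⟨h.2.2, h.1, h.2.1⟩, ?_, ?_⟩
      · have h5 := hfQ.trans h4
        rwa [show y'.2.2 * w.1 * w.2.1 = y'.2.2 * w.2.1 * w.1 by ring] at h5
      · exact hfQ.trans h2
    intro w w' hw hw' he
    obtain ⟨k1, k2, k3⟩ := hc (rt w) (rt w') (key w hw) (key w' hw') he
    exact ⟨k3, k1, k2⟩
  · obtain ⟨a1, a2⟩ := Gls_nd l hlp p' hp _ _ ha
    obtain ⟨b1, b2⟩ := Gls_nd l hlp p' hp _ _ hb
    obtain ⟨c, hc⟩ := loc l (Q.factorization l) hlp hf _ _ _ _ a1 a2 b1 b2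
    refine ⟨fun w => c (rt (rt w)), ?_⟩
    have key : ∀ w : V3, Ok p' m y' Q w → Sl ((l : ℤ) ^ Q.factorization l) l y'.1
        (p' * (m.1 : ℤ) ^ 2) y'.2.1 (p' * (m.2.1 : ℤ) ^ 2) (rt (rt w)) := by
      intro w hw
      obtain ⟨h1, h2, h3, h4⟩ := hw
      have h0 := Gls_prim l hlp w h1
      refine ⟨fun h => h0 ⟨h.2.1, h.2.2, h.1⟩, ?_, ?_⟩
      · have h5 := hfQ.trans h2
        rwa [show y'.1 * w.2.1 * w.2.2 = y'.1 * w.2.2 * w.2.1 by ring] at h5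
      · exact hfQ.trans h3
    intro w w' hw hw' he
    obtain ⟨k1, k2, k3⟩ := hc (rt (rt w)) (rt (rt w')) (key w hw) (key w' hw') he
    exact ⟨k2, k3, k1⟩

theorem gls (p' : ℤ) (m : ℕ × ℕ × ℕ) (y' : V3) (Q : ℕ) (hQ : Q ≠ 0) (hgo : Go p' m y' Q) :
    ∃ cl : V3 → Fin (4 ^ Q.primeFactors.card), ∀ w w' : V3, Ok p' m y' Q w → Ok p' m y' Q w' →
      cl w = cl w' →
      (Q : ℤ) ∣ (cr w w').1 ∧ (Q : ℤ) ∣ (cr w w').2.1 ∧ (Q : ℤ) ∣ (cr w w').2.2 := by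
  classical
  have hch : ∀ l : Q.primeFactors, ∃ c : V3 → Fin 4, ∀ w w' : V3, Ok p' m y' Q w →
      Ok p' m y' Q w' → c w = c w' →
      ((l : ℕ) : ℤ) ^ Q.factorization l ∣ (cr w w').1 ∧
        ((l : ℕ) : ℤ) ^ Q.factorization l ∣ (cr w w').2.1 ∧
        ((l : ℕ) : ℤ) ^ Q.factorization l ∣ (cr w w').2.2 := fun l =>
    Gls_one p' m y' Q hQ hgo l l.2
  choose c hc using hch
  have hcard : Fintype.card (Q.primeFactors → Fin 4) = 4 ^ Q.primeFactors.card := by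
    simp
  refine ⟨fun w => Fintype.equivFinOfCardEq hcard (fun l => c l w), ?_⟩
  intro w w' hw hw' he
  have he2 := (Fintype.equivFinOfCardEq hcard).injective he
  have key : ∀ l (hl : l ∈ Q.primeFactors), ((l : ℕ) : ℤ) ^ Q.factorization l ∣ (cr w w').1 ∧
        ((l : ℕ) : ℤ) ^ Q.factorization l ∣ (cr w w').2.1 ∧
        ((l : ℕ) : ℤ) ^ Q.factorization l ∣ (cr w w').2.2 := fun l hl =>
    hc ⟨l, hl⟩ w w' hw hw' (congrFun he2 ⟨l, hl⟩)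
  exact ⟨Gls_dvd Q hQ _ fun l hl => (key l hl).1, Gls_dvd Q hQ _ fun l hl => (key l hl).2.1,
    Gls_dvd Q hQ _ fun l hl => (key l hl).2.2⟩

end Pool.Agent.SMQ
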