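import Mathlib

/-!
# SMQ/Om4: `4 ^ ω(n) ≤ τ(n) ^ 2`

PROOF of `om4`.  `2 ^ ω(n) ≤ τ(n)` (`Nat.card_divisors`: every factor is at least 2), `4 ^ ω = (2 ^ ω) ^ 2`.
-/

set_option autoImplicit false

namespace Pool.Agent.SMQ

theorem om4 (n : ℕ) (hn : n ≠ 0) : 4 ^ n.primeFactors.card ≤ n.divisors.card ^ 2 := by
  have h2 : 2 ^ n.primeFactors.card ≤ n.divisors.card := by
    rw [Nat.card_divisors hn, ← Finset.prod_const]
    refine Finset.prod_le_prod' ?_
    intro p hp
    have h1 : 1 ≤ n.factorization p := by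
      have h3 : p ∈ n.factorization.support := by
        rw [Nat.support_factorization]; exact hp
      have h4 := Finsupp.mem_support_iff.mp h3
      omega
    omega
  calc 4 ^ n.primeFactors.card = (2 ^ n.primeFactors.card) ^ 2 := by
        rw [← pow_mul, mul_comm, pow_mul]
        norm_num
    _ ≤ n.divisors.card ^ 2 := Nat.pow_le_pow_left h2 2

end Pool.Agent.SMQ
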