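import Pool.Agent.SMQ.Defs

/-!
# SMQ/Red: the numbers `m_i` and the reduced data of `(p, y)`

`m_i = gcd (p, y_i) / gcd (gcd (p, y_i), y_j y_k)`.

PROOF of `rd_ex`.  Let `m_i` be as above.  Only `p ≠ 0`, `y_i ≠ 0` and the field `lo` are used.
(1) `m_1` is coprime to `y2 y3`: let `l` be a prime dividing `m_1` and `y2 y3`; let `a` be the exponent
of `l` in `gcd (p, y1)`, `b` the exponent in `y2 y3`; `l ∣ m_1` means `b < a`, and `b ≥ 1`.  `l ∣ p` and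
`l ∣ y1`, so `l ∣ Δ`, and `lo` applies.  The first three alternatives contradict `l ∣ y1`, `l ∣ y2 y3`.
In the fourth `l ^ 3 ∤ Δ`; but `a ≥ 2`, so `l ^ 2 ∣ y1`, `l ∣ y2 y3`, `l ^ 3 ∣ y1 y2 y3`, `l ^ 3 ∣ p ^ 3`: contradiction.
(2) So the `m_i` are pairwise coprime (`m_2 ∣ y2`), each divides `p`, so `M ∣ p`, and
`M ∣ y1 y2 y3`, so `M ∣ Δ`.  This gives `p', y', E`.
(3) `mx1`: let the prime `l` not divide `y2 y3`.  Then `l` divides neither `m_2` nor `m_3` (they divide `y2`,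
`y3`) nor `gcd (gcd (p, y1), y2 y3)`.  If `l ∣ p'` and `l ∣ y1'`, then `l * m_1` divides `p` and `y1`, so it
divides `gcd (p, y1) = m_1 * gcd (gcd (p, y1), y2 y3)`, so `l` divides the last factor: contradiction.
By symmetry (rotation) `mx2`, `mx3`.
-/

set_option autoImplicit false

namespace Pool.Agent.SMQ

private theorem red_one (p y1 y2 y3 : ℤ) (hp : p ≠ 0)
    (hl : ∀ l : ℕ, l.Prime → (l : ℤ) ∣ p → (l : ℤ) ∣ y1 → (l : ℤ) ∣ y2 * y3 →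
      ¬ (l : ℤ) ^ 3 ∣ y1 * y2 * y3 - p ^ 3) :
    ∃ m : ℕ, 1 ≤ m ∧ (m : ℤ) ∣ p ∧ (m : ℤ) ∣ y1 ∧ IsCoprime (m : ℤ) (y2 * y3) ∧
      ∀ l : ℕ, l.Prime → ¬ (l : ℤ) ∣ y2 → ¬ (l : ℤ) ∣ y3 →
        ¬ ((l : ℤ) * m ∣ p ∧ (l : ℤ) * m ∣ y1) := by
  have hd0 : 0 < Int.gcd p y1 := Int.gcd_pos_of_ne_zero_left _ hp
  obtain ⟨d, hd⟩ : ∃ d : ℕ, d = Int.gcd p y1 := ⟨_, rfl⟩
  have hdp : (d : ℤ) ∣ p := hd ▸ Int.gcd_dvd_left _ _
  have hdy : (d : ℤ) ∣ y1 := hd ▸ Int.gcd_dvd_right _ _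
  obtain ⟨e, he⟩ : ∃ e : ℕ, e = Int.gcd (d : ℤ) (y2 * y3) := ⟨_, rfl⟩
  have hed : (e : ℤ) ∣ (d : ℤ) := he ▸ Int.gcd_dvd_left _ _
  have hey : (e : ℤ) ∣ y2 * y3 := he ▸ Int.gcd_dvd_right _ _
  obtain ⟨m, hm⟩ := Int.natCast_dvd_natCast.1 hed
  have hm1 : 1 ≤ m := by
    rcases Nat.eq_zero_or_pos m with h | h
    · rw [h, mul_zero] at hm; omega
    · exact h
  have he1 : 1 ≤ e := by
    rcases Nat.eq_zero_or_pos e with h | h
    · rw [h, zero_mul] at hm; omega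
    · exact h
  have hmd : (m : ℤ) ∣ (d : ℤ) := Int.natCast_dvd_natCast.2 ⟨e, by rw [hm, mul_comm]⟩
  refine ⟨m, hm1, hmd.trans hdp, hmd.trans hdy, ?_, ?_⟩
  · rw [Int.isCoprime_iff_gcd_eq_one]
    by_contra hc
    obtain ⟨l, hlp, hld⟩ := Nat.exists_prime_and_dvd hc
    have h1 : (l : ℤ) ∣ (m : ℤ) :=
      (Int.natCast_dvd_natCast.2 hld).trans (Int.gcd_dvd_left _ _)
    have h2 : (l : ℤ) ∣ y2 * y3 :=
      (Int.natCast_dvd_natCast.2 hld).trans (Int.gcd_dvd_right _ _)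
    have h3 : (l : ℤ) ∣ (e : ℤ) := by
      rw [he]; exact Int.dvd_coe_gcd (h1.trans hmd) h2
    have h4 : (l : ℤ) ^ 2 ∣ (d : ℤ) := by
      rw [hm]; push_cast; rw [pow_two]; exact mul_dvd_mul h3 h1
    have hlz : (l : ℤ) ∣ (d : ℤ) := h1.trans hmd
    refine hl l hlp (hlz.trans hdp) (hlz.trans hdy) h2 ?_
    apply dvd_sub
    · rw [mul_assoc, pow_succ]
      exact mul_dvd_mul (h4.trans hdy) h2
    · exact pow_dvd_pow_of_dvd (hlz.trans hdp) 3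
  · rintro l hlp h2 h3 ⟨h4, h5⟩
    have h6 : (l : ℤ) * m ∣ (d : ℤ) := by
      rw [hd]; exact Int.dvd_coe_gcd h4 h5
    rw [hm] at h6
    push_cast at h6
    have hm0 : (m : ℤ) ≠ 0 := by exact_mod_cast (show m ≠ 0 by omega)
    have h7 : (l : ℤ) ∣ (e : ℤ) := (mul_dvd_mul_iff_right hm0).1 h6
    rcases (Nat.prime_iff_prime_int.1 hlp).dvd_mul.1 (h7.trans hey) with h | h
    · exact h2 h
    · exact h3 h

theorem rd_ex (D G : ℕ) (p : ℤ) (y g : V3) (N : ℕ × ℕ × ℕ) (N4 : ℕ) (u v : V3)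
    (h : Tri D G p y g N N4 u v) :
    ∃ (m : ℕ × ℕ × ℕ) (p' : ℤ) (y' : V3) (E : ℤ), Rd p y m p' y' E := by
  obtain ⟨y1, y2, y3⟩ := y
  have hlo := h.lo
  unfold De at hlo
  simp only at hlo
  have key : ∀ l : ℕ, l.Prime → (l : ℤ) ∣ p → (l : ℤ) ∣ y1 * y2 * y3 →
      ((l : ℤ) ∣ y1 ∧ ¬ (l : ℤ) ∣ y2 ∧ ¬ (l : ℤ) ∣ y3) ∨
      ((l : ℤ) ∣ y2 ∧ ¬ (l : ℤ) ∣ y1 ∧ ¬ (l : ℤ) ∣ y3) ∨
      ((l : ℤ) ∣ y3 ∧ ¬ (l : ℤ) ∣ y1 ∧ ¬ (l : ℤ) ∣ y2) ∨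
      ¬ (l : ℤ) ^ 3 ∣ y1 * y2 * y3 - p ^ 3 := by
    intro l hl h1 h2
    have h3 : (l : ℤ) ∣ y1 * y2 * y3 - p ^ 3 := dvd_sub h2 (dvd_pow h1 (by norm_num))
    rcases hlo l hl h1 h3 with h4 | h4 | h4 | h4
    · exact Or.inl h4
    · exact Or.inr (Or.inl h4)
    · exact Or.inr (Or.inr (Or.inl h4))
    · exact Or.inr (Or.inr (Or.inr h4.2.2.2))
  obtain ⟨m1, a1, b1, c1, d1, e1⟩ := red_one p y1 y2 y3 h.hp (by
    intro l hl h1 h2 h3 h4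
    rcases (Nat.prime_iff_prime_int.1 hl).dvd_mul.1 h3 with h5 | h5
    · rcases key l hl h1 (by exact ((h2.mul_right y2).mul_right y3)) with k | k | k | k
      · exact k.2.1 h5
      · exact k.2.1 h2
      · exact k.2.1 h2
      · exact k h4
    · rcases key l hl h1 (by exact ((h2.mul_right y2).mul_right y3)) with k | k | k | k
      · exact k.2.2 h5
      · exact k.2.1 h2
      · exact k.2.1 h2
      · exact k h4)
  obtain ⟨m2, a2, b2, c2, d2, e2⟩ := red_one p y2 y3 y1 h.hp (by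
    intro l hl h1 h2 h3 h4
    rw [show y2 * y3 * y1 = y1 * y2 * y3 by ring] at h4
    have h6 : (l : ℤ) ∣ y1 * y2 * y3 := by
      rw [show y1 * y2 * y3 = y2 * (y3 * y1) by ring]; exact h2.mul_right _
    rcases (Nat.prime_iff_prime_int.1 hl).dvd_mul.1 h3 with h5 | h5
    · rcases key l hl h1 h6 with k | k | k | k
      · exact k.2.1 h2
      · exact k.2.2 h5
      · exact k.2.2 h2
      · exact k h4
    · rcases key l hl h1 h6 with k | k | k | k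
      · exact k.2.1 h2
      · exact k.2.1 h5
      · exact k.2.1 h5
      · exact k h4)
  obtain ⟨m3, a3, b3, c3, d3, e3⟩ := red_one p y3 y1 y2 h.hp (by
    intro l hl h1 h2 h3 h4
    rw [show y3 * y1 * y2 = y1 * y2 * y3 by ring] at h4
    have h6 : (l : ℤ) ∣ y1 * y2 * y3 := h2.mul_left _
    rcases (Nat.prime_iff_prime_int.1 hl).dvd_mul.1 h3 with h5 | h5
    · rcases key l hl h1 h6 with k | k | k | k
      · exact k.2.2 h2
      · exact k.2.1 h5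
      · exact k.2.1 h5
      · exact k h4
    · rcases key l hl h1 h6 with k | k | k | k
      · exact k.2.1 h5
      · exact k.2.2 h2
      · exact k.2.2 h5
      · exact k h4)
  have q12 : IsCoprime (m1 : ℤ) (m2 : ℤ) :=
    d1.of_isCoprime_of_dvd_right (c2.mul_right y3)
  have q13 : IsCoprime (m1 : ℤ) (m3 : ℤ) :=
    d1.of_isCoprime_of_dvd_right (c3.mul_left y2)
  have q23 : IsCoprime (m2 : ℤ) (m3 : ℤ) :=
    d2.of_isCoprime_of_dvd_right (c3.mul_right y1)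
  have hMp : (m1 : ℤ) * m2 * m3 ∣ p := by
    apply IsCoprime.mul_dvd (IsCoprime.mul_left q13 q23) _ b3
    exact IsCoprime.mul_dvd q12 b1 b2
  obtain ⟨p', hp'⟩ := hMp
  obtain ⟨z1, hz1⟩ := c1
  obtain ⟨z2, hz2⟩ := c2
  obtain ⟨z3, hz3⟩ := c3
  refine ⟨(m1, m2, m3), p', (z1, z2, z3),
    z1 * z2 * z3 - (m1 * m2 * m3 : ℤ) ^ 2 * p' ^ 3, ?_⟩
  refine ⟨a1, a2, a3, hp', hz1, hz2, hz3, ?_, d1, d2, d3, ?_, ?_, ?_⟩
  · unfold De
    simp only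
    rw [hz1, hz2, hz3, hp']
    ring
  · rintro l hl h1 h2 ⟨h3, h4⟩
    simp only at h1 h2 h4
    apply e1 l hl h1 h2
    constructor
    · obtain ⟨k, hk⟩ := h3
      rw [hp', hk]
      exact ⟨m2 * m3 * k, by ring⟩
    · obtain ⟨k, hk⟩ := h4
      rw [hz1, hk]
      exact ⟨k, by ring⟩
  · rintro l hl h1 h2 ⟨h3, h4⟩
    simp only at h1 h2 h4
    apply e2 l hl h1 h2
    constructor
    · obtain ⟨k, hk⟩ := h3
      rw [hp', hk]
      exact ⟨m1 * m3 * k, by ring⟩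
    · obtain ⟨k, hk⟩ := h4
      rw [hz2, hk]
      exact ⟨k, by ring⟩
  · rintro l hl h1 h2 ⟨h3, h4⟩
    simp only at h1 h2 h4
    apply e3 l hl h1 h2
    constructor
    · obtain ⟨k, hk⟩ := h3
      rw [hp', hk]
      exact ⟨m1 * m2 * k, by ring⟩
    · obtain ⟨k, hk⟩ := h4
      rw [hz3, hk]
      exact ⟨k, by ring⟩

end Pool.Agent.SMQ
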