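import Pool.Agent.SMQ.Defs

/-!
# SMQ/Wle: the weight of a class is a term of `W2`

PROOF of `wle`.  `c = gcd (|E|, h ^ 2)`, `e = gcd (c, h)`, `c = f e`, `h = h' e`, `f` and `h'` are coprime.
`c ∣ h ^ 2` gives `f e ∣ h' ^ 2 e ^ 2`, so `f ∣ h' ^ 2 e`, `f ∣ e`, and `f ^ 2 ∣ f e = c ∣ |E|`.  So
`M f ^ 2 ∣ M |E| = |Δ|`, `M ∣ p` and `f ∣ Δ`: the term `M f` occurs in `W2 p Δ`, all terms are `≥ 0`, and
`M c / h = M f e / h ≤ M f` because `e ≤ h`.
-/

set_option autoImplicit false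

namespace Pool.Agent.SMQ

private lemma wle_aux (c h : ℕ) (hh : 1 ≤ h) (hc : c ∣ h ^ 2) (hc0 : c ≠ 0) :
    ∃ f e : ℕ, c = f * e ∧ e ≤ h ∧ f ^ 2 ∣ c := by
  have he0 : 0 < Nat.gcd c h := Nat.gcd_pos_of_pos_right _ (by omega)
  obtain ⟨g, f, h', hg, hcop, h1, h2⟩ := Nat.exists_coprime' (m := c) (n := h) he0
  refine ⟨f, g, h1, ?_, ?_⟩
  · rw [h2]
    have : h' ≠ 0 := by
      rintro rfl
      simp at h2
      omega
    exact Nat.le_mul_of_pos_left _ (Nat.pos_of_ne_zero this)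
  · have hf : f ∣ h' ^ 2 * g := by
      rw [h1, h2] at hc
      have h3 : (h' * g) ^ 2 = (h' ^ 2 * g) * g := by ring
      rw [h3] at hc
      exact Nat.dvd_of_mul_dvd_mul_right hg hc
    have hf' : f ∣ g := (Nat.Coprime.pow_right 2 hcop).dvd_of_dvd_mul_left hf
    rw [h1, sq]
    exact Nat.mul_dvd_mul_left f hf'

theorem wle (p : ℤ) (y : V3) (m : ℕ × ℕ × ℕ) (p' : ℤ) (y' : V3) (E : ℤ) (hp : p ≠ 0)
    (hD : De p y ≠ 0) (hr : Rd p y m p' y' E) (h : ℕ) (hh : 1 ≤ h) :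
    (m.1 : ℝ) * m.2.1 * m.2.2 * cc E h / h ≤ W2 p (De p y) := by
  obtain ⟨M, hM⟩ : ∃ M : ℕ, M = m.1 * m.2.1 * m.2.2 := ⟨_, rfl⟩
  have hMz : (M : ℤ) = (m.1 : ℤ) * m.2.1 * m.2.2 := by rw [hM]; push_cast; ring
  have hMr : (M : ℝ) = (m.1 : ℝ) * m.2.1 * m.2.2 := by rw [hM]; push_cast; ring
  have hE := hr.hE
  rw [← hMz] at hE
  have hpM := hr.hp
  rw [← hMz] at hpM
  have hE0 : E ≠ 0 := by
    rintro rfl
    exact hD (by rw [hE]; ring)
  have hc0 : cc E h ≠ 0 := by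
    unfold cc
    intro h0
    have := Nat.eq_zero_of_gcd_eq_zero_left h0
    omega
  have hch : cc E h ∣ h ^ 2 := Nat.gcd_dvd_right _ _
  have hcE : cc E h ∣ E.natAbs := Nat.gcd_dvd_left _ _
  obtain ⟨f, e, hfe, heh, hf2⟩ := wle_aux (cc E h) h hh hch hc0
  have hDn : (De p y).natAbs = M * E.natAbs := by
    rw [hE, Int.natAbs_mul, Int.natAbs_natCast]
  have hMp : M ∈ p.natAbs.divisors := by
    rw [Nat.mem_divisors]
    refine ⟨?_, by omega⟩
    rw [hpM, Int.natAbs_mul, Int.natAbs_natCast]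
    exact Nat.dvd_mul_right _ _
  have hf2E : f ^ 2 ∣ E.natAbs := hf2.trans hcE
  have hMf : M * f ^ 2 ∣ (De p y).natAbs := by
    rw [hDn]
    exact Nat.mul_dvd_mul_left M hf2E
  have hfD : f ∈ (De p y).natAbs.divisors := by
    rw [Nat.mem_divisors]
    refine ⟨?_, by omega⟩
    exact (Dvd.intro_left (M * f) (by ring)).trans hMf
  have hnn : ∀ M' ∈ p.natAbs.divisors, ∀ f' ∈ (De p y).natAbs.divisors,
      (0 : ℝ) ≤ (if M' * f' ^ 2 ∣ (De p y).natAbs then (M' : ℝ) * f' else 0) := by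
    intro M' _ f' _
    split_ifs
    · positivity
    · exact le_refl _
  have hW : (M : ℝ) * f ≤ W2 p (De p y) := by
    unfold W2
    have h1 : (M : ℝ) * f ≤ ∑ f' ∈ (De p y).natAbs.divisors,
        (if M * f' ^ 2 ∣ (De p y).natAbs then (M : ℝ) * f' else 0) := by
      have h2 := Finset.single_le_sum (f := fun f' : ℕ =>
        (if M * f' ^ 2 ∣ (De p y).natAbs then (M : ℝ) * f' else 0)) (fun f' hf' => hnn M hMp f' hf') hfD
      simpa [hMf] using h2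
    refine h1.trans ?_
    exact Finset.single_le_sum (f := fun M' : ℕ => ∑ f' ∈ (De p y).natAbs.divisors,
        (if M' * f' ^ 2 ∣ (De p y).natAbs then (M' : ℝ) * f' else 0))
        (fun M' hM' => Finset.sum_nonneg (fun f' hf' => hnn M' hM' f' hf')) hMp
  refine le_trans ?_ hW
  rw [← hMr, hfe]
  have hh0 : (0 : ℝ) < h := by exact_mod_cast hh
  rw [div_le_iff₀ hh0]
  push_cast
  have heh' : (e : ℝ) ≤ h := by exact_mod_cast heh
  have h0 : (0 : ℝ) ≤ (M : ℝ) * f := by positivity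
  nlinarith [mul_le_mul_of_nonneg_left heh' h0]

end Pool.Agent.SMQ
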