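import Pool.Agent.SMQ.ClB
import Pool.Agent.SMQ.Wle
import Pool.Agent.SMQ.Om4
import Pool.Agent.SMQ.Gls
import Pool.Agent.SMQ.Red
import Pool.Agent.SMQ.DcA
import Pool.Agent.SMQ.DcB
import Pool.Agent.SMQ.DcC

/-!
# SMQ/Gct: the number of `g` for fixed `(p, y)`

PROOF of `gct`.  If `S` is empty the bound is clear.  Otherwise take `m, p', y', E` from `rd_ex`.
For `g ∈ S` choose `h, w` by `dec`; `h` divides `|p ^ 2 Δ| ≠ 0`, so it is one of at most `T` numbers.
Fix `h` (for which there is at least one such `g`) and let `Q = QQ E h ≠ 0`, a divisor of `|Δ|`, so of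
`|p ^ 2 Δ|`.  `Go` holds by `goq`, `Ok` by `okq`; `gls` gives a function `cl` with `4 ^ ω(Q) ≤ τ(Q) ^ 2 ≤ T ^ 2`
values (`om4`).  Fix also the value of `cl`: the set of the `w` satisfies the hypotheses of `clb`, and `w ↦ gv m h w` recovers
`g`.  `Bd` is increasing in `W` (`wle`).  Total: `card S ≤ T * T ^ 2 * Bd` (`Finset.card_le_mul_card_image_of_maps_to` or
`Finset.card_eq_sum_card_fiberwise`).
-/

set_option autoImplicit false

namespace Pool.Agent.SMQ

private theorem gct_fib {α β : Type*} [DecidableEq β] (S : Finset α) (f : α → β) (t : Finset β)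
    (h : ∀ a ∈ S, f a ∈ t) (b : ℝ)
    (hb : ∀ y ∈ t, ((S.filter (fun a => f a = y)).card : ℝ) ≤ b) :
    (S.card : ℝ) ≤ t.card * b := by
  rw [Finset.card_eq_sum_card_fiberwise (f := f) (t := t) (fun a ha => h a ha)]
  push_cast
  calc (∑ y ∈ t, ((S.filter (fun a => f a = y)).card : ℝ)) ≤ ∑ _y ∈ t, b := Finset.sum_le_sum hb
    _ = t.card * b := by rw [Finset.sum_const, nsmul_eq_mul]

private theorem gct_mono (d n1 n2 n3 : ℕ) (p : ℤ) (y : V3) (W W' : ℝ) (h : W ≤ W') :
    Bd d n1 n2 n3 p y W ≤ Bd d n1 n2 n3 p y W' := by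
  unfold Bd
  have hB : 0 ≤ B0 d n1 n2 n3 := by
    unfold B0
    positivity
  gcongr

theorem gct (d n1 n2 n3 a2 a3 G : ℕ) (p : ℤ) (y : V3) (T : ℝ)
    (hT : (((p ^ 2 * De p y).natAbs.divisors.card : ℕ) : ℝ) ≤ T) (S : Finset V3)
    (hS : ∀ g ∈ S, InB d n1 n2 n3 a2 a3 G p y g) :
    (S.card : ℝ) ≤ T ^ 3 * Bd d n1 n2 n3 p y (W2 p (De p y)) := by
  classical
  have hT0 : 0 ≤ T := le_trans (Nat.cast_nonneg _) hT
  have hW0 : 0 ≤ W2 p (De p y) := by
    unfold W2
    refine Finset.sum_nonneg fun M _ => Finset.sum_nonneg fun f _ => ?_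
    split_ifs
    · positivity
    · exact le_rfl
  have hB0 : 0 ≤ B0 d n1 n2 n3 := by
    unfold B0
    positivity
  set Bm : ℝ := Bd d n1 n2 n3 p y (W2 p (De p y)) with hBm
  have hBd0 : 0 ≤ Bm := by
    rw [hBm]
    unfold Bd
    positivity
  rcases S.eq_empty_or_nonempty with hE0 | ⟨g0, hg0⟩
  · rw [hE0, Finset.card_empty, Nat.cast_zero]
    positivity
  obtain ⟨D0, N0, N40, u0, v0, ht0, hb0⟩ := hS g0 hg0
  obtain ⟨m, p', y', E, hr⟩ := rd_ex D0 G p y g0 N0 N40 u0 v0 ht0
  have hp0 : p ≠ 0 := ht0.hp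
  have hD0 : De p y ≠ 0 := ht0.hD
  have hn0 : p ^ 2 * De p y ≠ 0 := mul_ne_zero (pow_ne_zero 2 hp0) hD0
  have hnn : (p ^ 2 * De p y).natAbs ≠ 0 := Int.natAbs_ne_zero.mpr hn0
  have hE : E ≠ 0 := by
    rintro rfl
    apply hD0
    rw [hr.hE, mul_zero]
  have hEd : E.natAbs ∣ (p ^ 2 * De p y).natAbs := by
    rw [Int.natAbs_dvd_natAbs, hr.hE]
    exact Dvd.dvd.mul_left (Dvd.intro_left _ rfl) _
  have hdec : ∀ g ∈ S, ∃ (k : ℕ) (w : V3), 1 ≤ k ∧ Pr w ∧ g = gv m k w ∧
      (k : ℤ) ∣ p ^ 2 * De p y := by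
    intro g hg
    obtain ⟨D, N, N4, u, v, ht, hb⟩ := hS g hg
    exact dec D G p y g N N4 u v ht m p' y' E hr
  choose! kf wf hk1 hpr hgv hkd using hdec
  have key : (S.card : ℝ) ≤ (((p ^ 2 * De p y).natAbs.divisors.card : ℕ) : ℝ) * (T ^ 2 * Bm) := by
    refine gct_fib S kf _ ?_ _ ?_
    · intro g hg
      rw [Nat.mem_divisors]
      refine ⟨?_, hnn⟩
      have := Int.natAbs_dvd_natAbs.mpr (hkd g hg)
      rwa [Int.natAbs_natCast] at this
    · intro k _
      rcases (S.filter (fun g => kf g = k)).eq_empty_or_nonempty with hE1 | ⟨g1, hg1⟩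
      · rw [hE1, Finset.card_empty, Nat.cast_zero]
        positivity
      have hg1' := Finset.mem_filter.mp hg1
      have hk : 1 ≤ k := hg1'.2 ▸ hk1 g1 hg1'.1
      have hcd : cc E k ∣ E.natAbs := Nat.gcd_dvd_left _ _
      have hEpos : 0 < E.natAbs := Nat.pos_of_ne_zero (Int.natAbs_ne_zero.mpr hE)
      have hQd : QQ E k ∣ E.natAbs := Nat.div_dvd_of_dvd hcd
      have hQ0 : QQ E k ≠ 0 := by
        intro h0
        rw [h0, zero_dvd_iff] at hQd
        omega
      have hgo : Go p' m y' (QQ E k) := by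
        obtain ⟨D, N, N4, u, v, ht, hb⟩ := hS g1 hg1'.1
        have h1 := hgv g1 hg1'.1
        rw [hg1'.2] at h1
        rw [h1] at ht
        exact goq D G p y (wf g1) N N4 u v m p' y' E hr k hk (hpr g1 hg1'.1) ht
      obtain ⟨cl, hcl⟩ := gls p' m y' (QQ E k) hQ0 hgo
      have hok : ∀ g ∈ S.filter (fun g => kf g = k), Ok p' m y' (QQ E k) (wf g) := by
        intro g hg
        have hg' := Finset.mem_filter.mp hg
        obtain ⟨D, N, N4, u, v, ht, hb⟩ := hS g hg'.1
        have h1 := hgv g hg'.1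
        rw [hg'.2] at h1
        rw [h1] at ht
        exact okq D G p y (wf g) N N4 u v m p' y' E hr k hk (hpr g hg'.1) ht
      have key2 : ((S.filter (fun g => kf g = k)).card : ℝ) ≤
          ((Finset.univ : Finset (Fin (4 ^ (QQ E k).primeFactors.card))).card : ℝ) * Bm := by
        refine gct_fib _ (fun g => cl (wf g)) _ (fun g _ => Finset.mem_univ _) Bm ?_
        intro c _
        set S2 := (S.filter (fun g => kf g = k)).filter (fun g => cl (wf g) = c) with hS2
        have hinj : Set.InjOn wf (S2 : Set V3) := by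
          intro a ha b hb hab
          have ha1 := Finset.mem_filter.mp (Finset.mem_coe.mp ha)
          have hb1 := Finset.mem_filter.mp (Finset.mem_coe.mp hb)
          have ha2 := Finset.mem_filter.mp ha1.1
          have hb2 := Finset.mem_filter.mp hb1.1
          rw [hgv a ha2.1, hgv b hb2.1, ha2.2, hb2.2, hab]
        have hcard : (S2.image wf).card = S2.card := Finset.card_image_of_injOn hinj
        have hmain := clb d n1 n2 n3 a2 a3 G p y m p' y' E hr k hk (S2.image wf) (by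
          intro w hw
          obtain ⟨g, hg, rfl⟩ := Finset.mem_image.mp hw
          have hg1 := Finset.mem_filter.mp hg
          have hg2 := Finset.mem_filter.mp hg1.1
          refine ⟨hpr g hg2.1, ?_⟩
          have h1 := hgv g hg2.1
          rw [hg2.2] at h1
          rw [← h1]
          exact hS g hg2.1) (by
          intro w hw w' hw'
          obtain ⟨g, hg, rfl⟩ := Finset.mem_image.mp hw
          obtain ⟨g', hg', rfl⟩ := Finset.mem_image.mp hw'
          have hg1 := Finset.mem_filter.mp hg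
          have hg1' := Finset.mem_filter.mp hg'
          exact hcl _ _ (hok g hg1.1) (hok g' hg1'.1) (hg1.2.trans hg1'.2.symm))
        rw [hcard] at hmain
        refine hmain.trans ?_
        rw [hBm]
        exact gct_mono _ _ _ _ _ _ _ _ (wle p y m p' y' E hp0 hD0 hr k hk)
      refine key2.trans ?_
      apply mul_le_mul_of_nonneg_right _ hBd0
      rw [Finset.card_univ, Fintype.card_fin]
      have h4 := om4 (QQ E k) hQ0
      have h5 : ((QQ E k).divisors.card : ℝ) ≤ T := by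
        refine le_trans ?_ hT
        exact_mod_cast Finset.card_le_card (Nat.divisors_subset_of_dvd hnn (hQd.trans hEd))
      calc ((4 ^ (QQ E k).primeFactors.card : ℕ) : ℝ) ≤ (((QQ E k).divisors.card ^ 2 : ℕ) : ℝ) :=
            Nat.cast_le.mpr h4
        _ = ((QQ E k).divisors.card : ℝ) ^ 2 := Nat.cast_pow _ _
        _ ≤ T ^ 2 := pow_le_pow_left₀ (Nat.cast_nonneg _) h5 2
  calc (S.card : ℝ) ≤ (((p ^ 2 * De p y).natAbs.divisors.card : ℕ) : ℝ) * (T ^ 2 * Bm) := key
    _ ≤ T * (T ^ 2 * Bm) := mul_le_mul_of_nonneg_right hT (by positivity)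
    _ = T ^ 3 * Bm := by ring

end Pool.Agent.SMQ
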