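import Pool.Agent.SMQ.Defs
import Pool.Agent.SMQ.Cub

/-!
# SMQ/Loc: at most four projective solutions modulo a prime power

`Sl q l c2 d2 c3 d3 w`: the vector `w` is not divisible by `l` and satisfies two congruences modulo
`q = l ^ f`; `c2, d2, c3, d3` are prime to `l`.

PROOF of `loc`.  Let `w` be a solution.
(1) If `l ∣ w2` then `l ∣ w3` (second congruence, `d3` prime to `l`), and conversely (first
congruence).  If `l` divides neither, then `w1` is prime to `l` (first congruence: `d2 w2 ^ 2` is prime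
to `l`, `f ≥ 1`).
(2) If `l ∣ w2, w3` then `w1` is prime to `l`, and `q ∣ w2`, `q ∣ w3`: let `i ≤ f` be maximal
with `l ^ i ∣ w2`, `j ≤ f` maximal with `l ^ j ∣ w3`; the first congruence gives
`l ^ (min f (2 i)) ∣ w3`, so `min f (2 i) ≤ j`, the second `min f (2 j) ≤ i`; `i, j ≥ 1`; if `i < f` then
`2 j ≤ i`, so `j < f`, so `2 i ≤ j`, `4 j ≤ 2 i ≤ j`, contradiction; so `i = f`, `j = f`.
(Alternatively by induction: `l ^ s ∣ w2, w3` with `1 ≤ s < f` implies `l ^ (s + 1) ∣ w2, w3`, because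
`d2 w2 ^ 2` and `d3 w3 ^ 2` are divisible by `l ^ (2 s)`, `2 s ≥ s + 1`.)
Such solutions get the value `3`; for two of them all coordinates of `cr w w'` are divisible by `q`.
(3) If `l` divides neither `w2` nor `w3`: in `ZMod q` let `r = w2 / w3` (a unit).  The product of the
congruences `c2 w1 w3 = d2 w2 ^ 2` and `d3 w3 ^ 2 = c3 w1 w2` gives, after cancelling the unit `w1`,
`c2 d3 w3 ^ 3 = d2 c3 w2 ^ 3`, so `r ^ 3 = c2 d3 / (d2 c3)`: at most three values (`cub`); choose an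
injection of this set of values into `{0, 1, 2}` (e.g. `Finset.equivFin` and `castLE`), the value of
`c w`.  If `r` is the same for `w, w'`: `w2 w3' = w3 w2'`, and `w1 = d2 w2 ^ 2 / (c2 w3)`, so
`w1 w2' = d2 w2 ^ 2 w2' / (c2 w3) = d2 r w2 w2' / c2` is symmetric in `w, w'`, i.e. `w1 w2' = w1' w2`;
`w1 w3' = d2 r w2 w3' / c2 = d2 r w3 w2' / c2 = w1' w3`.
-/

set_option autoImplicit false

namespace Pool.Agent.SMQ

/-- solutions of the two congruences -/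
def Sl (q l : ℤ) (c2 d2 c3 d3 : ℤ) (w : V3) : Prop :=
  ¬ (l ∣ w.1 ∧ l ∣ w.2.1 ∧ l ∣ w.2.2) ∧ q ∣ c2 * w.1 * w.2.2 - d2 * w.2.1 ^ 2 ∧
    q ∣ c3 * w.1 * w.2.1 - d3 * w.2.2 ^ 2

private theorem loc_unit (l f : ℕ) (hl : l.Prime) (n : ℤ) (h : ¬ (l : ℤ) ∣ n) :
    IsUnit ((n : ℤ) : ZMod (l ^ f)) := by
  rw [ZMod.coe_int_isUnit_iff_isCoprime]
  push_cast
  exact IsCoprime.pow_left ((Nat.prime_iff_prime_int.1 hl).coprime_iff_not_dvd.2 h)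

private theorem loc_dvd (l f : ℕ) (n : ℤ) : (l : ℤ) ^ f ∣ n ↔ ((n : ℤ) : ZMod (l ^ f)) = 0 := by
  rw [ZMod.intCast_zmod_eq_zero_iff_dvd]
  push_cast
  rfl

private theorem loc_div (l f : ℕ) (hl : l.Prime) (hf : 1 ≤ f) (c2 d2 c3 d3 : ℤ)
    (h2 : ¬ (l : ℤ) ∣ c2) (h3 : ¬ (l : ℤ) ∣ c3) (h3' : ¬ (l : ℤ) ∣ d3) (w : V3)
    (hw : Sl ((l : ℤ) ^ f) l c2 d2 c3 d3 w) (h : (l : ℤ) ∣ w.2.1) :
    (l : ℤ) ^ f ∣ w.2.1 ∧ (l : ℤ) ^ f ∣ w.2.2 := by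
  obtain ⟨w1, w2, w3⟩ := w
  obtain ⟨ha, hb, hc⟩ := hw
  dsimp only at ha hb hc h ⊢
  have hP := Nat.prime_iff_prime_int.1 hl
  have hlq : (l : ℤ) ∣ (l : ℤ) ^ f := dvd_pow_self _ (by omega)
  have hw3 : (l : ℤ) ∣ w3 := by
    have e1 : (l : ℤ) ∣ d3 * w3 ^ 2 := by
      have e2 : (l : ℤ) ∣ c3 * w1 * w2 := Dvd.dvd.mul_left h _
      have e3 := dvd_sub e2 (hlq.trans hc)
      simpa using e3
    rcases hP.dvd_or_dvd e1 with e | e
    · exact absurd e h3'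
    · exact hP.dvd_of_dvd_pow e
  have hw1 : ¬ (l : ℤ) ∣ w1 := fun e => ha ⟨e, h, hw3⟩
  have key : ∀ s : ℕ, 1 ≤ s → s ≤ f → (l : ℤ) ^ s ∣ w2 ∧ (l : ℤ) ^ s ∣ w3 := by
    intro s hs
    induction s, hs using Nat.le_induction with
    | base =>
      intro _
      simpa using ⟨h, hw3⟩
    | succ s hs ih =>
      intro hsf
      obtain ⟨i2, i3⟩ := ih (by omega)
      have hq : (l : ℤ) ^ (s + 1) ∣ (l : ℤ) ^ f := pow_dvd_pow _ hsf
      have hss : (l : ℤ) ^ (s + 1) ∣ (l : ℤ) ^ (s * 2) := pow_dvd_pow _ (by omega)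
      have j2 : (l : ℤ) ^ (s + 1) ∣ w2 ^ 2 := by
        refine hss.trans ?_
        rw [pow_mul]
        exact pow_dvd_pow_of_dvd i2 2
      have j3 : (l : ℤ) ^ (s + 1) ∣ w3 ^ 2 := by
        refine hss.trans ?_
        rw [pow_mul]
        exact pow_dvd_pow_of_dvd i3 2
      have k3 : (l : ℤ) ^ (s + 1) ∣ c2 * w1 * w3 := by
        have e := dvd_add (hq.trans hb) (Dvd.dvd.mul_left j2 d2)
        simpa using e
      have k2 : (l : ℤ) ^ (s + 1) ∣ c3 * w1 * w2 := by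
        have e := dvd_add (hq.trans hc) (Dvd.dvd.mul_left j3 d3)
        simpa using e
      have co : ∀ n : ℤ, ¬ (l : ℤ) ∣ n → IsCoprime ((l : ℤ) ^ (s + 1)) n := fun n hn =>
        IsCoprime.pow_left (hP.coprime_iff_not_dvd.2 hn)
      exact ⟨((co c3 h3).mul_right (co w1 hw1)).dvd_of_dvd_mul_left k2,
        ((co c2 h2).mul_right (co w1 hw1)).dvd_of_dvd_mul_left k3⟩
  exact key f hf le_rfl

private theorem loc_not (l f : ℕ) (hl : l.Prime) (hf : 1 ≤ f) (c2 d2 c3 d3 : ℤ)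
    (h2' : ¬ (l : ℤ) ∣ d2) (w : V3)
    (hw : Sl ((l : ℤ) ^ f) l c2 d2 c3 d3 w) (h : ¬ (l : ℤ) ∣ w.2.1) :
    ¬ (l : ℤ) ∣ w.1 ∧ ¬ (l : ℤ) ∣ w.2.2 := by
  obtain ⟨w1, w2, w3⟩ := w
  obtain ⟨ha, hb, hc⟩ := hw
  dsimp only at ha hb hc h ⊢
  have hP := Nat.prime_iff_prime_int.1 hl
  have hlq : (l : ℤ) ∣ (l : ℤ) ^ f := dvd_pow_self _ (by omega)
  have hn : ¬ (l : ℤ) ∣ c2 * w1 * w3 := by
    intro e
    have e1 : (l : ℤ) ∣ d2 * w2 ^ 2 := by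
      have e3 := dvd_sub e (hlq.trans hb)
      simpa using e3
    rcases hP.dvd_or_dvd e1 with e | e
    · exact h2' e
    · exact h (hP.dvd_of_dvd_pow e)
  exact ⟨fun e => hn (Dvd.dvd.mul_right (Dvd.dvd.mul_left e _) _),
    fun e => hn (Dvd.dvd.mul_left e _)⟩

/-- the algebra in `ZMod q` -/
private theorem loc_alg {R : Type*} [CommRing R] (C2 D2 C3 D3 W1 W2 W3 r : R) (hW1 : IsUnit W1)
    (hW3 : IsUnit W3) (e1 : C2 * W1 * W3 - D2 * W2 ^ 2 = 0)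
    (e2 : C3 * W1 * W2 - D3 * W3 ^ 2 = 0) (hr : r * W3 = W2) :
    (D2 * C3) * r ^ 3 = C2 * D3 ∧ C2 * W1 = D2 * r ^ 2 * W3 := by
  subst hr
  constructor
  · apply (hW3.pow 3).mul_right_cancel
    apply hW1.mul_left_cancel
    linear_combination (-C3 * W1 * r * W3) * e1 + (C2 * W1 * W3) * e2
  · apply hW3.mul_right_cancel
    linear_combination e1

open Classical in
theorem loc (l f : ℕ) (hl : l.Prime) (hf : 1 ≤ f) (c2 d2 c3 d3 : ℤ) (h2 : ¬ (l : ℤ) ∣ c2)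
    (h2' : ¬ (l : ℤ) ∣ d2) (h3 : ¬ (l : ℤ) ∣ c3) (h3' : ¬ (l : ℤ) ∣ d3) :
    ∃ c : V3 → Fin 4, ∀ w w' : V3, Sl ((l : ℤ) ^ f) l c2 d2 c3 d3 w →
      Sl ((l : ℤ) ^ f) l c2 d2 c3 d3 w' → c w = c w' →
      (l : ℤ) ^ f ∣ (cr w w').1 ∧ (l : ℤ) ^ f ∣ (cr w w').2.1 ∧ (l : ℤ) ^ f ∣ (cr w w').2.2 := by
  have : NeZero (l ^ f) := ⟨pow_ne_zero f hl.ne_zero⟩
  set a : ZMod (l ^ f) := ((c2 : ℤ) : ZMod (l ^ f)) * ((d3 : ℤ) : ZMod (l ^ f)) *
    (((d2 : ℤ) : ZMod (l ^ f)) * ((c3 : ℤ) : ZMod (l ^ f)))⁻¹ with ha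
  set S : Finset (ZMod (l ^ f)) :=
    Finset.univ.filter fun x : ZMod (l ^ f) => IsUnit x ∧ x ^ 3 = a with hS
  have hcard : S.card ≤ 3 := cub l f hl hf a
  set g : ZMod (l ^ f) → Fin 4 := fun x =>
    if h : x ∈ S then ⟨(S.equivFin ⟨x, h⟩ : ℕ), by
      have := (S.equivFin ⟨x, h⟩).isLt
      omega⟩ else 0 with hg
  have hg3 : ∀ x ∈ S, g x ≠ 3 := by
    intro x hx h
    have h1 := congrArg Fin.val h
    simp only [hg, hx, dite_true] at h1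
    have h4 := (S.equivFin ⟨x, hx⟩).isLt
    have h5 : ((3 : Fin 4) : ℕ) = 3 := rfl
    omega
  have hgi : ∀ x ∈ S, ∀ y ∈ S, g x = g y → x = y := by
    intro x hx y hy h
    have h1 := congrArg Fin.val h
    simp only [hg, hx, hy, dite_true] at h1
    have h4 := S.equivFin.injective (Fin.ext h1)
    exact congrArg Subtype.val h4
  -- the data of a solution which is prime to `l`
  have key : ∀ w : V3, Sl ((l : ℤ) ^ f) l c2 d2 c3 d3 w → ¬ (l : ℤ) ∣ w.2.1 →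
      ∀ r : ZMod (l ^ f), r = ((w.2.1 : ℤ) : ZMod (l ^ f)) * ((w.2.2 : ℤ) : ZMod (l ^ f))⁻¹ →
      r ∈ S ∧ r * ((w.2.2 : ℤ) : ZMod (l ^ f)) = ((w.2.1 : ℤ) : ZMod (l ^ f)) ∧
        ((c2 : ℤ) : ZMod (l ^ f)) * ((w.1 : ℤ) : ZMod (l ^ f)) =
          ((d2 : ℤ) : ZMod (l ^ f)) * r ^ 2 * ((w.2.2 : ℤ) : ZMod (l ^ f)) := by
    intro w hw hn r hr
    obtain ⟨n1, n3⟩ := loc_not l f hl hf c2 d2 c3 d3 h2' w hw hn
    obtain ⟨-, hb, hc⟩ := hw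
    have U1 := loc_unit l f hl _ n1
    have U2 := loc_unit l f hl _ hn
    have U3 := loc_unit l f hl _ n3
    have V2 := loc_unit l f hl _ h2
    have V2' := loc_unit l f hl _ h2'
    have V3 := loc_unit l f hl _ h3
    have V3' := loc_unit l f hl _ h3'
    rw [loc_dvd] at hb hc
    push_cast at hb hc
    have hr3 : r * ((w.2.2 : ℤ) : ZMod (l ^ f)) = ((w.2.1 : ℤ) : ZMod (l ^ f)) := by
      rw [hr, mul_assoc, mul_comm (((w.2.2 : ℤ) : ZMod (l ^ f)))⁻¹, ZMod.mul_inv_of_unit _ U3,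
        mul_one]
    obtain ⟨k1, k2⟩ := loc_alg _ _ _ _ _ _ _ r U1 U3 hb hc hr3
    refine ⟨?_, hr3, k2⟩
    rw [hS, Finset.mem_filter]
    refine ⟨Finset.mem_univ _, ?_, ?_⟩
    · rw [← hr3] at U2
      exact isUnit_of_mul_isUnit_left U2
    · apply (V2'.mul V3).mul_left_cancel
      rw [k1, ha, mul_left_comm, ZMod.mul_inv_of_unit _ (V2'.mul V3), mul_one]
  refine ⟨fun w => if (l : ℤ) ∣ w.2.1 then 3 else
    g (((w.2.1 : ℤ) : ZMod (l ^ f)) * ((w.2.2 : ℤ) : ZMod (l ^ f))⁻¹), ?_⟩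
  intro w w' hw hw' hc
  by_cases hd : (l : ℤ) ∣ w.2.1 <;> by_cases hd' : (l : ℤ) ∣ w'.2.1
  · obtain ⟨a1, a2⟩ := loc_div l f hl hf c2 d2 c3 d3 h2 h3 h3' w hw hd
    obtain ⟨b1, b2⟩ := loc_div l f hl hf c2 d2 c3 d3 h2 h3 h3' w' hw' hd'
    refine ⟨?_, ?_, ?_⟩
    · exact dvd_sub (Dvd.dvd.mul_right a1 _) (Dvd.dvd.mul_right a2 _)
    · exact dvd_sub (Dvd.dvd.mul_right a2 _) (Dvd.dvd.mul_left b2 _)
    · exact dvd_sub (Dvd.dvd.mul_left b1 _) (Dvd.dvd.mul_right a1 _)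
  · exfalso
    simp only [hd, hd', if_true, if_false] at hc
    exact hg3 _ (key w' hw' hd' _ rfl).1 hc.symm
  · exfalso
    simp only [hd, hd', if_true, if_false] at hc
    exact hg3 _ (key w hw hd _ rfl).1 hc
  · simp only [hd, hd', if_false] at hc
    obtain ⟨a1, a2, a3⟩ := key w hw hd _ rfl
    obtain ⟨b1, b2, b3⟩ := key w' hw' hd' _ rfl
    have hrr := hgi _ a1 _ b1 hc
    rw [← hrr] at b2 b3
    have V2 := loc_unit l f hl _ h2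
    set r := ((w.2.1 : ℤ) : ZMod (l ^ f)) * ((w.2.2 : ℤ) : ZMod (l ^ f))⁻¹
    rw [loc_dvd, loc_dvd, loc_dvd]
    refine ⟨?_, ?_, ?_⟩
    · unfold cr
      push_cast
      rw [← a2, ← b2]
      ring
    · unfold cr
      push_cast
      apply V2.mul_left_cancel
      linear_combination ((w.2.2 : ℤ) : ZMod (l ^ f)) * b3 - ((w'.2.2 : ℤ) : ZMod (l ^ f)) * a3
    · unfold cr
      push_cast
      apply V2.mul_left_cancel
      rw [← a2, ← b2]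
      linear_combination (r * ((w'.2.2 : ℤ) : ZMod (l ^ f))) * a3 -
        (r * ((w.2.2 : ℤ) : ZMod (l ^ f))) * b3

end Pool.Agent.SMQ
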