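import Pool.Agent.SMQ.Defs

/-!
# SMQ/Siz: sizes

PROOF of `siz`.  `|p| ≥ 1`, so `D ≤ D p ^ 2 ≤ 4 N1 N2 N3` and `G ^ 3 N1 N2 N3 ≤ D ^ (3/2)`, so
`G ^ 3 ≤ 4 √D ≤ 4 G √X`, `G ^ 2 ≤ 4 √X ≤ 4 X`, `D ≤ G ^ 2 X ≤ 4 X ^ 2`.  `N_i ^ 2 ≤ D`; `D g_i ^ 2 ≤ 4 N_i ^ 2 N_j N_k ≤ 4 D ^ 2`, so
`g_i ^ 2 ≤ 4 D`; `p ^ 2 ≤ 4 √D`, `y_i ^ 2 ≤ 4 √D`.  (So `|p| ^ 3, |y_1 y_2 y_3| ≤ 8 D ^ (3/4)` etc.)
Everything is at most `10 ^ 4 X ^ 5`.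
-/

set_option autoImplicit false

namespace Pool.Agent.SMQ

private theorem siz_sq (a b : ℤ) (hb : 0 ≤ b) (h : a ^ 2 ≤ b ^ 2) : a ≤ b :=
  le_of_sq_le_sq h hb |> fun h => h

private theorem siz_g (D g a b c : ℤ) (hD : 1 ≤ D) (ha : a ^ 2 ≤ D) (hb : b ^ 2 ≤ D)
    (hc : c ^ 2 ≤ D) (hb0 : 0 ≤ b) (hc0 : 0 ≤ c) (h : D * g ^ 2 ≤ 4 * a ^ 2 * b * c) :
    g ^ 2 ≤ 4 * D := by
  have h1 : b * c ≤ D := by nlinarith [sq_nonneg (b - c)]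
  have h2 : 0 ≤ b * c := mul_nonneg hb0 hc0
  have h3 : a ^ 2 * (b * c) ≤ D * D := mul_le_mul ha h1 h2 (by linarith)
  have h4 : D * g ^ 2 ≤ D * (4 * D) := by nlinarith
  exact le_of_mul_le_mul_left h4 (by linarith)

private theorem siz_y (D y a X : ℤ) (hD : 1 ≤ D) (ha0 : 0 ≤ a) (ha : a ^ 2 ≤ D)
    (h : D * y ^ 2 ≤ 4 * a ^ 3) (hX : D ≤ 4 * X ^ 2) (hX0 : 1 ≤ X) : y ^ 2 ≤ 8 * X := by
  have h0 : 0 ≤ D * y ^ 2 := by positivity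
  have h1 : (D * y ^ 2) ^ 2 ≤ (4 * a ^ 3) ^ 2 := pow_le_pow_left₀ h0 h 2
  have h2 : (a ^ 2) ^ 3 ≤ D ^ 3 := pow_le_pow_left₀ (sq_nonneg a) ha 3
  have h3 : D ^ 2 * (y ^ 2) ^ 2 ≤ D ^ 2 * (16 * D) := by nlinarith
  have h4 : (y ^ 2) ^ 2 ≤ 16 * D := le_of_mul_le_mul_left h3 (by positivity)
  have h5 : (y ^ 2) ^ 2 ≤ (8 * X) ^ 2 := by nlinarith
  exact siz_sq _ _ (by linarith) h5

private theorem siz_p (D p a b c X : ℤ) (hD : 1 ≤ D) (ha0 : 0 ≤ a) (hb0 : 0 ≤ b) (hc0 : 0 ≤ c)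
    (ha : a ^ 2 ≤ D) (hb : b ^ 2 ≤ D) (hc : c ^ 2 ≤ D)
    (h : D * p ^ 2 ≤ 4 * a * b * c) (hX : D ≤ 4 * X ^ 2) (hX0 : 1 ≤ X) : p ^ 2 ≤ 8 * X := by
  have h0 : 0 ≤ D * p ^ 2 := by positivity
  have h1 : (D * p ^ 2) ^ 2 ≤ (4 * a * b * c) ^ 2 := pow_le_pow_left₀ h0 h 2
  have h2 : a ^ 2 * b ^ 2 ≤ D * D := mul_le_mul ha hb (sq_nonneg b) (by linarith)
  have h2' : a ^ 2 * b ^ 2 * c ^ 2 ≤ D * D * D :=
    mul_le_mul h2 hc (sq_nonneg c) (by positivity)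
  have h3 : D ^ 2 * (p ^ 2) ^ 2 ≤ D ^ 2 * (16 * D) := by nlinarith
  have h4 : (p ^ 2) ^ 2 ≤ 16 * D := le_of_mul_le_mul_left h3 (by positivity)
  have h5 : (p ^ 2) ^ 2 ≤ (8 * X) ^ 2 := by nlinarith
  exact siz_sq _ _ (by linarith) h5

private theorem siz_N (D G a : ℤ) (hG : 1 ≤ G) (h : (G * a) ^ 2 ≤ D) : a ^ 2 ≤ D := by
  have h1 : 1 * a ^ 2 ≤ G ^ 2 * a ^ 2 :=
    mul_le_mul_of_nonneg_right (by nlinarith) (sq_nonneg a)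
  nlinarith

private theorem siz_D (D G a b c p X : ℤ) (hD : 1 ≤ D) (hG : 1 ≤ G) (hX : 1 ≤ X)
    (ha0 : 0 ≤ a) (hb0 : 0 ≤ b) (hc0 : 0 ≤ c) (hp : 1 ≤ p ^ 2)
    (h : D * p ^ 2 ≤ 4 * a * b * c) (ha : (G * a) ^ 2 ≤ D) (hb : (G * b) ^ 2 ≤ D)
    (hc : (G * c) ^ 2 ≤ D) (hDX : D ≤ G ^ 2 * X) : D ≤ 4 * X ^ 2 := by
  have h1 : D ≤ 4 * (a * b * c) := by nlinarith
  have h2 : D ^ 2 ≤ (4 * (a * b * c)) ^ 2 := pow_le_pow_left₀ (by linarith) h1 2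
  have h3 : (G * a) ^ 2 * (G * b) ^ 2 ≤ D * D := mul_le_mul ha hb (sq_nonneg _) (by linarith)
  have h4 : (G * a) ^ 2 * (G * b) ^ 2 * (G * c) ^ 2 ≤ D * D * D :=
    mul_le_mul h3 hc (sq_nonneg _) (by positivity)
  have h5 : D ^ 2 * G ^ 6 ≤ D ^ 2 * (16 * D) := by
    have : D ^ 2 * G ^ 6 ≤ (4 * (a * b * c)) ^ 2 * G ^ 6 :=
      mul_le_mul_of_nonneg_right h2 (by positivity)
    nlinarith
  have h6 : G ^ 6 ≤ 16 * D := le_of_mul_le_mul_left h5 (by positivity)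
  have h7 : G ^ 2 * G ^ 4 ≤ G ^ 2 * (16 * X) := by nlinarith
  have h8 : G ^ 4 ≤ 16 * X := le_of_mul_le_mul_left h7 (by positivity)
  have h9 : D ^ 2 ≤ (G ^ 2 * X) ^ 2 := pow_le_pow_left₀ (by linarith) hDX 2
  have h10 : (G ^ 2 * X) ^ 2 ≤ 16 * X * X ^ 2 := by
    have : G ^ 4 * X ^ 2 ≤ 16 * X * X ^ 2 := mul_le_mul_of_nonneg_right h8 (by positivity)
    nlinarith
  have h11 : X ^ 3 ≤ X ^ 4 := pow_le_pow_right₀ hX (by norm_num)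
  have h12 : D ^ 2 ≤ (4 * X ^ 2) ^ 2 := by nlinarith
  exact siz_sq _ _ (by positivity) h12

private theorem siz_abs (a : ℤ) (X : ℕ) (k : ℕ) (h : a ^ 2 ≤ ((k : ℤ) * X) ^ 2) :
    a.natAbs ≤ k * X := by
  have h1 : |a| ≤ (k : ℤ) * X := abs_le_of_sq_le_sq h (by positivity)
  zify
  exact h1

theorem siz (X D G : ℕ) (p : ℤ) (y g : V3) (N : ℕ × ℕ × ℕ) (N4 : ℕ) (u v : V3) (hX : 1 ≤ X)
    (hDX : D ≤ G ^ 2 * X) (h : Tri D G p y g N N4 u v) :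
    1 ≤ D ∧ D ≤ 4 * X ^ 2 ∧ N.1 ≤ 2 * X ∧ N.2.1 ≤ 2 * X ∧ N.2.2 ≤ 2 * X ∧
      g.1.natAbs ≤ 4 * X ∧ g.2.1.natAbs ≤ 4 * X ∧ g.2.2.natAbs ≤ 4 * X ∧
      (p ^ 2 * De p y).natAbs ≤ 10 ^ 4 * X ^ 5 ∧
      (y.1 * y.2.1 * y.2.2).natAbs ≤ 10 ^ 4 * X ^ 5 := by
  obtain ⟨hG, hp, hD, sp, s4, t1, t2, t3, lo, ka⟩ := h
  obtain ⟨y1, y2, y3⟩ := y
  obtain ⟨g1, g2, g3⟩ := g
  obtain ⟨N1, N2, N3⟩ := N
  simp only at *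
  have hN1 := t1.hN
  have hN2 := t2.hN
  have hN3 := t3.hN
  have s1 := t1.sN
  have s2 := t2.sN
  have s3 := t3.sN
  have hD1 : 1 ≤ D := by
    have : 1 ≤ G * N1 := Nat.mul_pos hG hN1
    have : 1 ≤ (G * N1) ^ 2 := Nat.one_le_pow _ _ this
    omega
  have hp2 : 1 ≤ p ^ 2 := by
    have := sq_pos_of_ne_zero hp |> fun h : 0 < p ^ 2 => h
    omega
  have zG : (1 : ℤ) ≤ G := by exact_mod_cast hG
  have zD : (1 : ℤ) ≤ D := by exact_mod_cast hD1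
  have zX : (1 : ℤ) ≤ X := by exact_mod_cast hX
  have z1 : ((G : ℤ) * N1) ^ 2 ≤ D := by exact_mod_cast s1
  have z2 : ((G : ℤ) * N2) ^ 2 ≤ D := by exact_mod_cast s2
  have z3 : ((G : ℤ) * N3) ^ 2 ≤ D := by exact_mod_cast s3
  have zDX : (D : ℤ) ≤ (G : ℤ) ^ 2 * X := by exact_mod_cast hDX
  have n1 : (0 : ℤ) ≤ N1 := by positivity
  have n2 : (0 : ℤ) ≤ N2 := by positivity
  have n3 : (0 : ℤ) ≤ N3 := by positivity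
  have hDb : (D : ℤ) ≤ 4 * (X : ℤ) ^ 2 :=
    siz_D D G N1 N2 N3 p X zD zG zX n1 n2 n3 hp2 sp z1 z2 z3 zDX
  have w1 := siz_N D G N1 zG z1
  have w2 := siz_N D G N2 zG z2
  have w3 := siz_N D G N3 zG z3
  have g1b := siz_g D g1 N1 N2 N3 zD w1 w2 w3 n2 n3 t1.sg
  have g2b := siz_g D g2 N2 N3 N1 zD w2 w3 w1 n3 n1 t2.sg
  have g3b := siz_g D g3 N3 N1 N2 zD w3 w1 w2 n1 n2 t3.sg
  have y1b := siz_y D y1 N1 X zD n1 w1 t1.sy hDb zX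
  have y2b := siz_y D y2 N2 X zD n2 w2 t2.sy hDb zX
  have y3b := siz_y D y3 N3 X zD n3 w3 t3.sy hDb zX
  have pb := siz_p D p N1 N2 N3 X zD n1 n2 n3 w1 w2 w3 sp hDb zX
  have Nb : ∀ a : ℕ, (a : ℤ) ^ 2 ≤ D → a ≤ 2 * X := by
    intro a ha
    have : (a : ℤ) ≤ 2 * X := siz_sq _ _ (by positivity) (by nlinarith)
    exact_mod_cast this
  have gb : ∀ a : ℤ, a ^ 2 ≤ 4 * D → a.natAbs ≤ 4 * X := by
    intro a ha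
    apply siz_abs a X 4
    push_cast
    nlinarith
  have ab : ∀ a : ℤ, a ^ 2 ≤ 8 * X → |a| ≤ 8 * X := by
    intro a ha
    have : |a| ≤ |a| ^ 2 := by
      rcases eq_or_ne a 0 with rfl | h0
      · simp
      · have : 1 ≤ |a| := Int.one_le_abs h0
        nlinarith
    rw [sq_abs] at this
    linarith
  have a1 := ab y1 y1b
  have a2 := ab y2 y2b
  have a3 := ab y3 y3b
  have ap := ab p pb
  have hyb : |y1 * y2 * y3| ≤ 512 * (X : ℤ) ^ 3 := by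
    rw [abs_mul, abs_mul]
    have e1 : |y1| * |y2| ≤ 8 * X * (8 * X) := mul_le_mul a1 a2 (abs_nonneg _) (by positivity)
    have e2 : |y1| * |y2| * |y3| ≤ 8 * X * (8 * X) * (8 * X) :=
      mul_le_mul e1 a3 (abs_nonneg _) (by positivity)
    calc |y1| * |y2| * |y3| ≤ 8 * X * (8 * X) * (8 * X) := e2
      _ = 512 * (X : ℤ) ^ 3 := by ring
  have hp3 : |p ^ 3| ≤ 64 * (X : ℤ) ^ 2 := by
    have e : |p ^ 3| = |p| * p ^ 2 := by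
      rw [abs_pow, pow_succ, sq_abs, mul_comm]
    rw [e]
    have : |p| * p ^ 2 ≤ 8 * X * (8 * X) := mul_le_mul ap pb (sq_nonneg p) (by positivity)
    linarith
  have x23 : (X : ℤ) ^ 2 ≤ (X : ℤ) ^ 3 := pow_le_pow_right₀ zX (by norm_num)
  have x35 : (X : ℤ) ^ 3 ≤ (X : ℤ) ^ 5 := pow_le_pow_right₀ zX (by norm_num)
  have x45 : (X : ℤ) ^ 4 ≤ (X : ℤ) ^ 5 := pow_le_pow_right₀ zX (by norm_num)
  have hX5 : (0 : ℤ) ≤ (X : ℤ) ^ 5 := by positivity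
  refine ⟨hD1, by exact_mod_cast hDb, Nb _ w1, Nb _ w2, Nb _ w3, gb _ g1b, gb _ g2b, gb _ g3b,
    ?_, ?_⟩
  · have e1 : |De p (y1, y2, y3)| ≤ 576 * (X : ℤ) ^ 3 := by
      unfold De
      have := abs_sub (y1 * y2 * y3) (p ^ 3)
      simp only
      linarith
    have e2 : |p ^ 2 * De p (y1, y2, y3)| ≤ 10 ^ 4 * (X : ℤ) ^ 5 := by
      rw [abs_mul, abs_of_nonneg (sq_nonneg p)]
      have : p ^ 2 * |De p (y1, y2, y3)| ≤ 8 * X * (576 * (X : ℤ) ^ 3) :=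
        mul_le_mul pb e1 (abs_nonneg _) (by positivity)
      nlinarith
    zify
    exact e2
  · have e2 : |y1 * y2 * y3| ≤ 10 ^ 4 * (X : ℤ) ^ 5 := by nlinarith
    zify
    exact e2

end Pool.Agent.SMQ
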