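import Pool.Agent.SMQ.BoA
import Pool.Agent.SMQ.BoB
import Pool.Agent.SMQ.Siz

/-!
# SMQ/Sml: dyadic boxes

PROOF of `smal`.  `S` is a set of `q = (p, y, g)` which all have witnesses with `|g1| / √N1` minimal.  Then
`g2, g3 ≠ 0` (if `g2 = 0` then `g1 = 0` and the identities give `N3 Δ = 0`; if `g3 = 0` the same).
Choose a witness for every `q` and map `q` to
`(⌊log2 D⌋, ⌊log2 N_i⌋, ⌊log2 |g2|⌋, ⌊log2 |g3|⌋)` (`Nat.log 2`), a point of `(range K) ^ 6`, `K = log2 (10 ^ 4 X ^ 5) + 1`.  The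
fibre over a point is contained in a box with the parameters `2 ^ i`: `InB` holds.  Apply `boxa` and `boxb`
(`Z0 = 10 ^ 4 X ^ 5`; `32 n1 n2 n3 / d ≤ 32 (2 d) ^ (3/2) / d ≤ 91 √d ≤ 182 X`, so `P0 ≤ 14 √X`, `2 P0 ^ 3 ≤ 10 ^ 4 X ^ 5`).  So
`card S ≤ K ^ 6 * 32000000 T ^ 6 L ^ 3 * 17000 X / G`.
-/

set_option autoImplicit false

namespace Pool.Agent.SMQ

/-- the part of a set over one point of the table -/
private theorem Sml_fib {α β : Type*} [DecidableEq β] (S : Finset α) (f : α → β) (t : Finset β)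
    (B : ℝ) (hf : ∀ q ∈ S, f q ∈ t) (hB : ∀ k ∈ t, ((S.filter (fun q => f q = k)).card : ℝ) ≤ B) :
    (S.card : ℝ) ≤ (t.card : ℝ) * B := by
  have h1 : S.card = ∑ k ∈ t, (S.filter (fun q => f q = k)).card :=
    Finset.card_eq_sum_card_fiberwise (fun q hq => hf q hq)
  rw [h1]
  push_cast
  calc ∑ k ∈ t, ((S.filter (fun q => f q = k)).card : ℝ) ≤ ∑ _k ∈ t, B :=
        Finset.sum_le_sum hB
    _ = (t.card : ℝ) * B := by rw [Finset.sum_const, nsmul_eq_mul]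

private theorem Sml_zero {a b n m : ℝ} (hb : b = 0) (hn : 0 < n)
    (h : |a| / √n ≤ |b| / √m) : a = 0 := by
  rw [hb, abs_zero, zero_div] at h
  have h1 : 0 < √n := Real.sqrt_pos.2 hn
  have h2 : |a| ≤ 0 := by
    by_contra hc
    push Not at hc
    have := div_pos hc h1
    linarith
  exact abs_eq_zero.1 (le_antisymm h2 (abs_nonneg a))

private theorem Sml_log (n : ℕ) (hn : n ≠ 0) :
    2 ^ Nat.log 2 n ≤ n ∧ n < 2 * 2 ^ Nat.log 2 n := by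
  refine ⟨Nat.pow_log_le_self 2 hn, ?_⟩
  have := Nat.lt_pow_succ_log_self (b := 2) (by norm_num) n
  rw [pow_succ] at this
  omega

private theorem Sml_logz (n : ℤ) (hn : n ≠ 0) :
    ((2 ^ Nat.log 2 n.natAbs : ℕ) : ℤ) ≤ |n| ∧ |n| < 2 * ((2 ^ Nat.log 2 n.natAbs : ℕ) : ℤ) := by
  have h := Sml_log n.natAbs (by omega)
  have h1 : |n| = (n.natAbs : ℤ) := Int.abs_eq_natAbs n
  rw [h1]
  constructor
  · exact_mod_cast h.1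
  · exact_mod_cast h.2

/-- the sizes of `√(32 U / d)` -/
private theorem Sml_R (X d n1 n2 n3 G : ℕ) (hX : 1 ≤ X) (hG : 1 ≤ G) (hd : 1 ≤ d)
    (hd2 : d ≤ 4 * X ^ 2) (k1 : (G * n1) ^ 2 < 2 * d) (k2 : (G * n2) ^ 2 < 2 * d)
    (k3 : (G * n3) ^ 2 < 2 * d) :
    √(32 * (n1 : ℝ) * n2 * n3 / d) ≤ ((10 ^ 4 * X ^ 5 : ℕ) : ℝ) ∧
      2 * √(32 * (n1 : ℝ) * n2 * n3 / d) ^ 3 ≤ ((10 ^ 4 * X ^ 5 : ℕ) : ℝ) := by
  have aux : ∀ n : ℕ, (G * n) ^ 2 < 2 * d → (n : ℝ) ^ 2 ≤ 2 * d := by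
    intro n hn
    have h1 : n ^ 2 ≤ (G * n) ^ 2 := Nat.pow_le_pow_left (Nat.le_mul_of_pos_left n hG) 2
    have h2 : n ^ 2 ≤ 2 * d := (h1.trans hn.le)
    exact_mod_cast h2
  have e1 := aux n1 k1
  have e2 := aux n2 k2
  have e3 := aux n3 k3
  have hdR : (1 : ℝ) ≤ d := by exact_mod_cast hd
  have hd0 : (0 : ℝ) < d := by linarith
  have hXR : (1 : ℝ) ≤ X := by exact_mod_cast hX
  have hd2R : (d : ℝ) ≤ 4 * (X : ℝ) ^ 2 := by exact_mod_cast hd2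
  have hn1 : (0 : ℝ) ≤ n1 := Nat.cast_nonneg _
  have hn2 : (0 : ℝ) ≤ n2 := Nat.cast_nonneg _
  have hn3 : (0 : ℝ) ≤ n3 := Nat.cast_nonneg _
  set R : ℝ := √(32 * (n1 : ℝ) * n2 * n3 / d) with hR
  have hR0 : 0 ≤ R := Real.sqrt_nonneg _
  have hRsq : R ^ 2 = 32 * (n1 : ℝ) * n2 * n3 / d := by
    rw [hR, Real.sq_sqrt]
    positivity
  have hU : ((n1 : ℝ) * n2 * n3) ^ 2 ≤ (2 * (d : ℝ)) ^ 3 := by
    have h12 : (n1 : ℝ) ^ 2 * (n2 : ℝ) ^ 2 ≤ (2 * (d : ℝ)) * (2 * (d : ℝ)) :=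
      mul_le_mul e1 e2 (by positivity) (by positivity)
    have h123 : (n1 : ℝ) ^ 2 * (n2 : ℝ) ^ 2 * (n3 : ℝ) ^ 2 ≤
        (2 * (d : ℝ)) * (2 * (d : ℝ)) * (2 * (d : ℝ)) :=
      mul_le_mul h12 e3 (by positivity) (by positivity)
    calc ((n1 : ℝ) * n2 * n3) ^ 2 = (n1 : ℝ) ^ 2 * (n2 : ℝ) ^ 2 * (n3 : ℝ) ^ 2 := by ring
      _ ≤ (2 * (d : ℝ)) * (2 * (d : ℝ)) * (2 * (d : ℝ)) := h123
      _ = (2 * (d : ℝ)) ^ 3 := by ring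
  have hR4 : (R ^ 2) ^ 2 ≤ (182 * (X : ℝ)) ^ 2 := by
    rw [hRsq, div_pow, div_le_iff₀ (by positivity)]
    have h1 : (32 * (n1 : ℝ) * n2 * n3) ^ 2 ≤ 1024 * (2 * (d : ℝ)) ^ 3 := by
      calc (32 * (n1 : ℝ) * n2 * n3) ^ 2 = 1024 * ((n1 : ℝ) * n2 * n3) ^ 2 := by ring
        _ ≤ 1024 * (2 * (d : ℝ)) ^ 3 := by linarith
    have h2 : 1024 * (2 * (d : ℝ)) ^ 3 ≤ (182 * (X : ℝ)) ^ 2 * (d : ℝ) ^ 2 := by
      have h3 : 8192 * (d : ℝ) ≤ (182 * (X : ℝ)) ^ 2 := by nlinarith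
      calc 1024 * (2 * (d : ℝ)) ^ 3 = 8192 * (d : ℝ) * (d : ℝ) ^ 2 := by ring
        _ ≤ (182 * (X : ℝ)) ^ 2 * (d : ℝ) ^ 2 :=
          mul_le_mul_of_nonneg_right h3 (by positivity)
    exact h1.trans h2
  have hR2 : R ^ 2 ≤ 182 * (X : ℝ) :=
    (pow_le_pow_iff_left₀ (by positivity) (by positivity) (by norm_num)).1 hR4
  have hX10 : (X : ℝ) ^ 3 ≤ (X : ℝ) ^ 10 := pow_le_pow_right₀ hXR (by norm_num)
  have hX1 : (X : ℝ) ≤ (X : ℝ) ^ 10 := by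
    calc (X : ℝ) = (X : ℝ) ^ 1 := (pow_one _).symm
      _ ≤ (X : ℝ) ^ 10 := pow_le_pow_right₀ hXR (by norm_num)
  have hZ : ((10 ^ 4 * X ^ 5 : ℕ) : ℝ) = 10 ^ 4 * (X : ℝ) ^ 5 := by push_cast; ring
  rw [hZ]
  constructor
  · refine (pow_le_pow_iff_left₀ hR0 (by positivity) (by norm_num : (2 : ℕ) ≠ 0)).1 ?_
    calc R ^ 2 ≤ 182 * (X : ℝ) := hR2
      _ ≤ 10 ^ 8 * (X : ℝ) ^ 10 := by nlinarith
      _ = (10 ^ 4 * (X : ℝ) ^ 5) ^ 2 := by ring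
  · refine (pow_le_pow_iff_left₀ (by positivity) (by positivity) (by norm_num : (2 : ℕ) ≠ 0)).1 ?_
    have h6 : (R ^ 2) ^ 3 ≤ (182 * (X : ℝ)) ^ 3 := pow_le_pow_left₀ (by positivity) hR2 3
    calc (2 * R ^ 3) ^ 2 = 4 * (R ^ 2) ^ 3 := by ring
      _ ≤ 4 * (182 * (X : ℝ)) ^ 3 := by linarith
      _ = 24114272 * (X : ℝ) ^ 3 := by ring
      _ ≤ 10 ^ 8 * (X : ℝ) ^ 10 := by
        have : (0 : ℝ) ≤ (X : ℝ) ^ 3 := by positivity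
        nlinarith
      _ = (10 ^ 4 * (X : ℝ) ^ 5) ^ 2 := by ring

theorem smal (X G : ℕ) (hX : 1 ≤ X) (hG : 1 ≤ G) (T L : ℝ)
    (hT : ∀ n : ℕ, 1 ≤ n → n ≤ 10 ^ 4 * X ^ 5 → (n.divisors.card : ℝ) ≤ T) (hT1 : 1 ≤ T)
    (hL : 1 + Real.log ((10 ^ 4 * X ^ 5 : ℕ) : ℝ) ≤ L) (S : Finset (ℤ × V3 × V3))
    (hS : ∀ q ∈ S, C1 X G q) :
    (S.card : ℝ) ≤ ((Nat.log 2 (10 ^ 4 * X ^ 5) + 1 : ℕ) : ℝ) ^ 6 *
      (32000000 * T ^ 6 * L ^ 3 * (17000 * ((X : ℝ) / G))) := by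
  classical
  have hS' : ∀ q ∈ S, ∃ (D : ℕ) (N : ℕ × ℕ × ℕ) (N4 : ℕ) (u v : V3), D ≤ G ^ 2 * X ∧
    Tri D G q.1 q.2.1 q.2.2 N N4 u v ∧
    |(q.2.2.1 : ℝ)| / √(N.1 : ℝ) ≤ |(q.2.2.2.1 : ℝ)| / √(N.2.1 : ℝ) ∧
    |(q.2.2.1 : ℝ)| / √(N.1 : ℝ) ≤ |(q.2.2.2.2 : ℝ)| / √(N.2.2 : ℝ) := hS
  choose! D N N4 u v hDX hTri ht2 ht3 using hS'
  set Z : ℕ := 10 ^ 4 * X ^ 5 with hZ
  have hX5 : 1 ≤ X ^ 5 := Nat.one_le_pow _ _ hX
  have hZ1 : 1 ≤ Z := by rw [hZ]; omega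
  have hX2 : X ^ 2 ≤ X ^ 5 := Nat.pow_le_pow_right hX (by norm_num)
  have hX1 : X ≤ X ^ 5 := Nat.le_self_pow (by norm_num) X
  have hlogZ : 0 ≤ Real.log ((Z : ℕ) : ℝ) := Real.log_nonneg (by exact_mod_cast hZ1)
  have hL0 : 0 ≤ L := by linarith
  have hT0 : 0 ≤ T := by linarith
  set K : ℕ := Nat.log 2 Z + 1 with hK
  let f : (ℤ × V3 × V3) → (ℕ × ℕ × ℕ) × (ℕ × ℕ × ℕ) := fun q =>
    ((Nat.log 2 (D q), Nat.log 2 (N q).1, Nat.log 2 (N q).2.1),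
      (Nat.log 2 (N q).2.2, Nat.log 2 q.2.2.2.1.natAbs, Nat.log 2 q.2.2.2.2.natAbs))
  let t : Finset ((ℕ × ℕ × ℕ) × (ℕ × ℕ × ℕ)) :=
    (Finset.range K ×ˢ Finset.range K ×ˢ Finset.range K) ×ˢ
      (Finset.range K ×ˢ Finset.range K ×ˢ Finset.range K)
  have htc : (t.card : ℝ) = (K : ℝ) ^ 6 := by
    simp only [t, Finset.card_product, Finset.card_range]
    push_cast
    ring
  have hmem : ∀ n : ℕ, n ≤ Z → Nat.log 2 n ∈ Finset.range K := by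
    intro n hn
    rw [Finset.mem_range, hK]
    exact Nat.lt_succ_of_le (Nat.log_mono_right hn)
  have hsiz := fun q (hq : q ∈ S) =>
    siz X (D q) G q.1 q.2.1 q.2.2 (N q) (N4 q) (u q) (v q) hX (hDX q hq) (hTri q hq)
  have hf : ∀ q ∈ S, f q ∈ t := by
    intro q hq
    obtain ⟨s1, s2, s3, s4, s5, s6, s7, s8, s9, s10⟩ := hsiz q hq
    simp only [f, t, Finset.mem_product]
    refine ⟨⟨hmem _ ?_, hmem _ ?_, hmem _ ?_⟩, ⟨hmem _ ?_, hmem _ ?_, hmem _ ?_⟩⟩ <;>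
      (rw [hZ]; omega)
  rw [← htc]
  refine Sml_fib S f t _ hf ?_
  intro k _hk
  by_cases hne : (S.filter (fun q => f q = k)) = ∅
  · rw [hne, Finset.card_empty, Nat.cast_zero]
    positivity
  obtain ⟨q0, hq0⟩ := Finset.nonempty_iff_ne_empty.2 hne
  rw [Finset.mem_filter] at hq0
  obtain ⟨hq0S, hq0k⟩ := hq0
  obtain ⟨⟨k1, k2, k3⟩, ⟨k4, k5, k6⟩⟩ := k
  have key : ∀ q ∈ S, f q = ((k1, k2, k3), (k4, k5, k6)) →
      Bo (2 ^ k1) (2 ^ k2) (2 ^ k3) (2 ^ k4) (2 ^ k5) (2 ^ k6) (D q) (N q) q.2.2 := by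
    intro q hq hqk
    have h := hTri q hq
    obtain ⟨s1, -⟩ := hsiz q hq
    simp only [f, Prod.mk.injEq] at hqk
    obtain ⟨⟨r1, r2, r3⟩, ⟨r4, r5, r6⟩⟩ := hqk
    subst r1 r2 r3 r4 r5 r6
    have hN1 : (0 : ℝ) < ((N q).1 : ℝ) := by exact_mod_cast h.t1.hN
    have hid := h.t1.hi
    have hDe : q.2.1.1 * q.2.1.2.1 * q.2.1.2.2 - q.1 ^ 3 ≠ 0 := h.hD
    have hN1z : ((N q).1 : ℤ) ≠ 0 := by
      have := h.t1.hN
      omega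
    have g2 : q.2.2.2.1 ≠ 0 := by
      intro h0
      have h1 : (q.2.2.1 : ℝ) = 0 := Sml_zero (by rw [h0]; exact Int.cast_zero) hN1 (ht2 q hq)
      have h2 : q.2.2.1 = 0 := by exact_mod_cast h1
      rw [h0, h2] at hid
      simp only [mul_zero, zero_mul, ne_eq, OfNat.ofNat_ne_zero, not_false_eq_true, zero_pow,
        sub_zero] at hid
      exact mul_ne_zero hN1z hDe hid
    have g3 : q.2.2.2.2 ≠ 0 := by
      intro h0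
      have h1 : (q.2.2.1 : ℝ) = 0 := Sml_zero (by rw [h0]; exact Int.cast_zero) hN1 (ht3 q hq)
      have h2 : q.2.2.1 = 0 := by exact_mod_cast h1
      rw [h0, h2] at hid
      simp only [mul_zero, ne_eq, OfNat.ofNat_ne_zero, not_false_eq_true, zero_pow,
        sub_zero] at hid
      exact mul_ne_zero hN1z hDe hid
    have b1 := Sml_log (D q) (by omega)
    have b2 := Sml_log (N q).1 (by have := h.t1.hN; omega)
    have b3 := Sml_log (N q).2.1 (by have := h.t2.hN; omega)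
    have b4 := Sml_log (N q).2.2 (by have := h.t3.hN; omega)
    have b5 := Sml_logz _ g2
    have b6 := Sml_logz _ g3
    exact ⟨Nat.one_le_two_pow, Nat.one_le_two_pow, Nat.one_le_two_pow, Nat.one_le_two_pow,
      Nat.one_le_two_pow, Nat.one_le_two_pow, b1.1, b1.2, b2.1, b2.2, b3.1, b3.2, b4.1, b4.2,
      b5.1, b5.2, b6.1, b6.2, ht2 q hq, ht3 q hq⟩
  have hb0 := key q0 hq0S hq0k
  have hs0 := hsiz q0 hq0S
  have hT0' := hTri q0 hq0S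
  have hdG : 2 ^ k1 ≤ G ^ 2 * X := hb0.d1.trans (hDX q0 hq0S)
  have hd4 : 2 ^ k1 ≤ 4 * X ^ 2 := hb0.d1.trans hs0.2.1
  have kk : ∀ n M : ℕ, n ≤ M → (G * M) ^ 2 ≤ D q0 → (G * n) ^ 2 < 2 * 2 ^ k1 := by
    intro n M hnM hM
    have h1 : (G * n) ^ 2 ≤ (G * M) ^ 2 := Nat.pow_le_pow_left (Nat.mul_le_mul_left G hnM) 2
    have h2 := hb0.d2
    omega
  have c1 := kk _ _ hb0.n11 hT0'.t1.sN
  have c2 := kk _ _ hb0.n21 hT0'.t2.sN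
  have c3 := kk _ _ hb0.n31 hT0'.t3.sN
  have hR := Sml_R X (2 ^ k1) (2 ^ k2) (2 ^ k3) (2 ^ k4) G hX hG hb0.d0 hd4 c1 c2 c3
  have hA := boxa (2 ^ k1) (2 ^ k2) (2 ^ k3) (2 ^ k4) (2 ^ k5) (2 ^ k6) G Z T L hT hT1 hL
    (S.filter (fun q => f q = ((k1, k2, k3), (k4, k5, k6))))
    (by
      intro q hq
      rw [Finset.mem_filter] at hq
      exact ⟨D q, N q, N4 q, u q, v q, hTri q hq.1, key q hq.1 hq.2⟩)
    (by
      intro q hq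
      rw [Finset.mem_filter] at hq
      obtain ⟨-, -, -, -, -, -, -, -, s9, s10⟩ := hsiz q hq.1
      exact ⟨s9, s10⟩)
    hR hZ1
  have hB := boxb X (2 ^ k1) (2 ^ k2) (2 ^ k3) (2 ^ k4) G hX hG hb0.d0 hb0.n10 hb0.n20 hb0.n30
    hdG c1 c2 c3
  refine hA.trans ?_
  exact mul_le_mul_of_nonneg_left hB (by positivity)

end Pool.Agent.SMQ
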